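import Pool.Agent.KSC.Defs

/-! Elementary properties of states, chains and marks in slabs. -/

set_option autoImplicit false

open Pool.Agent.LK
open scoped ENNReal

namespace Pool.Agent.KSC

open Pool.Agent.KTube Pool.Agent.KRing Pool.Agent.KLog
open Pool.Agent.KAsym (ln)
open Pool.Agent.KAmp (gl)
open Pool.Agent.KCls (Flat)
open Pool.Agent.KComp (ww ww_nil ww_cons ww_append CA HA)

variable {M : ℕ} {v w x : SS} {π : PP} {s t : List PP} {y z : ℝ}

/-! ### States -/

theorem pr_add (x x' : SS) : pr (x + x') = pr x + pr x' := by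
  simp only [pr, Prod.fst_add, Prod.snd_add, Prod.mk_add_mk, Prod.mk.injEq, true_and]
  ring

theorem pr_zero : pr 0 = 0 := rfl

theorem pr_DD (π : PP) : pr (DD π) = dsp π := by
  simp [pr, DD, dsp, hz]

theorem pr_add_DD (x : SS) (π : PP) : pr (x + DD π) = pr x + dsp π := by
  rw [pr_add, pr_DD]

theorem nr_add (x x' : SS) : nr (x + x') ≤ nr x + nr x' := by
  have h1 := Int.natAbs_add_le x.1 x'.1
  have h2 := Int.natAbs_add_le x.2.1 x'.2.1
  have h3 := Int.natAbs_add_le x.2.2 x'.2.2
  simp only [nr, Prod.fst_add, Prod.snd_add]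
  omega

theorem nrm_pr_le (x : SS) : nrm (pr x) ≤ nr x := by
  simp only [nrm, pr, nr]
  omega

theorem GS.geo (h : GS M x π) : Geo (pr x) π := h.1

theorem GS.ins (h : GS M x π) : Ins M x π := h.2

theorem US.gs (h : US M x π) : GS M x π := ⟨h.1.1, h.2⟩

theorem US.valid (h : US M x π) : Valid (pr x) π := h.1

theorem us_iff : US M x π ↔ GS M x π ∧ Unk (pr x) π :=
  ⟨fun h => ⟨h.gs, h.1.2⟩, fun h => ⟨⟨h.1.1, h.2⟩, h.1.2⟩⟩

theorem KS.gs (h : KS M x π) : GS M x π := h.1

theorem KS.kn (h : KS M x π) : KComp.Kn (pr x) π := ⟨h.1.1, h.2⟩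

theorem Ins.rg (h : Ins M x π) : Rg M x := by
  have h1 := h.1 (0, 0, 1) (List.mem_of_mem_head? (by rw [head_wk]; rfl))
  have h2 := h.2 (0, 0, 1) (List.mem_of_mem_head? (by rw [head_wk]; rfl))
  simp only [zero_add] at h1 h2
  exact ⟨h1, h2⟩

theorem Ins.rg' (h : Ins M x π) : Rg M (x + DD π) := by
  have h1 := h.1 _ (List.mem_of_getLast? (last_wk (0, 0, 1) π.1))
  have h2 := h.2 _ (List.mem_of_getLast? (last_wk (0, 0, 1) π.2))
  simp only [Prod.snd_add, Prod.fst_add, zero_add] at h1 h2
  refine ⟨?_, ?_⟩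
  · simpa only [DD, Prod.snd_add, Prod.fst_add, add_comm] using h1
  · simpa only [DD, Prod.snd_add, Prod.fst_add, add_comm] using h2

/-- The condition depends only on the heights. -/
theorem ins_congr {x' : SS} (h : x.2 = x'.2) : Ins M x π ↔ Ins M x' π := by
  unfold Ins
  rw [h]

theorem GS.al (h : GS M x π) : Al M x := ⟨h.1.ne, h.2.rg⟩

theorem GS.al' (h : GS M x π) : Al M (x + DD π) := by
  refine ⟨?_, h.2.rg'⟩
  intro h0
  refine h.1.ne' ?_
  rw [pr_add_DD, dsp, add_sub_assoc', sub_eq_zero] at h0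
  exact h0.symm

theorem US.al (h : US M x π) : Al M x := h.gs.al

theorem US.al' (h : US M x π) : Al M (x + DD π) := h.gs.al'

theorem KS.al (h : KS M x π) : Al M x := h.1.al

theorem KS.al' (h : KS M x π) : Al M (x + DD π) := h.1.al'

theorem HS.al (h : HS M) : Al M h.1 := by
  obtain ⟨x, l, hl, hi⟩ := h
  refine ⟨fun h0 => hl.1 h0.symm, ?_, ?_⟩
  · have h1 := hi _ (List.mem_of_getLast? hl.2.1.last)
    simpa using h1
  · have h1 := hi _ (List.mem_of_mem_head? (by rw [hl.2.1.head]; rfl))
    simpa [pr] using h1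

/-! ### Chains -/

theorem ed_nil (v : SS) : ed v [] = v := by
  simp [ed]

theorem ed_cons (v : SS) (π : PP) (s : List PP) : ed v (π :: s) = ed (v + DD π) s := by
  simp only [ed, List.map_cons, List.sum_cons]
  rw [add_assoc]

theorem ed_append (v : SS) (s t : List PP) : ed v (s ++ t) = ed (ed v s) t := by
  simp only [ed, List.map_append, List.sum_append]
  rw [add_assoc]

theorem UC.gc (h : UC M v s) : GC M v s := by
  induction s generalizing v with
  | nil => exact h
  | cons π s ih => exact ⟨h.1.gs, ih h.2⟩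

theorem GC.al (h : GC M v s) : Al M v := by
  cases s with
  | nil => exact h
  | cons π s => exact h.1.al

theorem UC.al (h : UC M v s) : Al M v := h.gc.al

theorem GC.ed_al (h : GC M v s) : Al M (ed v s) := by
  induction s generalizing v with
  | nil => rw [ed_nil]; exact h
  | cons π s ih => rw [ed_cons]; exact ih h.2

theorem UC.ed_al (h : UC M v s) : Al M (ed v s) := h.gc.ed_al

theorem gc_append : GC M v (s ++ t) ↔ GC M v s ∧ GC M (ed v s) t := by
  induction s generalizing v with
  | nil =>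
    rw [ed_nil, List.nil_append]
    exact ⟨fun h => ⟨h.al, h⟩, fun h => h.2⟩
  | cons π s ih =>
    rw [ed_cons, List.cons_append]
    constructor
    · rintro ⟨h1, h2⟩
      exact ⟨⟨h1, (ih.1 h2).1⟩, (ih.1 h2).2⟩
    · rintro ⟨⟨h1, h2⟩, h3⟩
      exact ⟨h1, ih.2 ⟨h2, h3⟩⟩

theorem uc_append : UC M v (s ++ t) ↔ UC M v s ∧ UC M (ed v s) t := by
  induction s generalizing v with
  | nil =>
    rw [ed_nil, List.nil_append]
    exact ⟨fun h => ⟨h.al, h⟩, fun h => h.2⟩
  | cons π s ih =>
    rw [ed_cons, List.cons_append]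
    constructor
    · rintro ⟨h1, h2⟩
      exact ⟨⟨h1, (ih.1 h2).1⟩, (ih.1 h2).2⟩
    · rintro ⟨⟨h1, h2⟩, h3⟩
      exact ⟨h1, ih.2 ⟨h2, h3⟩⟩

/-- The displacement at the end. -/
theorem pr_ed (v : SS) (s : List PP) : pr (ed v s) = KTop.ed (pr v) s := by
  induction s generalizing v with
  | nil => rw [ed_nil, KTop.ed_nil]
  | cons π s ih => rw [ed_cons, KTop.ed_cons, ih, pr_add_DD]

theorem GC.gc (h : GC M v s) : KTop.GC (pr v) s := by
  induction s generalizing v with
  | nil => exact h.1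
  | cons π s ih => exact ⟨h.1.1, by rw [← pr_add_DD]; exact ih h.2⟩

theorem UC.uc (h : UC M v s) : KTop.UC (pr v) s := by
  induction s generalizing v with
  | nil => exact h.1
  | cons π s ih => exact ⟨h.1.1, by rw [← pr_add_DD]; exact ih h.2⟩

/-! ### Marks -/

open Classical in
theorem mk_cons (v : SS) (π : PP) (s : List PP) : mk v (π :: s) =
    if Unk (pr v) π then mk (v + DD π) s else (v, π) :: mk (v + DD π) s := rfl

theorem mk_append (v : SS) (s t : List PP) : mk v (s ++ t) = mk v s ++ mk (ed v s) t := by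
  induction s generalizing v with
  | nil => rw [ed_nil]; rfl
  | cons π s ih =>
    rw [ed_cons, List.cons_append, mk_cons, mk_cons]
    split_ifs
    · exact ih _
    · rw [ih]; rfl

/-- The marks as marks of a chain in space. -/
theorem mk_map (v : SS) (s : List PP) :
    (mk v s).map (fun m => (pr m.1, m.2)) = KComp.mk (pr v) s := by
  induction s generalizing v with
  | nil => rfl
  | cons π s ih =>
    rw [mk_cons, KComp.mk_cons]
    have h := ih (v + DD π)
    rw [pr_add_DD] at h
    split_ifs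
    · exact h
    · rw [List.map_cons, h]

/-- Every mark is a knotted block. -/
theorem kn_of_mem_mk (h : GC M v s) {m : SS × PP} (hm : m ∈ mk v s) : KS M m.1 m.2 := by
  induction s generalizing v with
  | nil => simp [mk] at hm
  | cons π s ih =>
    unfold mk at hm
    split_ifs at hm with hu
    · exact ih h.2 hm
    · rcases List.mem_cons.1 hm with rfl | hm
      · exact ⟨h.1, hu⟩
      · exact ih h.2 hm

theorem kn_of_mem (x : CS M) {m : SS × PP} (h : m ∈ mkA x) : KS M m.1 m.2 :=
  kn_of_mem_mk x.2.1 h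

/-- A chain without marks is a chain of unknotted blocks. -/
theorem uc_iff (h : GC M v s) : UC M v s ↔ mk v s = [] := by
  induction s generalizing v with
  | nil => exact ⟨fun _ => rfl, fun _ => h⟩
  | cons π s ih =>
    unfold mk
    constructor
    · rintro ⟨h1, h2⟩
      rw [if_pos h1.1.2]
      exact (ih h.2).1 h2
    · intro h1
      split_ifs at h1 with hu
      exact ⟨us_iff.2 ⟨h.1, hu⟩, (ih h.2).2 h1⟩

theorem gapOk_gaps (L : List ((SS → Prop) × PP)) : GapOk M (gaps M L) := by
  intro q hq v hv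
  obtain ⟨p, -, rfl⟩ := List.mem_map.1 hq
  exact ⟨hv.2.al, hv.2.al'⟩

theorem cN_append (c : ℕ → SS → ℝ≥0∞) (qs qs' : List ((SS → Prop) × SS)) :
    cN M y z c (qs ++ qs') = cN M y z (cN M y z c qs') qs := by
  induction qs with
  | nil => rfl
  | cons q qs ih =>
    rw [List.cons_append]
    unfold cN
    rw [ih]

/-! ### The chain in space -/

/-- The cap in space. -/
def fh (h : HS M) : HA := ⟨pr h.1, h.2.1, h.2.2.1⟩

/-- The chain in space. -/
def fg (x : CS M) : CA := ⟨(fh x.1.1, x.1.2.1, fh x.1.2.2), x.2.1.gc, by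
  show KTop.ed (pr x.1.1.1) x.1.2.1 = pr x.1.2.2.1
  rw [← pr_ed, x.2.2]⟩

theorem pol_fg (x : CS M) : KComp.pol (fg x) = pol x := rfl

theorem mkA_fg (x : CS M) : KComp.mkA (fg x) = (mkA x).map fun m => (pr m.1, m.2) :=
  (mk_map _ _).symm

theorem UH_fh (h : HS M) : KComp.UH (fh h) ↔ UH h := Iff.rfl

end Pool.Agent.KSC
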