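import Pool.Agent.KSC.Basic
import Pool.Agent.KAsym.RestB
import Pool.Agent.KCls.Basic

/-! SC12: the weights of all caps and of all words of knotted blocks in the slab.

PROOF. As `KComp/CapA.lean`. `cap_big`: for a cap `c : HS M` (`c.al`) `nr c.1 ≤ nrm (pr c.1) + 2 * M`, and for each displacement
`v` and each cap `l` over `v` there are at most `M + 1` states `x` with `pr x = v`, `Rg M x`; so the sum is at most
`(M + 1) * 1000 ^ (2 * M)` times the sum over the pairs `(v, l)`, `Flat v l`, with `1000 ^ nrm v`, which is the sum in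
`KComp.cap_big`; its proof uses only `0 < y`, `0 < z`, `z ≤ 10 ^ -12`, `y z ^ 2 ≤ 1` (copy it, with the private lemmas; the theorem
itself has the additional hypothesis of criticality). `cq_big`: sum over `n`, `w` of the definition of `cq`.
`knot_big`: `KCls.rest_geo'`: a knotted block is not basic (`KComp.Kn.not_bas`), and `nr (DD π) ≤ nh π` (each of
the horizontal steps changes one of the three coordinates by at most one), `80 ≤ 576`. `short_fin`, `knot_tail`: as in
`KComp/CapA.lean` (the words in `KW M` are words in `KComp.KW`, so `short_fin` follows from `KComp.short_fin`). -/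

set_option autoImplicit false

open Pool.Agent.LK
open scoped ENNReal

namespace Pool.Agent.KSC

open Pool.Agent.KTube Pool.Agent.KRing Pool.Agent.KLog

open Pool.Agent.KAsym (ln)

variable {M : ℕ} {y z : ℝ}

theorem cap_big (h : Cr M y z) :
    ∑' c : HS M, wc y z c * 2 ^ c.2.1.length * 1000 ^ nr c.1 ≠ ⊤ := by
  sorry

theorem cq_big (h : Cr M y z) (Q : HS M → Prop) :
    ∑' n : ℕ, ∑' w : SS, cq M y z Q n w * 2 ^ n * 1000 ^ nr w ≠ ⊤ := by
  sorry

theorem nr_DD_le {π : PP} (h : ∃ v, Geo v π) : nr (DD π) ≤ nh π := by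
  sorry

theorem knot_big (h : Cr M y z) : ∑' π : KW M, wt (ENNReal.ofReal y) (ENNReal.ofReal z) π.1 *
    2 ^ ln π.1 * 80 ^ nr (DD π.1) ≠ ⊤ := by
  sorry

theorem short_fin (M j : ℕ) : {π : KW M | ln π.1 ≤ j}.Finite := by
  sorry

theorem knot_tail (h : Cr M y z) {ε : ℝ≥0∞} (hε : ε ≠ 0) : ∃ j0 : ℕ, ∀ j ≥ j0,
    ∑' π : KW M, (if ln π.1 ≤ j then 0 else wt (ENNReal.ofReal y) (ENNReal.ofReal z) π.1 *
      2 ^ ln π.1 * 80 ^ nr (DD π.1)) ≤ ε := by
  sorry

end Pool.Agent.KSC
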