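import Pool.Agent.KSC.ChainL

/-! SC3: exponential estimate for the number of elements with the property `A` in the first part of a
chain.

PROOF. `l2_one`: `θ = 0` in `Tlt`. `mass_le`: `chain_l2` with `τ = 1`, `Λ = 1`, `c = 1` (the product of the tilts is `1`);
`∑' h, hw h ≤ ∑' h, hw h * 2 ^ hl h < ∞`.
`exp_pre`: `hA` gives `C`, `t` with `L2 (exp (θ ind A)) (exp (θ w + C θ²))` for `|θ| ≤ t`; take `C ≥ 0`. `chain_l2` with
`τ i v p = if i < j then exp (θ * ind A v p) else 1`, `Λ i = if i < j then exp (θ w + C θ²) else 1` (`l2_one`), `c = 1`: the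
product of the tilts is `exp (θ * occ A v (s.take (j - i)))` (induction, as `tp_eq` in `KAmp/ExpOcc.lean`), so
`∑ W exp (θ occ) ≤ B² exp (j (θ w + C θ²))`. On the set `occ - j w ≥ ε n` take `θ > 0`: the weight is at most
`B² exp (j θ w + C θ² j - θ (j w + ε n)) ≤ B² exp (C θ² n - θ ε n)` (`j ≤ m ≤ n`); on the set `occ - j w ≤ - ε n` take `- θ`. With
`C θ ≤ ε / 2`: `≤ B² exp (- θ ε n / 2)`. -/

set_option autoImplicit false

open scoped ENNReal

namespace Pool.Agent.KSC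

namespace Sy

variable {S P H : Type} [AddCommGroup S] {Y : Sy S P H} {ℓ w : ℝ}

theorem l2_one {φ : S → P → ℝ} {m : ℝ} (h : Y.Tlt φ m) : Y.L2 (fun _ _ => 1) 1 := by
  sorry

/-- The total weight of the chains with `m` elements. -/
theorem mass_le (hS : Y.Ok ℓ) : ∃ C : ℝ, ∀ m : ℕ,
    ∑' x : {x : Y.Ch // x.1.2.1.length = m}, Y.W x.1 ≤ ENNReal.ofReal C := by
  sorry

/-- **The initial segments.** -/
theorem exp_pre (hS : Y.Ok ℓ) {A : S → P → Prop} (hA : Y.Tlt (ind A) w) {ε : ℝ} (hε : 0 < ε) :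
    ∃ C c : ℝ, 0 < c ∧ ∀ n m j : ℕ, j ≤ m → m ≤ n →
      ∑' x : {x : Y.Ch // x.1.2.1.length = m ∧ ε * n ≤
        |(Y.occ A (Y.pos x.1.1) (x.1.2.1.take j) : ℝ) - j * w|},
        Y.W x.1 ≤ ENNReal.ofReal (C * Real.exp (-c * n)) := by
  sorry

end Sy

end Pool.Agent.KSC
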