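import Pool.Agent.KSC.ExpLen
import Pool.Agent.KSC.ExpPre

/-! SC4: exceptional sets of chains and means.

PROOF. Adapt `KAmp/Lln.lean` (`sum_fin`, `exp_bad`, `mean_lim`, `bad_len`, with the private lemmas there) and
`KComp/TupX.lean` (`Sml`, `Sml.mono`, `Sml.or`, `bad_union`, `bad_small`, `bad_len'`, `bad_pre`): they are the same statements
for systems with positions in `ℤ × ℤ`; only `exp_len`, `exp_pre`, `mass_le`, `two_length_le` of this folder are used. In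
`sml_len`: `exp_len` with `ε` and: `|m - n / ℓ| = |n - m ℓ| / ℓ ≤ |n - m ℓ|` (`1 ≤ ℓ`). -/

set_option autoImplicit false

open Filter Topology
open scoped ENNReal

namespace Pool.Agent.KSC

namespace Sy

variable {S P H : Type} [AddCommGroup S] {Y : Sy S P H} {ℓ w : ℝ}

/-- The set of chains (depending on the length) is exponentially small. -/
def Sml (Y : Sy S P H) (B : ℕ → Y.Ch → Prop) : Prop := ∃ C c : ℝ, 0 < c ∧ ∀ n : ℕ,
  ∑' x : {x : Y.Ch // Y.len x = n ∧ B n x}, Y.W x.1 ≤ ENNReal.ofReal (C * Real.exp (-c * n))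

theorem occ_le (A : S → P → Prop) (v : S) (s : List P) : Y.occ A v s ≤ s.length := by
  sorry

theorem sum_fin (hS : Y.Ok ℓ) (n : ℕ) {F : Y.Ch → ℝ≥0∞} {C : ℝ}
    (hF : ∀ x, F x ≤ ENNReal.ofReal C) : Y.sum n F ≠ ⊤ := by
  sorry

theorem Sml.mono {B B' : ℕ → Y.Ch → Prop} (h : Sml Y B')
    (hB : ∀ n x, Y.len x = n → B n x → B' n x) : Sml Y B := by
  sorry

theorem Sml.or {B B' : ℕ → Y.Ch → Prop} (h : Sml Y B) (h' : Sml Y B') :
    Sml Y fun n x => B n x ∨ B' n x := by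
  sorry

theorem sml_union {ι : Type} (I : Finset ι) {B : ι → ℕ → Y.Ch → Prop}
    (h : ∀ i ∈ I, Sml Y (B i)) : Sml Y fun n x => ∃ i ∈ I, B i n x := by
  sorry

theorem sml_small (hS : Y.Ok ℓ) (n1 : ℕ) : Sml Y fun n _ => n < n1 := by
  sorry

theorem sml_len (hS : Y.Ok ℓ) {ε : ℝ} (hε : 0 < ε) :
    Sml Y fun n x => ε * n ≤ |(x.1.2.1.length : ℝ) - 1 / ℓ * n| := by
  sorry

theorem sml_pre (hS : Y.Ok ℓ) {A : S → P → Prop} (hA : Y.Tlt (ind A) w) {ε : ℝ} (hε : 0 < ε) :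
    Sml Y fun n x => ∃ j ≤ x.1.2.1.length, ε * n ≤
      |(Y.occ A (Y.pos x.1.1) (x.1.2.1.take j) : ℝ) - j * w| := by
  sorry

/-- If a quantity is close to a constant up to exceptional chains then its mean converges. -/
theorem mean_lim (hS : Y.Ok ℓ) (hG : Y.Gr) {X : Y.Ch → ℝ} (h0 : ∀ x, 0 ≤ X x)
    (hX : ∀ x, X x ≤ Y.len x) {L : ℝ}
    (h : ∀ ε : ℝ, 0 < ε → Sml Y fun n x => ε * n ≤ |X x - L * n|) :
    Tendsto (fun k : ℕ => (Y.sum (2 * k) fun x => ENNReal.ofReal (X x)).toReal /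
      (((2 * k : ℕ) : ℝ) * (Y.tot (2 * k)).toReal)) atTop (𝓝 L) := by
  sorry

end Sy

end Pool.Agent.KSC
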