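import Pool.Agent.KSC.Basic
import Pool.Agent.KSC.Sml

/-! SC13: the total weight of the chains of length `n` does not vary too much.

PROOF. `Bd.fin`: `sum_fin` with `F = 1`. `Bd.gr`: `h.poly`: `tot (2k) ≥ c / 2 * (2k) ^ (-3/2) ≥ exp (- δ k)` for large `k`.
`tot_b`: as `tot_b_real` in `KComp/TotB.lean` with `f n = n ^ (3/2)` instead of `n log² n`: let `c` be the limit in `h.poly`; choose an
even `n1 ≥ 100` such that `c / 2 ≤ tot n * f n ≤ 2 c` for even `n ≥ n1`. `f (n + 1) ≤ 2 f n`, and `f` is increasing. Let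
`n ≥ n0` be even. For even `n' ≥ n`: `tot n' ≤ 2 c / f n' ≤ 4 tot n`. For even `n1 ≤ n' < n`: `f n ≤ 2 ^ (n - n') f n'`, so
`tot n' ≤ 2 c / f n' ≤ 4 * 2 ^ (n - n') tot n`. For `n' < n1`: `tot n' ≤ C0` and `2 ^ (n - n1) tot n ≥ c / 2` for `n ≥ n0`, if `n0` is
large. For odd `n'`: `0` (`h.odd`). `nT_shift`: by `h.poly` for `2 k` and `2 k + a - b = 2 (k + (a - b) / 2)`; if `a - b` (as an
integer) is even. -/

set_option autoImplicit false

open Pool.Agent.LK
open Filter Topology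
open scoped ENNReal

namespace Pool.Agent.KSC

open Pool.Agent.KTube Pool.Agent.KRing Pool.Agent.KLog

variable {M : ℕ} {y z ℓ : ℝ}

private noncomputable def ff (n : ℕ) : ℝ := (n : ℝ) ^ (3 / 2 : ℝ)

private theorem ff_nonneg (n : ℕ) : 0 ≤ ff n := Real.rpow_nonneg (Nat.cast_nonneg n) _

private theorem ff_mono {m n : ℕ} (_hm : 1 ≤ m) (h : m ≤ n) : ff m ≤ ff n :=
  Real.rpow_le_rpow (Nat.cast_nonneg m) (by exact_mod_cast h) (by norm_num)

private theorem ff_pos {n : ℕ} (hn : 2 ≤ n) : 0 < ff n := by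
  have h1 : (0 : ℝ) < n := by
    have : 0 < n := by omega
    exact_mod_cast this
  exact Real.rpow_pos_of_pos h1 _

private theorem ff_le_cube (n : ℕ) : ff n ≤ (n : ℝ) ^ 3 := by
  unfold ff
  rcases Nat.eq_zero_or_pos n with rfl | hn
  · rw [Nat.cast_zero, Real.zero_rpow (by norm_num)]
    norm_num
  have h1 : (1 : ℝ) ≤ n := by exact_mod_cast hn
  rw [← Real.rpow_natCast]
  exact Real.rpow_le_rpow_of_exponent_le h1 (by norm_num)

private theorem ff_succ {n : ℕ} (hn : 100 ≤ n) : ff (n + 1) ≤ 2 * ff n := by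
  have h1 : (100 : ℝ) ≤ n := by exact_mod_cast hn
  have h5 : ((n + 1 : ℕ) : ℝ) ≤ 1.01 * n := by
    push_cast
    linarith
  unfold ff
  calc ((n + 1 : ℕ) : ℝ) ^ (3 / 2 : ℝ) ≤ (1.01 * n) ^ (3 / 2 : ℝ) :=
        Real.rpow_le_rpow (Nat.cast_nonneg _) h5 (by norm_num)
    _ = 1.01 ^ (3 / 2 : ℝ) * (n : ℝ) ^ (3 / 2 : ℝ) := Real.mul_rpow (by norm_num) (by linarith)
    _ ≤ 2 * (n : ℝ) ^ (3 / 2 : ℝ) := by
      refine mul_le_mul_of_nonneg_right ?_ (Real.rpow_nonneg (by linarith) _)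
      calc (1.01 : ℝ) ^ (3 / 2 : ℝ) ≤ 1.01 ^ (2 : ℝ) :=
            Real.rpow_le_rpow_of_exponent_le (by norm_num) (by norm_num)
        _ ≤ 2 := by
          rw [show (2 : ℝ) = ((2 : ℕ) : ℝ) by norm_num, Real.rpow_natCast]
          norm_num

private theorem ff_two_pow {m : ℕ} (hm : 100 ≤ m) (k : ℕ) : ff (m + k) ≤ 2 ^ k * ff m := by
  induction k with
  | zero => simp
  | succ k ih =>
    calc ff (m + (k + 1)) = ff (m + k + 1) := by rw [add_assoc]
      _ ≤ 2 * ff (m + k) := ff_succ (by omega)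
      _ ≤ 2 * (2 ^ k * ff m) := by gcongr
      _ = 2 ^ (k + 1) * ff m := by ring

/-- The comparison for real sequences. -/
private theorem tot_b_real {a : ℕ → ℝ} (ha : ∀ n, 0 ≤ a n) (hodd : ∀ n, Odd n → a n = 0)
    {c : ℝ} (hc : 0 < c) (hlim : Tendsto (fun k : ℕ => a (2 * k) * ff (2 * k)) atTop (𝓝 c)) :
    ∃ C : ℝ, 0 ≤ C ∧ ∃ n0 : ℕ, ∀ n ≥ n0, Even n → 0 < a n ∧
      ∀ n' : ℕ, a n' ≤ C * 2 ^ (n - n') * a n := by
  have h1 : ∀ᶠ k : ℕ in atTop, c / 2 ≤ a (2 * k) * ff (2 * k) ∧ a (2 * k) * ff (2 * k) ≤ 2 * c :=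
    (hlim.eventually (le_mem_nhds (by linarith : c / 2 < c))).and
      (hlim.eventually (ge_mem_nhds (by linarith : c < 2 * c)))
  obtain ⟨k1, hk1⟩ := eventually_atTop.1 h1
  set n1 : ℕ := 2 * max k1 50 with hn1
  have hn100 : 100 ≤ n1 := by omega
  have hb : ∀ n : ℕ, n1 ≤ n → Even n → c / 2 ≤ a n * ff n ∧ a n * ff n ≤ 2 * c := by
    intro n hn he
    obtain ⟨k, hk⟩ := even_iff_two_dvd.1 he
    rw [hk]
    exact hk1 k (by omega)
  -- `f n ≤ 2 ^ (n - n1)`
  have h2 : Tendsto (fun n : ℕ => (n : ℝ) ^ 3 / 2 ^ n) atTop (𝓝 0) :=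
    tendsto_pow_const_div_const_pow_of_one_lt 3 (by norm_num)
  obtain ⟨n2, hn2⟩ := eventually_atTop.1 (h2.eventually
    (ge_mem_nhds (by positivity : (0 : ℝ) < 1 / 2 ^ n1)))
  set C0 : ℝ := ∑ i ∈ Finset.range n1, a i with hC0
  have hC0n : 0 ≤ C0 := Finset.sum_nonneg fun i _ => ha i
  have hC0a : ∀ i < n1, a i ≤ C0 := fun i hi =>
    Finset.single_le_sum (f := a) (fun j _ => ha j) (Finset.mem_range.2 hi)
  refine ⟨4 + 2 * C0 / c, by positivity, max n1 n2, fun n hn he => ?_⟩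
  have hnn1 : n1 ≤ n := le_trans (le_max_left _ _) hn
  have hnn2 : n2 ≤ n := le_trans (le_max_right _ _) hn
  obtain ⟨hl, hu⟩ := hb n hnn1 he
  have hfn : 0 < ff n := ff_pos (by omega)
  have han : 0 < a n := by
    by_contra hcon
    have : a n = 0 := le_antisymm (not_lt.1 hcon) (ha n)
    rw [this, zero_mul] at hl
    linarith
  refine ⟨han, fun n' => ?_⟩
  have hp : (0 : ℝ) < 2 ^ (n - n') := by positivity
  have hC4 : 4 * 2 ^ (n - n') * a n ≤ (4 + 2 * C0 / c) * 2 ^ (n - n') * a n := by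
    have : 0 ≤ 2 * C0 / c * 2 ^ (n - n') * a n := by positivity
    linarith [this, (by ring : (4 + 2 * C0 / c) * 2 ^ (n - n') * a n =
      4 * 2 ^ (n - n') * a n + 2 * C0 / c * 2 ^ (n - n') * a n)]
  rcases Nat.even_or_odd n' with he' | ho'
  · rcases lt_or_ge n' n1 with h3 | h3
    · -- small
      have h4 : ff n ≤ 2 ^ (n - n1) := by
        have h5 := hn2 n hnn2
        rw [div_le_div_iff₀ (by positivity) (by positivity), one_mul] at h5
        have h6 : (2 : ℝ) ^ n = 2 ^ (n - n1) * 2 ^ n1 := by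
          rw [← pow_add]
          congr 1
          omega
        rw [h6] at h5
        exact (ff_le_cube n).trans (le_of_mul_le_mul_right h5 (by positivity))
      have h5 : (2 : ℝ) ^ (n - n1) ≤ 2 ^ (n - n') :=
        pow_le_pow_right₀ (by norm_num) (by omega)
      have h6 : c / 2 ≤ 2 ^ (n - n') * a n := by
        calc c / 2 ≤ a n * ff n := hl
          _ ≤ a n * 2 ^ (n - n') := by
            exact mul_le_mul_of_nonneg_left (h4.trans h5) han.le
          _ = _ := mul_comm _ _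
      calc a n' ≤ C0 := hC0a n' h3
        _ = 2 * C0 / c * (c / 2) := by
          field_simp
        _ ≤ 2 * C0 / c * (2 ^ (n - n') * a n) := by
          exact mul_le_mul_of_nonneg_left h6 (by positivity)
        _ ≤ (4 + 2 * C0 / c) * 2 ^ (n - n') * a n := by
          have : 0 ≤ 4 * 2 ^ (n - n') * a n := by positivity
          nlinarith [this]
    · obtain ⟨-, hu'⟩ := hb n' h3 he'
      have hfn' : 0 < ff n' := ff_pos (by omega)
      -- `f n ≤ 2^(n-n') f n'`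
      have h4 : ff n ≤ 2 ^ (n - n') * ff n' := by
        rcases le_total n' n with h5 | h5
        · have h6 := ff_two_pow (m := n') (by omega) (n - n')
          rwa [Nat.add_sub_cancel' h5] at h6
        · rw [Nat.sub_eq_zero_of_le h5, pow_zero, one_mul]
          exact ff_mono (by omega) h5
      refine le_trans ?_ hC4
      -- `a n' f n' ≤ 2c ≤ 4 a n f n ≤ 4 a n 2^.. f n'`
      refine le_of_mul_le_mul_right ?_ hfn'
      calc a n' * ff n' ≤ 2 * c := hu'
        _ ≤ 4 * (a n * ff n) := by linarith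
        _ ≤ 4 * (a n * (2 ^ (n - n') * ff n')) := by gcongr
        _ = 4 * 2 ^ (n - n') * a n * ff n' := by ring
  · rw [hodd n' ho']
    positivity

theorem Bd.fin (h : Bd M y z ℓ) (n : ℕ) : (sys M y z).tot n ≠ ⊤ := by
  exact Sy.sum_fin h.ok n (C := 1) fun x => by simp

theorem Bd.gr (h : Bd M y z ℓ) : (sys M y z).Gr := by
  intro δ hδ
  obtain ⟨c, hc, hlim⟩ := h.poly
  have h1 : Tendsto (fun k : ℕ => δ * (k : ℝ)) atTop atTop :=
    tendsto_natCast_atTop_atTop.const_mul_atTop hδ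
  have h2 := (Real.tendsto_pow_mul_exp_neg_atTop_nhds_zero 3).comp h1
  have h3 := h2.const_mul ((2 / δ) ^ 3)
  rw [mul_zero] at h3
  have h4 := h3.eventually (ge_mem_nhds (by linarith : (0 : ℝ) < c / 2))
  have h5 := hlim.eventually (le_mem_nhds (by linarith : c / 2 < c))
  filter_upwards [h4, h5, eventually_ge_atTop 1] with k hk4 hk5 hk1
  rw [← ENNReal.ofReal_toReal (h.fin (2 * k))]
  refine ENNReal.ofReal_le_ofReal ?_
  have hf : 0 < ff (2 * k) := ff_pos (by omega)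
  refine le_of_mul_le_mul_right ?_ hf
  calc Real.exp (-δ * k) * ff (2 * k) ≤ Real.exp (-δ * k) * (((2 * k : ℕ) : ℝ)) ^ 3 :=
        mul_le_mul_of_nonneg_left (ff_le_cube _) (Real.exp_pos _).le
    _ = (2 / δ) ^ 3 * ((δ * k) ^ 3 * Real.exp (-(δ * k))) := by
      push_cast
      rw [neg_mul]
      field_simp
    _ ≤ c / 2 := hk4
    _ ≤ ((sys M y z).tot (2 * k)).toReal * ff (2 * k) := hk5

/-- SC13. -/
theorem tot_b (h : Bd M y z ℓ) : ∃ C : ℝ≥0∞, C ≠ ⊤ ∧ ∃ n0 : ℕ, ∀ n ≥ n0, Even n →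
    (sys M y z).tot n ≠ 0 ∧
      ∀ n' : ℕ, (sys M y z).tot n' ≤ C * 2 ^ (n - n') * (sys M y z).tot n := by
  obtain ⟨c, hc, hlim⟩ := h.poly
  obtain ⟨C, hC, n0, hn0⟩ := tot_b_real (a := fun n => ((sys M y z).tot n).toReal)
    (fun n => ENNReal.toReal_nonneg) (fun n hn => by
      rw [h.odd n hn, ENNReal.toReal_zero]) hc hlim
  refine ⟨ENNReal.ofReal C, ENNReal.ofReal_ne_top, n0, fun n hn he => ?_⟩
  obtain ⟨h1, h2⟩ := hn0 n hn he
  refine ⟨?_, fun n' => ?_⟩
  · intro h0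
    simp only [h0, ENNReal.toReal_zero] at h1
    exact lt_irrefl _ h1
  · rw [← ENNReal.ofReal_toReal (h.fin n'), ← ENNReal.ofReal_toReal (h.fin n)]
    have h3 : (2 : ℝ≥0∞) ^ (n - n') = ENNReal.ofReal (2 ^ (n - n')) := by
      rw [ENNReal.ofReal_pow (by norm_num)]
      norm_num
    rw [h3, ← ENNReal.ofReal_mul hC, ← ENNReal.ofReal_mul (by positivity)]
    exact ENNReal.ofReal_le_ofReal (h2 n')

/-- The number of points times the total weight. -/
noncomputable def nT (M : ℕ) (y z : ℝ) (n : ℕ) : ℝ := (n : ℝ) * ((sys M y z).tot n).toReal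

theorem nT_shift (h : Bd M y z ℓ) {a b : ℕ} (hab : Even (a + b)) :
    Tendsto (fun k : ℕ => nT M y z (2 * k + a - b) / nT M y z (2 * k)) atTop (𝓝 1) := by
  obtain ⟨c, hc, hlim⟩ := h.poly
  have hG : ∀ k : ℕ, ((sys M y z).tot (2 * k)).toReal * ((2 * k : ℕ) : ℝ) ^ (3 / 2 : ℝ) =
      nT M y z (2 * k) * Real.sqrt ((2 * k : ℕ) : ℝ) := by
    intro k
    have h1 : ((2 * k : ℕ) : ℝ) ^ (3 / 2 : ℝ) =
        ((2 * k : ℕ) : ℝ) * Real.sqrt ((2 * k : ℕ) : ℝ) := by
      rw [Real.sqrt_eq_rpow]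
      have h2 : (3 / 2 : ℝ) = 1 + 1 / 2 := by norm_num
      rw [h2, Real.rpow_add_of_nonneg (Nat.cast_nonneg _) (by norm_num) (by norm_num),
        Real.rpow_one]
    rw [h1, nT]
    ring
  have hlim' : Tendsto (fun k : ℕ => nT M y z (2 * k) * Real.sqrt ((2 * k : ℕ) : ℝ)) atTop
      (𝓝 c) := hlim.congr hG
  have hk : Tendsto (fun k : ℕ => (2 * k + a - b) / 2) atTop atTop :=
    tendsto_atTop_mono (fun k => by omega : ∀ k, k - b ≤ (2 * k + a - b) / 2)
      (tendsto_sub_atTop_nat b)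
  have h1 := (hlim'.comp hk).div hlim' hc.ne'
  rw [div_self hc.ne'] at h1
  -- the quotient of the lengths
  have h2 : Tendsto (fun k : ℕ => 1 + (((a : ℝ) - b) / 2) / k) atTop (𝓝 (1 + 0)) :=
    (tendsto_const_div_atTop_nhds_zero_nat _).const_add 1
  rw [add_zero] at h2
  have h3 := (Real.continuous_sqrt.tendsto 1).comp h2
  rw [Real.sqrt_one] at h3
  have h4 := h1.div h3 one_ne_zero
  rw [div_one] at h4
  refine h4.congr' ?_
  have hpos := hlim'.eventually (lt_mem_nhds hc)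
  filter_upwards [hpos, eventually_ge_atTop (b + 1)] with k hk1 hk2
  have he : 2 * ((2 * k + a - b) / 2) = 2 * k + a - b := by
    obtain ⟨u, hu⟩ := hab
    omega
  have hk0 : (0 : ℝ) < k := by
    have : 0 < k := by omega
    exact_mod_cast this
  have hc1 : ((2 * k + a - b : ℕ) : ℝ) = 2 * k + a - b := by
    rw [Nat.cast_sub (by omega)]
    push_cast
    ring
  have hc2 : (0 : ℝ) < ((2 * k + a - b : ℕ) : ℝ) := by
    have : 0 < 2 * k + a - b := by omega
    exact_mod_cast this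
  have hs : Real.sqrt ((2 * k + a - b : ℕ) : ℝ) =
      Real.sqrt ((2 * k : ℕ) : ℝ) * Real.sqrt (1 + (((a : ℝ) - b) / 2) / k) := by
    rw [← Real.sqrt_mul (Nat.cast_nonneg _), hc1]
    congr 1
    push_cast
    field_simp
    ring
  have hs1 : 0 < Real.sqrt ((2 * k : ℕ) : ℝ) := Real.sqrt_pos.2 (by
    push_cast
    linarith)
  have hs2 : 0 < Real.sqrt ((2 * k + a - b : ℕ) : ℝ) := Real.sqrt_pos.2 hc2
  have hs3 : Real.sqrt (1 + (((a : ℝ) - b) / 2) / k) ≠ 0 := by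
    intro h0
    rw [h0, mul_zero] at hs
    exact hs2.ne' hs
  have hn : nT M y z (2 * k) ≠ 0 := by
    intro h0
    rw [h0, zero_mul] at hk1
    exact lt_irrefl _ hk1
  simp only [Pi.div_apply, Function.comp_apply]
  rw [he, hs]
  generalize Real.sqrt (1 + (((a : ℝ) - b) / 2) / k) = w at hs3 ⊢
  field_simp

end Pool.Agent.KSC
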