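import Pool.Agent.KSC.Nest
import Pool.Agent.KSC.TotB
import Pool.Agent.KSC.CapA

/-! SC14: the weight of the chains of unknotted blocks between arbitrary caps.

PROOF. As `KComp/BoundN.lean`. `tq_nil`: `v0 = (1, 0, 0)`, possible since `pr v0 ≠ 0`; `l0` an unknotted cap over `v0` in the
slab: the straight cap `KRing.capL = [(1, 0, 0), (0, 0, 0)]` (`lower_capL`, `LC_capL` for the class `Unknotted`, or
`exists_flat`; its points have the height `0`), `b0 = wc l0 ≠ 0`. Write `TQ True [] m` as the sum over `(w, w')` and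
`(i, j, k)` with `i + j + k = m` of `cq i w * KN j w w' * cq k w'`; here `w`, `w'` are possible (otherwise `cq = 0`, `HS.al`). By
`kn_pre` (from `v0` to `w`, `u = w - v0`) and `kn_app` (from `w'` to `v0`, `u' = v0 - w'`):
`KN j w w' ≤ 40 ^ (mm u + mm u') * KN (j + lam u + lam u') v0 v0`, and `b0 ^ 2 * KN j' v0 v0 ≤ tot (j' + 2 * length l0)` (the
chains `(l0, s, l0)`; injective in `s`). By `tot_b`, with `n' = j + lam u + lam u' + 2 * length l0`,
`n - n' ≤ n - j ≤ a + i + k`, this is `≤ C * 2 ^ (a + i + k) * tot n`. And `mm u ≤ nr w + 5`, so the sum is at most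
`b0⁻² * C * 40 ^ 10 * 2 ^ a * tot n * (∑' i, ∑' w, cq i w * 2 ^ i * 40 ^ nr w) ^ 2 < ∞` (`cq_big`). -/

set_option autoImplicit false

open Pool.Agent.LK
open scoped ENNReal

namespace Pool.Agent.KSC

open Pool.Agent.KTube Pool.Agent.KRing Pool.Agent.KLog

open Pool.Agent.KAsym (ln)
open Pool.Agent.KComp (ww)
open Pool.Agent.LatticeTube (pedges mem_of_mem_pedges)

variable {M : ℕ} {y z ℓ : ℝ}

/-- A cap over the state `(1, 0, 0)`. -/
theorem exists_cap (M : ℕ) : ∃ c : HS M, UH c ∧ c.1 = (1, 0, 0) := by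
  have hne : ((0, 0) : ℤ × ℤ) ≠ (1, 0) := by simp
  have hP := (ring_of hne KRing.upper_capU KRing.lower_capL).isPolygon
  have hLU : LU 0 (0, 0) (1, 0) KRing.capL :=
    ⟨hne, KRing.lower_capL, KRing.capU, KRing.upper_capU, ((unknotted_iff hP
      (isTwo_ring_of hne KRing.upper_capU KRing.lower_capL)).1 KRing.unknotted_caps).1⟩
  have hn : nsec KRing.capL = 0 := by
    have h1 : {j : ℤ | {c : ℤ × ℤ | leg c j ∈ pedges KRing.capL}.ncard = 2} = ∅ := by
      rw [Set.eq_empty_iff_forall_notMem]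
      intro j hj
      have h2 : {c : ℤ × ℤ | leg c j ∈ pedges KRing.capL} = ∅ := by
        rw [Set.eq_empty_iff_forall_notMem]
        intro c hc
        have hc' : leg c j ∈ pedges KRing.capL := hc
        have h3 := (mem_of_mem_pedges hc').1
        have h4 := (mem_of_mem_pedges hc').2
        simp only [KRing.capL, List.mem_cons, Prod.mk.injEq, List.not_mem_nil, or_false] at h3 h4
        omega
      rw [Set.mem_ofPred_eq, h2, Set.ncard_empty] at hj
      omega
    rw [nsec, h1, Set.ncard_empty]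
  refine ⟨⟨(1, 0, 0), KRing.capL, ⟨hne, KRing.lower_capL, hn⟩, ?_⟩, hLU, rfl⟩
  intro p hp
  simp only [KRing.capL, List.mem_cons, List.not_mem_nil, or_false] at hp
  rcases hp with rfl | rfl <;> simp

theorem cq_mono {Q Q' : HS M → Prop} (h : ∀ c, Q c → Q' c) (n : ℕ) (w : SS) :
    cq M y z Q n w ≤ cq M y z Q' n w := by
  unfold cq
  refine ENNReal.tsum_le_tsum fun r => ?_
  by_cases h1 : Q r ∧ r.1 = w ∧ r.2.1.length = n
  · rw [if_pos h1, if_pos ⟨h r h1.1, h1.2⟩]
  · rw [if_neg h1]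
    exact zero_le

private theorem cn_mono {c c' : ℕ → SS → ℝ≥0∞} (h : ∀ n w, c n w ≤ c' n w)
    {qs qs' : List ((SS → Prop) × SS)}
    (hqs : List.Forall₂ (fun q q' => (∀ v, q.1 v → q'.1 v) ∧ q.2 = q'.2) qs qs') :
    ∀ (n : ℕ) (w : SS), cN M y z c qs n w ≤ cN M y z c' qs' n w := by
  induction hqs with
  | nil => exact h
  | @cons q q' l l' hq _ ih =>
    intro n w
    unfold cN
    by_cases h1 : q.1 w
    · rw [if_pos h1, if_pos (hq.1 w h1), hq.2]
      exact fc_mono ih n _
    · rw [if_neg h1]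
      exact zero_le

theorem tq_mono {Q Q' : HS M → Prop} (h : ∀ c, Q c → Q' c)
    {qs qs' : List ((SS → Prop) × SS)}
    (hqs : List.Forall₂ (fun q q' => (∀ v, q.1 v → q'.1 v) ∧ q.2 = q'.2) qs qs') (n : ℕ) :
    TQ M y z Q qs n ≤ TQ M y z Q' qs' n := by
  unfold TQ
  refine ENNReal.tsum_le_tsum fun w => Finset.sum_le_sum fun p _ => ?_
  exact mul_le_mul' (cq_mono h _ _) (fc_mono (cn_mono (cq_mono h) hqs) _ _)

private theorem sum_fst (g : ℕ → ℝ≥0∞) (m : ℕ) :
    ∑ p ∈ Finset.HasAntidiagonal.antidiagonal m, g p.1 ≤ ∑' i, g i := by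
  have h1 : ∑ p ∈ Finset.HasAntidiagonal.antidiagonal m, g p.1 =
      ∑ i ∈ (Finset.HasAntidiagonal.antidiagonal m).image Prod.fst, g i := by
    refine (Finset.sum_image fun p hp q hq hpq => ?_).symm
    have h2 := Finset.HasAntidiagonal.mem_antidiagonal.1 (Finset.mem_coe.1 hp)
    have h3 := Finset.HasAntidiagonal.mem_antidiagonal.1 (Finset.mem_coe.1 hq)
    ext
    · exact hpq
    · omega
  rw [h1]
  exact ENNReal.sum_le_tsum _

private theorem sum_snd (g : ℕ → ℝ≥0∞) (m : ℕ) :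
    ∑ p ∈ Finset.HasAntidiagonal.antidiagonal m, g p.2 ≤ ∑' i, g i := by
  have h1 : ∑ p ∈ Finset.HasAntidiagonal.antidiagonal m, g p.2 =
      ∑ i ∈ (Finset.HasAntidiagonal.antidiagonal m).image Prod.snd, g i := by
    refine (Finset.sum_image fun p hp q hq hpq => ?_).symm
    have h2 := Finset.HasAntidiagonal.mem_antidiagonal.1 (Finset.mem_coe.1 hp)
    have h3 := Finset.HasAntidiagonal.mem_antidiagonal.1 (Finset.mem_coe.1 hq)
    ext
    · omega
    · exact hpq
  rw [h1]
  exact ENNReal.sum_le_tsum _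

private theorem cq_al {Q : HS M → Prop} {n : ℕ} {w : SS} (h : cq M y z Q n w ≠ 0) : Al M w := by
  by_contra h0
  apply h
  unfold cq
  rw [ENNReal.tsum_eq_zero]
  intro r
  rw [if_neg]
  rintro ⟨-, h1, -⟩
  exact h0 (h1 ▸ r.al)

private theorem vc_of_uc {v : SS} {s : List PP} (h : UC M v s) : (sys M y z).VC v s := by
  induction s generalizing v with
  | nil => trivial
  | cons π s ih => exact ⟨h.1, ih h.2⟩

/-- The chains between two copies of one cap. -/
private theorem kn_le_tot (c : HS M) (hc : UH c) {v : SS} (hv : v = c.1) {L : ℕ}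
    (hL : L = c.2.1.length) (j : ℕ) :
    wc y z c ^ 2 * KN M y z j v v ≤ (sys M y z).tot (j + 2 * L) := by
  subst hv hL
  have h1 : KN M y z j c.1 c.1 =
      ∑' s : {s : List PP // UC M c.1 s ∧ ed c.1 s = c.1 ∧ (s.map ln).sum = j}, ww y z s.1 := by
    unfold KN
    classical
    rw [← tsum_subtype_eq_of_support_subset
      (s := {s : List PP | UC M c.1 s ∧ ed c.1 s = c.1 ∧ (s.map ln).sum = j})]
    · refine tsum_congr fun s => ?_
      exact if_pos s.2
    · intro s hs
      by_contra h2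
      exact hs (if_neg h2)
  rw [h1, ← ENNReal.tsum_mul_left]
  unfold Sy.tot Sy.sum
  let e : {s : List PP // UC M c.1 s ∧ ed c.1 s = c.1 ∧ (s.map ln).sum = j} →
      {x : (sys M y z).Ch // (sys M y z).len x = j + 2 * c.2.1.length} := fun s =>
    ⟨⟨(⟨c, hc⟩, s.1, ⟨c, hc⟩), vc_of_uc s.2.1, s.2.2.1⟩, by
      have h3 := s.2.2.2
      change c.2.1.length + (s.1.map ln).sum + c.2.1.length = _
      omega⟩
  have he : Function.Injective e := by
    intro s t hst
    have h4 := congrArg (fun x => x.1.1.2.1) hst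
    exact Subtype.ext h4
  refine le_trans (ENNReal.tsum_le_tsum fun s => ?_)
    (ENNReal.tsum_comp_le_tsum_of_injective he _)
  have h5 : (sys M y z).W (e s).1 = wc y z c * ww y z s.1 * wc y z c := rfl
  rw [h5, mul_one]
  apply le_of_eq
  ring

theorem tq_nil (h : Bd M y z ℓ) : ∃ C : ℝ≥0∞, C ≠ ⊤ ∧ ∃ n0 : ℕ, ∀ n ≥ n0, Even n →
    ∀ m a : ℕ, n ≤ m + a → TQ M y z (fun _ => True) [] m ≤ C * 2 ^ a * (sys M y z).tot n := by
  obtain ⟨c0, hc0, hc1⟩ := exists_cap M
  obtain ⟨v0, hv0d⟩ : ∃ v0, v0 = c0.1 := ⟨_, rfl⟩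
  have hv0 : Al M v0 := hv0d ▸ c0.al
  have hv1 : v0 = (1, 0, 0) := by rw [hv0d, hc1]
  obtain ⟨L0, hL0⟩ : ∃ L0, L0 = c0.2.1.length := ⟨_, rfl⟩
  obtain ⟨b, hb⟩ : ∃ b, b = wc y z c0 ^ 2 := ⟨_, rfl⟩
  have hy0 : ENNReal.ofReal y ≠ 0 := (ENNReal.ofReal_pos.2 h.cr.y_pos).ne'
  have hz0 : ENNReal.ofReal z ≠ 0 := (ENNReal.ofReal_pos.2 h.cr.z_pos).ne'
  have hb0 : b ≠ 0 := by
    rw [hb, wc, wl]
    exact pow_ne_zero _ (mul_ne_zero (pow_ne_zero _ hy0) (pow_ne_zero _ hz0))
  have hbt : b ≠ ⊤ := by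
    rw [hb, wc, wl]
    exact ENNReal.pow_ne_top (ENNReal.mul_ne_top (ENNReal.pow_ne_top ENNReal.ofReal_ne_top)
      (ENNReal.pow_ne_top ENNReal.ofReal_ne_top))
  obtain ⟨C, hC, n0, hn0⟩ := tot_b h
  set g : ℕ → SS → ℝ≥0∞ := fun i w => cq M y z (fun _ => True) i w * 2 ^ i * 1000 ^ nr w with hg
  obtain ⟨S, hS⟩ : ∃ S : ℝ≥0∞, S = ∑' i, ∑' w, g i w := ⟨_, rfl⟩
  have hSt : S ≠ ⊤ := by
    rw [hS]
    exact cq_big h.cr _
  refine ⟨S * (S * (40 ^ 10 * b⁻¹ * C)), ?_, n0, fun n hn hev m a hma => ?_⟩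
  · refine ENNReal.mul_ne_top hSt (ENNReal.mul_ne_top hSt (ENNReal.mul_ne_top
      (ENNReal.mul_ne_top (ENNReal.pow_ne_top (by norm_num)) (ENNReal.inv_ne_top.2 hb0)) hC))
  obtain ⟨-, htot⟩ := hn0 n hn hev
  obtain ⟨D, hD⟩ : ∃ D : ℝ≥0∞, D = 40 ^ 10 * b⁻¹ * C * 2 ^ a * (sys M y z).tot n := ⟨_, rfl⟩
  -- the bound of one term
  have key : ∀ (i j k : ℕ) (w w' : SS), i + (j + k) = m →
      cq M y z (fun _ => True) i w * (KN M y z j w w' * cq M y z (fun _ => True) k w') ≤
        g i w * (g k w' * D) := by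
    intro i j k w w' hm
    by_cases hi : cq M y z (fun _ => True) i w = 0
    · rw [hi, zero_mul]
      exact zero_le
    by_cases hk : cq M y z (fun _ => True) k w' = 0
    · rw [hk, mul_zero, mul_zero]
      exact zero_le
    have hw := cq_al hi
    have hw' := cq_al hk
    have e1 : v0 + (w - v0) = w := by abel
    have e2 : w' + (v0 - w') = v0 := by abel
    have k1 := kn_pre h.cr (v := v0) (u := w - v0) hv0 (by rw [e1]; exact hw) j w'
    have k2 := kn_app h.cr (w := w') (u := v0 - w') hw' (by rw [e2]; exact hv0)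
      (j + lam z (w - v0)) v0
    rw [e1] at k1
    rw [e2] at k2
    have k3 := kn_le_tot (y := y) (z := z) c0 hc0 hv0d hL0
      (j + lam z (w - v0) + lam z (v0 - w'))
    rw [← hb] at k3
    have k4 : KN M y z (j + lam z (w - v0) + lam z (v0 - w')) v0 v0 ≤
        b⁻¹ * (sys M y z).tot (j + lam z (w - v0) + lam z (v0 - w') + 2 * L0) := by
      calc KN M y z (j + lam z (w - v0) + lam z (v0 - w')) v0 v0
          = b⁻¹ * (b * KN M y z (j + lam z (w - v0) + lam z (v0 - w')) v0 v0) := by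
            rw [← mul_assoc, ENNReal.inv_mul_cancel hb0 hbt, one_mul]
        _ ≤ _ := by gcongr
    have k6 := htot (j + lam z (w - v0) + lam z (v0 - w') + 2 * L0)
    have k7 : (2 : ℝ≥0∞) ^ (n - (j + lam z (w - v0) + lam z (v0 - w') + 2 * L0)) ≤
        2 ^ a * 2 ^ i * 2 ^ k := by
      rw [← pow_add, ← pow_add]
      exact pow_le_pow_right₀ (by norm_num) (by omega)
    have n1 : nr (w - v0) ≤ nr w + 1 := by
      rw [hv1]
      unfold nr
      simp only [Prod.fst_sub, Prod.snd_sub]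
      omega
    have n2 : nr (v0 - w') ≤ nr w' + 1 := by
      rw [hv1]
      unfold nr
      simp only [Prod.fst_sub, Prod.snd_sub]
      omega
    have k8 : (40 : ℝ≥0∞) ^ mm (w - v0) * 40 ^ mm (v0 - w') ≤
        40 ^ 10 * (1000 ^ nr w * 1000 ^ nr w') := by
      calc (40 : ℝ≥0∞) ^ mm (w - v0) * 40 ^ mm (v0 - w')
          ≤ 40 ^ (nr w + 5) * 40 ^ (nr w' + 5) :=
            mul_le_mul' (pow_le_pow_right₀ (by norm_num) (by unfold mm; omega))
              (pow_le_pow_right₀ (by norm_num) (by unfold mm; omega))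
        _ = 40 ^ 10 * (40 ^ nr w * 40 ^ nr w') := by
            rw [pow_add, pow_add]
            ring
        _ ≤ _ := by
            gcongr <;> norm_num
    calc cq M y z (fun _ => True) i w * (KN M y z j w w' * cq M y z (fun _ => True) k w')
        ≤ cq M y z (fun _ => True) i w * ((40 ^ mm (w - v0) * (40 ^ mm (v0 - w') * (b⁻¹ *
            (C * (2 ^ a * 2 ^ i * 2 ^ k) * (sys M y z).tot n)))) *
              cq M y z (fun _ => True) k w') := by
          gcongr
          refine k1.trans ?_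
          gcongr
          refine k2.trans ?_
          gcongr
          refine k4.trans ?_
          gcongr
          refine k6.trans ?_
          gcongr
      _ = cq M y z (fun _ => True) i w * 2 ^ i * (cq M y z (fun _ => True) k w' * 2 ^ k *
            ((40 ^ mm (w - v0) * 40 ^ mm (v0 - w')) *
              (b⁻¹ * C * 2 ^ a * (sys M y z).tot n))) := by
          ring
      _ ≤ cq M y z (fun _ => True) i w * 2 ^ i * (cq M y z (fun _ => True) k w' * 2 ^ k *
            ((40 ^ 10 * (1000 ^ nr w * 1000 ^ nr w')) *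
              (b⁻¹ * C * 2 ^ a * (sys M y z).tot n))) := by
          gcongr
      _ = g i w * (g k w' * D) := by
          simp only [hg, hD]
          ring
  have hin : ∀ q : ℕ, ∑' w' : SS, ∑ p ∈ Finset.HasAntidiagonal.antidiagonal q, g p.2 w' ≤
      S := by
    intro q
    rw [hS, ENNReal.tsum_comm]
    exact ENNReal.tsum_le_tsum fun w' => sum_snd (fun k => g k w') q
  have hout : ∑' w : SS, ∑ p ∈ Finset.HasAntidiagonal.antidiagonal m, g p.1 w ≤ S := by
    rw [hS, ENNReal.tsum_comm]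
    exact ENNReal.tsum_le_tsum fun w => sum_fst (fun k => g k w) m
  have hterm : ∀ w : SS, ∀ p ∈ Finset.HasAntidiagonal.antidiagonal m,
      cq M y z (fun _ => True) p.1 w * FC M y z (cN M y z (cq M y z fun _ => True) []) p.2 w ≤
        g p.1 w * (S * D) := by
    intro w p hp
    have hp' : p.1 + p.2 = m := Finset.HasAntidiagonal.mem_antidiagonal.1 hp
    have f1 : FC M y z (cN M y z (cq M y z fun _ => True) []) p.2 w =
        ∑' w' : SS, ∑ r ∈ Finset.HasAntidiagonal.antidiagonal p.2,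
          KN M y z r.1 w w' * cq M y z (fun _ => True) r.2 w' := rfl
    rw [f1, ← ENNReal.tsum_mul_left]
    calc ∑' w' : SS, cq M y z (fun _ => True) p.1 w *
          ∑ r ∈ Finset.HasAntidiagonal.antidiagonal p.2,
            KN M y z r.1 w w' * cq M y z (fun _ => True) r.2 w'
        ≤ ∑' w' : SS, g p.1 w * ((∑ r ∈ Finset.HasAntidiagonal.antidiagonal p.2,
            g r.2 w') * D) := by
          refine ENNReal.tsum_le_tsum fun w' => ?_
          rw [Finset.mul_sum, Finset.sum_mul, Finset.mul_sum]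
          refine Finset.sum_le_sum fun r hr => ?_
          have hr' : r.1 + r.2 = p.2 := Finset.HasAntidiagonal.mem_antidiagonal.1 hr
          exact key p.1 r.1 r.2 w w' (by omega)
      _ = g p.1 w * ((∑' w' : SS, ∑ r ∈ Finset.HasAntidiagonal.antidiagonal p.2,
            g r.2 w') * D) := by
          rw [ENNReal.tsum_mul_left, ENNReal.tsum_mul_right]
      _ ≤ _ := by
          gcongr
          exact hin p.2
  calc TQ M y z (fun _ => True) [] m
      ≤ ∑' w : SS, ∑ p ∈ Finset.HasAntidiagonal.antidiagonal m, g p.1 w * (S * D) := by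
        unfold TQ
        exact ENNReal.tsum_le_tsum fun w => Finset.sum_le_sum (hterm w)
    _ = (∑' w : SS, ∑ p ∈ Finset.HasAntidiagonal.antidiagonal m, g p.1 w) * (S * D) := by
        rw [← ENNReal.tsum_mul_right]
        exact tsum_congr fun w => (Finset.sum_mul _ _ _).symm
    _ ≤ S * (S * D) := by
        gcongr
    _ = _ := by
        rw [hD]
        ring

end Pool.Agent.KSC
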