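import Pool.Agent.KSC.Sy

/-! SC1: tilted sums over the chains with `m` elements.

PROOF. `cs`: Cauchy-Schwarz for sums in `[0, ∞]`: trivial if one of the sums of squares is infinite and the other not
zero, or if one is zero (then all terms vanish); otherwise all terms are finite: real numbers or `NNReal`
(`NNReal.inner_le_Lp_mul_Lq_tsum`, `Real.HolderConjugate` for `2, 2`), or `2 a b ≤ t a² + b² / t` with the best `t`.
`list_l2`: induction on `m` (for all `i`, `g`). The lists `p :: s` with `m + 1` elements from `v` are the pairs of an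
element `p` with `V v p` and a list with `m` elements from `v + D p`, so the inner sum is
`∑' p : {p // V v p}, wt p * τ i v p * G (v + D p)`, where `G w` is the inner sum for `m`, `i + 1`; apply `hτ i` to `G` and
the induction hypothesis. (`chainEquiv` in `KAmp/Chain.lean` is the analogous equivalence, private.)
`chain_l2`: with `κ v = ∑' h, if pos h = v then hw h * c h else 0` the left side is
`∑' v, κ v * G v` with `G v = ∑' s, (..).prod * tp τ 0 v s * κ (ev v s)` (the caps `x.1.1` with `pos = v`; the caps `x.1.2.2`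
with `pos = ev v s`), at most `√(∑' κ²) √(∑' G²)` by `cs`, `∑' G² ≤ (∏ Λ)² ∑' κ²`, and `∑' v, κ v ^ 2 ≤ (∑' v, κ v) ^ 2`. -/

set_option autoImplicit false

open scoped ENNReal

namespace Pool.Agent.KSC

private theorem le_of_sq_le {a b : ℝ≥0∞} (h : a ^ 2 ≤ b ^ 2) : a ≤ b := by
  rw [← ENNReal.rpow_two, ← ENNReal.rpow_two] at h
  exact (ENNReal.rpow_le_rpow_iff (by norm_num)).1 h

/-- Cauchy-Schwarz. -/
theorem cs {ι : Type} (a b : ι → ℝ≥0∞) :
    (∑' i, a i * b i) ^ 2 ≤ (∑' i, a i ^ 2) * ∑' i, b i ^ 2 := by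
  have hpq : (2 : ℝ).HolderConjugate 2 := Real.HolderConjugate.two_two
  have h1 : ∑' i, a i * b i ≤ (∑' i, a i ^ 2) ^ (1 / 2 : ℝ) * (∑' i, b i ^ 2) ^ (1 / 2 : ℝ) := by
    rw [ENNReal.tsum_eq_iSup_sum]
    refine iSup_le fun s => ?_
    refine (ENNReal.inner_le_Lp_mul_Lq s a b hpq).trans ?_
    refine mul_le_mul' (ENNReal.rpow_le_rpow ?_ (by norm_num))
      (ENNReal.rpow_le_rpow ?_ (by norm_num))
    · simp only [ENNReal.rpow_two]
      exact ENNReal.sum_le_tsum s
    · simp only [ENNReal.rpow_two]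
      exact ENNReal.sum_le_tsum s
  have h2 : ∀ x : ℝ≥0∞, (x ^ (1 / 2 : ℝ)) ^ 2 = x := by
    intro x
    rw [← ENNReal.rpow_two, ← ENNReal.rpow_mul]
    norm_num
  calc (∑' i, a i * b i) ^ 2 ≤
      ((∑' i, a i ^ 2) ^ (1 / 2 : ℝ) * (∑' i, b i ^ 2) ^ (1 / 2 : ℝ)) ^ 2 :=
        pow_le_pow_left' h1 2
    _ = (∑' i, a i ^ 2) * ∑' i, b i ^ 2 := by rw [mul_pow, h2, h2]

theorem sum_sq_le {ι : Type} (a : ι → ℝ≥0∞) : ∑' i, a i ^ 2 ≤ (∑' i, a i) ^ 2 := by
  calc ∑' i, a i ^ 2 ≤ ∑' i, a i * ∑' j, a j := by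
        refine ENNReal.tsum_le_tsum fun i => ?_
        rw [pow_two]
        exact mul_le_mul_right (ENNReal.le_tsum i) _
    _ = (∑' i, a i) ^ 2 := by rw [ENNReal.tsum_mul_right, pow_two]

namespace Sy

variable {S P H : Type} [AddCommGroup S] {Y : Sy S P H}

private noncomputable def consE (Y : Sy S P H) (v : S) (m : ℕ) :
    (Σ p : {p // Y.V v p}, {s : List P // s.length = m ∧ Y.VC (v + Y.D p.1) s}) ≃
      {s : List P // s.length = m + 1 ∧ Y.VC v s} :=
  Equiv.ofBijective (fun x => ⟨x.1.1 :: x.2.1, by rw [List.length_cons, x.2.2.1],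
    ⟨x.1.2, x.2.2.2⟩⟩) <| by
    constructor
    · rintro ⟨⟨p, hp⟩, ⟨s, hs⟩⟩ ⟨⟨p', hp'⟩, ⟨s', hs'⟩⟩ h
      have h1 : p :: s = p' :: s' := congrArg Subtype.val h
      obtain ⟨rfl, rfl⟩ := List.cons.inj h1
      rfl
    · rintro ⟨s, hs1, hs2⟩
      cases s with
      | nil => exact absurd hs1 (by simp)
      | cons p s =>
        exact ⟨⟨⟨p, hs2.1⟩, ⟨s, by simpa using hs1, hs2.2⟩⟩, rfl⟩

/-- The sum over the lists. -/
theorem list_l2 {τ : ℕ → S → P → ℝ≥0∞} {Λ : ℕ → ℝ≥0∞} (hτ : ∀ i, Y.L2 (τ i) (Λ i))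
    (g : S → ℝ≥0∞) (m i : ℕ) :
    ∑' v, (∑' s : {s : List P // s.length = m ∧ Y.VC v s},
      (s.1.map Y.wt).prod * Y.tp τ i v s.1 * g (Y.ev v s.1)) ^ 2 ≤
        (∏ j ∈ Finset.range m, Λ (i + j)) ^ 2 * ∑' v, g v ^ 2 := by
  induction m generalizing i with
  | zero =>
    have h0 : ∀ v, ∑' s : {s : List P // s.length = 0 ∧ Y.VC v s},
        (s.1.map Y.wt).prod * Y.tp τ i v s.1 * g (Y.ev v s.1) = g v := by
      intro v
      rw [tsum_eq_single (⟨[], rfl, trivial⟩ : {s : List P // s.length = 0 ∧ Y.VC v s})]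
      · simp [Sy.tp, Sy.ev]
      · rintro ⟨s, hs⟩ hne
        exact absurd (Subtype.ext (List.length_eq_zero_iff.1 hs.1)) hne
    simp only [h0, Finset.range_zero, Finset.prod_empty, one_pow, one_mul, le_refl]
  | succ m ih =>
    have h1 : ∀ v, ∑' s : {s : List P // s.length = m + 1 ∧ Y.VC v s},
        (s.1.map Y.wt).prod * Y.tp τ i v s.1 * g (Y.ev v s.1) =
        ∑' p : {p // Y.V v p}, Y.wt p.1 * τ i v p.1 *
          ∑' s : {s : List P // s.length = m ∧ Y.VC (v + Y.D p.1) s},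
            (s.1.map Y.wt).prod * Y.tp τ (i + 1) (v + Y.D p.1) s.1 *
              g (Y.ev (v + Y.D p.1) s.1) := by
      intro v
      rw [← (consE Y v m).tsum_eq, ENNReal.tsum_sigma']
      refine tsum_congr fun p => ?_
      rw [← ENNReal.tsum_mul_left]
      refine tsum_congr fun s => ?_
      have h2 : ((consE Y v m) ⟨p, s⟩).1 = p.1 :: s.1 := rfl
      have h3 : Y.ev v (p.1 :: s.1) = Y.ev (v + Y.D p.1) s.1 := by
        simp only [Sy.ev, List.map_cons, List.sum_cons, add_assoc]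
      rw [h2, h3]
      simp only [List.map_cons, List.prod_cons, Sy.tp]
      ring
    simp only [h1]
    have h4 := hτ i (fun w => ∑' s : {s : List P // s.length = m ∧ Y.VC w s},
      (s.1.map Y.wt).prod * Y.tp τ (i + 1) w s.1 * g (Y.ev w s.1))
    refine h4.trans ?_
    refine (mul_le_mul_right (ih (i + 1)) _).trans (le_of_eq ?_)
    rw [← mul_assoc, ← mul_pow, Finset.prod_range_succ', add_zero]
    congr 2
    rw [mul_comm]
    congr 1
    refine Finset.prod_congr rfl fun j _ => ?_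
    congr 1
    ring

/-- **The sum over the chains with `m` elements.** -/
theorem chain_l2 {τ : ℕ → S → P → ℝ≥0∞} {Λ : ℕ → ℝ≥0∞} (hτ : ∀ i, Y.L2 (τ i) (Λ i))
    (c : H → ℝ≥0∞) (m : ℕ) :
    ∑' x : {x : Y.Ch // x.1.2.1.length = m}, Y.W x.1 *
      (c x.1.1.1 * Y.tp τ 0 (Y.pos x.1.1.1) x.1.1.2.1 * c x.1.1.2.2) ≤
      (∑' h, Y.hw h * c h) ^ 2 * ∏ i ∈ Finset.range m, Λ i := by
  classical
  set F : H → ℝ≥0∞ := fun h => Y.hw h * c h with hF
  set κ : S → ℝ≥0∞ := fun v => ∑' h, if Y.pos h = v then F h else 0 with hκ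
  set A : S → List P → ℝ≥0∞ := fun v s =>
    if s.length = m ∧ Y.VC v s then (s.map Y.wt).prod * Y.tp τ 0 v s else 0 with hA
  set G : S → ℝ≥0∞ := fun v => ∑' s : {s : List P // s.length = m ∧ Y.VC v s},
    (s.1.map Y.wt).prod * Y.tp τ 0 v s.1 * κ (Y.ev v s.1) with hG
  have hG2 : ∑' v, G v ^ 2 ≤ (∏ j ∈ Finset.range m, Λ j) ^ 2 * ∑' v, κ v ^ 2 := by
    have h := list_l2 hτ κ m 0
    simp only [zero_add] at h
    exact h
  have hGA : ∀ v, G v = ∑' s : List P, A v s * κ (Y.ev v s) := by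
    intro v
    have h1 : G v = ∑' s : ({s : List P | s.length = m ∧ Y.VC v s} : Set (List P)),
        (s.1.map Y.wt).prod * Y.tp τ 0 v s.1 * κ (Y.ev v s.1) := rfl
    rw [h1, tsum_subtype {s : List P | s.length = m ∧ Y.VC v s}
      (fun s => (s.map Y.wt).prod * Y.tp τ 0 v s * κ (Y.ev v s))]
    refine tsum_congr fun s => ?_
    by_cases hs : s.length = m ∧ Y.VC v s
    · have hs' : s ∈ {s : List P | s.length = m ∧ Y.VC v s} := hs
      rw [Set.indicator_of_mem hs']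
      simp only [hA, if_pos hs]
    · have hs' : s ∉ {s : List P | s.length = m ∧ Y.VC v s} := hs
      rw [Set.indicator_of_notMem hs']
      simp only [hA, if_neg hs, zero_mul]
  have hlhs : ∑' x : {x : Y.Ch // x.1.2.1.length = m}, Y.W x.1 *
      (c x.1.1.1 * Y.tp τ 0 (Y.pos x.1.1.1) x.1.1.2.1 * c x.1.1.2.2) ≤
      ∑' h, F h * G (Y.pos h) := by
    have h1 : ∀ x : {x : Y.Ch // x.1.2.1.length = m}, Y.W x.1 *
        (c x.1.1.1 * Y.tp τ 0 (Y.pos x.1.1.1) x.1.1.2.1 * c x.1.1.2.2) =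
        (fun q : H × List P × H => F q.1 * (A (Y.pos q.1) q.2.1 *
          if Y.pos q.2.2 = Y.ev (Y.pos q.1) q.2.1 then F q.2.2 else 0)) x.1.1 := by
      rintro ⟨⟨⟨h, s, h'⟩, hc1, hc2⟩, hl⟩
      have hl' : s.length = m := hl
      simp only [hA, hF, Sy.W]
      rw [if_pos ⟨hl', hc1⟩, if_pos hc2.symm]
      ring
    calc _ = ∑' x : {x : Y.Ch // x.1.2.1.length = m},
          (fun q : H × List P × H => F q.1 * (A (Y.pos q.1) q.2.1 *
          if Y.pos q.2.2 = Y.ev (Y.pos q.1) q.2.1 then F q.2.2 else 0)) x.1.1 :=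
          tsum_congr h1
      _ ≤ ∑' q : H × List P × H, F q.1 * (A (Y.pos q.1) q.2.1 *
          if Y.pos q.2.2 = Y.ev (Y.pos q.1) q.2.1 then F q.2.2 else 0) := by
          refine ENNReal.tsum_comp_le_tsum_of_injective
            (f := fun x : {x : Y.Ch // x.1.2.1.length = m} => x.1.1) ?_ _
          intro x y hxy
          exact Subtype.ext (Subtype.ext hxy)
      _ = ∑' h, F h * G (Y.pos h) := by
          rw [ENNReal.tsum_prod']
          refine tsum_congr fun h => ?_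
          rw [ENNReal.tsum_prod', hGA, ← ENNReal.tsum_mul_left]
          refine tsum_congr fun s => ?_
          simp only [ENNReal.tsum_mul_left]
          rfl
  have hswap : ∑' h, F h * G (Y.pos h) = ∑' v, κ v * G v := by
    have h1 : ∀ v, κ v * G v = ∑' h, (if Y.pos h = v then F h else 0) * G v := by
      intro v
      rw [ENNReal.tsum_mul_right]
    simp only [h1]
    rw [ENNReal.tsum_comm]
    refine tsum_congr fun h => ?_
    rw [tsum_eq_single (Y.pos h)]
    · rw [if_pos rfl]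
    · intro v hv
      rw [if_neg (fun h' => hv h'.symm), zero_mul]
  have hκs : ∑' v, κ v = ∑' h, F h := by
    rw [hκ, ENNReal.tsum_comm]
    refine tsum_congr fun h => ?_
    rw [tsum_eq_single (Y.pos h)]
    · rw [if_pos rfl]
    · intro v hv
      rw [if_neg (fun h' => hv h'.symm)]
  have hfin : ∑' v, κ v * G v ≤ (∑' v, κ v ^ 2) * ∏ j ∈ Finset.range m, Λ j := by
    refine le_of_sq_le ((cs κ G).trans ?_)
    calc (∑' v, κ v ^ 2) * ∑' v, G v ^ 2 ≤
        (∑' v, κ v ^ 2) * ((∏ j ∈ Finset.range m, Λ j) ^ 2 * ∑' v, κ v ^ 2) :=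
          mul_le_mul_right hG2 _
      _ = ((∑' v, κ v ^ 2) * ∏ j ∈ Finset.range m, Λ j) ^ 2 := by ring
  refine hlhs.trans ?_
  rw [hswap]
  refine hfin.trans ?_
  refine mul_le_mul_left ?_ _
  rw [← hκs]
  exact sum_sq_le κ

end Sy

end Pool.Agent.KSC
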