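import Pool.Agent.KSC.InsGl
import Pool.Agent.KComp.ChainA

/-! SC27: lower halves in the slab as chains of blocks on a cap.

PROOF. From `KComp.chain_a (pr w)` and `ins_gl`. The map is `(h, s) ↦ gl (pr h.1) h.2.1 s`; it has values in the set on the
right by `ins_gl` (`(ed h.1 s).2.1 = w.2.1`) and `chain_a`. Injective: `chain_a` gives `pr h.1`, `h.2.1` and `s`, and
`h.1 = w - (s.map DD).sum`. Surjective: for `l` let `(v0, l0, s)` be the chain of `chain_a`, and put
`x0 = w - (s.map DD).sum`, then `pr x0 = v0` (`pr_ed`), `ed x0 s = w`, and `ins_gl` gives the slab conditions. -/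

set_option autoImplicit false

open Pool.Agent.LK
open scoped ENNReal

namespace Pool.Agent.KSC

open Pool.Agent.KTube Pool.Agent.KRing Pool.Agent.KLog

open Pool.Agent.KAsym (ln)
open Pool.Agent.KAmp (gl)
open Pool.Agent.KComp (ww)

variable {M : ℕ}

/-- SC27. -/
theorem chain_s (M : ℕ) (w : SS) :
    ∃ e : {x : HS M × List PP // GC M x.1.1 x.2 ∧ ed x.1.1 x.2 = w} ≃
      {l : List P3 // (0 : ℤ × ℤ) ≠ pr w ∧ Lower 0 0 (pr w) l ∧ InS M w.2.1 l}, ∀ x,
    (e x).1 = gl (pr x.1.1.1) x.1.1.2.1 x.1.2 ∧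
    (e x).1.length = x.1.1.2.1.length + (x.1.2.map ln).sum ∧
    ∀ y z : ℝ, wl (ENNReal.ofReal y) (ENNReal.ofReal z) (e x).1 =
      wc y z x.1.1 * ww y z x.1.2 := by
  obtain ⟨e0, h0⟩ := KComp.chain_a (pr w)
  let g : {x : HS M × List PP // GC M x.1.1 x.2 ∧ ed x.1.1 x.2 = w} →
      {x : KComp.HA × List PP // KTop.GC x.1.1 x.2 ∧ KTop.ed x.1.1 x.2 = pr w} := fun x =>
    ⟨(fh x.1.1, x.1.2), x.2.1.gc, by
      change KTop.ed (pr x.1.1.1) x.1.2 = pr w
      rw [← pr_ed, x.2.2]⟩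
  have hg : ∀ x, (e0 (g x)).1 = gl (pr x.1.1.1) x.1.1.2.1 x.1.2 := fun x => (h0 (g x)).1
  let f : {x : HS M × List PP // GC M x.1.1 x.2 ∧ ed x.1.1 x.2 = w} →
      {l : List P3 // (0 : ℤ × ℤ) ≠ pr w ∧ Lower 0 0 (pr w) l ∧ InS M w.2.1 l} := fun x =>
    ⟨(e0 (g x)).1, (e0 (g x)).2.1, (e0 (g x)).2.2, by
      rw [hg x]
      have h := (ins_gl x.2.1.gc x.1.1.2.2.1.2.1).2 ⟨x.1.1.2.2.2, x.2.1⟩
      rw [x.2.2] at h
      exact h⟩
  have hf : Function.Bijective f := by
    constructor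
    · intro x x' h
      have h0' : (e0 (g x)).1 = (e0 (g x')).1 := by
        have h' : (f x).1 = (f x').1 := by rw [h]
        exact h'
      have h1 : g x = g x' := e0.injective (Subtype.ext h0')
      obtain ⟨⟨⟨v, ⟨l, hl⟩⟩, s⟩, hs, he⟩ := x
      obtain ⟨⟨⟨v', ⟨l', hl'⟩⟩, s'⟩, hs', he'⟩ := x'
      have h2 := congrArg Subtype.val h1
      have h3 : s = s' := congrArg Prod.snd h2
      have h4 : l = l' := congrArg (fun q : KComp.HA × List PP => q.1.2.1) h2
      subst h3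
      subst h4
      have h5 : v = v' := by
        have h6 : v + (s.map DD).sum = w := he
        have h7 : v' + (s.map DD).sum = w := he'
        exact add_right_cancel (h6.trans h7.symm)
      subst h5
      rfl
    · rintro ⟨l', hw, hl', hi⟩
      obtain ⟨x1, hx1⟩ := e0.surjective ⟨l', hw, hl'⟩
      have h1 := (h0 x1).1
      rw [hx1] at h1
      obtain ⟨⟨⟨v, ⟨l, hl⟩⟩, s⟩, hs, he⟩ := x1
      have h2 : l' = gl v l s := h1
      have h3 : ed (w - (s.map DD).sum) s = w := by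
        rw [ed, sub_add_cancel]
      have h4 : pr (w - (s.map DD).sum) = v := by
        have h5 := pr_ed (w - (s.map DD).sum) s
        rw [h3] at h5
        have h6 : KTop.ed v s = pr w := he
        rw [← h6] at h5
        exact (add_right_cancel h5).symm
      subst h4
      have h5 := (ins_gl (M := M) hs hl.2.1).1 (by
        rw [h3, ← h2]
        exact hi)
      exact ⟨⟨(⟨w - (s.map DD).sum, l, hl, h5.1⟩, s), h5.2, h3⟩,
        Subtype.ext ((hg _).trans h2.symm)⟩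
  exact ⟨Equiv.ofBijective f hf, fun x => ⟨hg x, (h0 (g x)).2.1, fun y z => (h0 (g x)).2.2 y z⟩⟩

end Pool.Agent.KSC
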