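import Pool.Agent.KSC.ZDefs
import Pool.Agent.KComp.CutA

/-! SC28: cutting a polygon in the slab at its highest section with two edges.

PROOF. A polygon `E` in `PSl C M` is the translate `shift (0, c, 0) F` of a polygon `F` with `Normed F` (all three lowest
levels `0`), for a unique pair `(F, c)`; here `0 ≤ c` and the heights of the vertices of `F` raised by `c` are at most `M`;
`card`, `span`, `IsTwo` and the type are the same. For `F` use `KComp.cut_a n`: `e0 : PA n × Bool ≃ TA n` with `shift t F = ring (flp r ++ l)` for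
`e0 (F, b) = (v, l, r)` (`t` is a function of the pair `(F, b)`, by choice). The column `0` of `ring (flp r ++ l)` has the
height `a = c - t.2.1` in `E`: the heights of the vertices of `E` are the second coordinates of the points of `flp r ++ l` raised
by `a` (`flp` does not change the second coordinates, so these are the points of `l` and `r`). So `E` satisfies the slab
conditions (heights between `0` and `M`) iff `InS M a l ∧ InS M a r`, and the pairs `(E, b)` correspond to the pairs of a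
triple `(v, l, r)` and an integer `a` with `InS M a l ∧ InS M a r`: the states `w = (v.1, a, a + v.2)`, `pr w = v`. `C E` iff `C F` iff
`C (ring (flp r ++ l))` by `hC` and `sameType_shift`. -/

set_option autoImplicit false

open Pool.Agent.LK
open scoped ENNReal

namespace Pool.Agent.KSC

open Pool.Agent.KTube Pool.Agent.KRing Pool.Agent.KLog

open Pool.Agent.KCls (Flat)

variable {M : ℕ}

/-- The polygons of class `C` in the slab with `n` edges and a section with two edges. -/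
abbrev PSt (C : Finset (Sym2 P3) → Prop) (M n : ℕ) : Type :=
  {E : Finset (Sym2 P3) // E ∈ PSl C M ∧ E.card = n ∧ ∃ k, IsTwo E k}

/-- Pairs of a lower half and a cap with the same state, with `n` points together. -/
abbrev TSt (C : Finset (Sym2 P3) → Prop) (M n : ℕ) : Type :=
  {p : Σ w : SS, {l : List P3 // (0 : ℤ × ℤ) ≠ pr w ∧ Lower 0 0 (pr w) l ∧ InS M w.2.1 l} ×
      {r : List P3 // Flat (pr w) r ∧ InS M w.2.1 r} //
    p.2.1.1.length + p.2.2.1.length = n ∧ C (ring (flp p.2.2.1 ++ p.2.1.1))}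

/-! ### Translations -/

private theorem cs_span {E : Finset (Sym2 P3)} (s : P3) : span (LK.shift s E) = span E :=
  span_shift' s E

private theorem cs_isTwo {E : Finset (Sym2 P3)} (s : P3) (h : ∃ k, IsTwo E k) :
    ∃ k, IsTwo (LK.shift s E) k := by
  obtain ⟨k, hk⟩ := h
  refine ⟨k + s.2.2, ?_⟩
  unfold IsTwo at hk ⊢
  rw [ncard_cross_shift', add_sub_cancel_right]
  exact hk

/-- The class of a translate. -/
private theorem cs_class {C : Finset (Sym2 P3) → Prop} (hC : TypeClosed C)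
    {E F : Finset (Sym2 P3)} {s t : P3} (h : LK.shift s E = LK.shift t F) : C E ↔ C F :=
  have h1 : LK.shift (-t) (LK.shift s E) = F := by
    rw [h, shift_shift, neg_add_cancel, shift_zero]
  have h2 : SameType E F := by
    have := sameType_shift (-t + s) E
    rwa [← shift_shift, h1] at this
  ⟨hC _ _ h2, hC _ _ h2.symm⟩

/-- The polygon is the translate of a polygon that touches the three coordinate planes. -/
private theorem cs_norm {M : ℕ} {E : Finset (Sym2 P3)} (hE : SNormed M E) :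
    ∃ m : ℤ, Normed (LK.shift (0, -m, 0) E) := by
  obtain ⟨h1, ⟨x, hx, hx0⟩, ⟨z, hz, hz0⟩⟩ := hE
  obtain ⟨y, hy, hy'⟩ := Set.exists_min_image (verts E) (fun u => u.2.1) (verts_finite E) ⟨x, hx⟩
  refine ⟨y.2.1, ?_, ?_, ?_, ?_⟩
  · intro u hu
    have h := mem_verts_shift.1 hu
    have h2 := h1 _ h
    have h3 := hy' _ h
    simp only [Prod.fst_sub, Prod.snd_sub] at h2 h3
    omega
  · exact ⟨x + (0, -y.2.1, 0), mem_verts_shift.2 (by simpa using hx), by simpa using hx0⟩
  · exact ⟨y + (0, -y.2.1, 0), mem_verts_shift.2 (by simpa using hy), by simp⟩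
  · exact ⟨z + (0, -y.2.1, 0), mem_verts_shift.2 (by simpa using hz), by simpa using hz0⟩

/-- The vertices of the polygon. -/
private theorem cs_verts {v : ℤ × ℤ} {F : Finset (Sym2 P3)} {l r : List P3} {s t : P3}
    (hv : (0 : ℤ × ℤ) ≠ v) (hl : Lower 0 0 v l) (hr : Lower 0 0 v r)
    (ht : LK.shift t F = ring (flp r ++ l)) (u : P3) :
    u ∈ verts (LK.shift s F) ↔ flipZ 1 (u - s + t) ∈ r ∨ u - s + t ∈ l := by
  rw [mem_verts_shift]
  have h1 : u - s ∈ verts F ↔ u - s + t ∈ verts (LK.shift t F) := by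
    rw [mem_verts_shift, add_sub_cancel_right]
  rw [h1, ht, (ring_of hv (upper_flp hr) hl).mem_verts, List.mem_append, mem_flp]

/-- The slab condition. -/
private theorem cs_slab {M : ℕ} {v : ℤ × ℤ} {F : Finset (Sym2 P3)} {l r : List P3} {t : P3} {a : ℤ}
    (hF : Normed F) (hv : (0 : ℤ × ℤ) ≠ v) (hl : Lower 0 0 v l) (hr : Lower 0 0 v r)
    (ht : LK.shift t F = ring (flp r ++ l)) :
    SNormed M (LK.shift (0, a + t.2.1, 0) F) ↔ InS M a l ∧ InS M a r := by
  have hm := cs_verts (s := (0, a + t.2.1, 0)) hv hl hr ht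
  constructor
  · rintro ⟨h1, -, -⟩
    refine ⟨fun p hp => ?_, fun p hp => ?_⟩
    · have h2 := h1 (p - t + (0, a + t.2.1, 0)) ((hm _).2 (Or.inr (by simpa using hp)))
      simp only [Prod.fst_add, Prod.snd_add, Prod.fst_sub, Prod.snd_sub] at h2
      omega
    · have h2 := h1 (flipZ 1 p - t + (0, a + t.2.1, 0)) ((hm _).2 (Or.inl (by
        simp [flipZ, hp])))
      simp only [Prod.fst_add, Prod.snd_add, Prod.fst_sub, Prod.snd_sub, flipZ] at h2
      omega
  · rintro ⟨h1, h2⟩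
    obtain ⟨g1, ⟨x, hx, hx0⟩, -, ⟨z, hz, hz0⟩⟩ := hF
    refine ⟨fun u hu => ?_, ?_, ?_⟩
    · have h3 := g1 _ (mem_verts_shift.1 hu)
      simp only [Prod.fst_sub, Prod.snd_sub] at h3
      rcases (hm u).1 hu with h4 | h4
      · have h5 := h2 _ h4
        simp only [Prod.fst_add, Prod.snd_add, Prod.fst_sub, Prod.snd_sub, flipZ] at h5
        omega
      · have h5 := h1 _ h4
        simp only [Prod.fst_add, Prod.snd_add, Prod.fst_sub, Prod.snd_sub] at h5
        omega
    · exact ⟨x + (0, a + t.2.1, 0), mem_verts_shift.2 (by simpa using hx), by simpa using hx0⟩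
    · exact ⟨z + (0, a + t.2.1, 0), mem_verts_shift.2 (by simpa using hz), by simpa using hz0⟩

/-! ### The bijection -/

/-- The triple without the heights. -/
private def toTA {C : Finset (Sym2 P3) → Prop} {M n : ℕ} (q : TSt C M n) : KComp.TA n :=
  ⟨⟨pr q.1.1, ⟨q.1.2.1.1, q.1.2.1.2.1, q.1.2.1.2.2.1⟩, ⟨q.1.2.2.1, q.1.2.2.2.1⟩⟩, q.2.1⟩

private theorem toTA_inj {C : Finset (Sym2 P3) → Prop} {M n : ℕ} {q q' : TSt C M n}
    (h : toTA q = toTA q') (ha : q.1.1.2.1 = q'.1.1.2.1) : q = q' := by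
  obtain ⟨⟨w, ⟨l, hl⟩, ⟨r, hr⟩⟩, hq⟩ := q
  obtain ⟨⟨w', ⟨l', hl'⟩, ⟨r', hr'⟩⟩, hq'⟩ := q'
  have h1 : pr w = pr w' := congrArg (fun p : KComp.TA n => p.1.1) h
  have h2 : l = l' := congrArg (fun p : KComp.TA n => p.1.2.1.1) h
  have h3 : r = r' := congrArg (fun p : KComp.TA n => p.1.2.2.1) h
  simp only at ha
  have h4 : w = w' := by
    have e1 := congrArg Prod.fst h1
    have e2 := congrArg Prod.snd h1
    simp only [pr] at e1 e2
    exact Prod.ext e1 (Prod.ext ha (by omega))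
  subst h4 h2 h3
  rfl

private theorem toTA_surj {C : Finset (Sym2 P3) → Prop} {M n : ℕ} (p : KComp.TA n) (w : SS)
    (hw : pr w = p.1.1) (hl : InS M w.2.1 p.1.2.1.1) (hr : InS M w.2.1 p.1.2.2.1)
    (hc : C (ring (flp p.1.2.2.1 ++ p.1.2.1.1))) :
    ∃ q : TSt C M n, toTA q = p ∧ q.1.1 = w := by
  obtain ⟨⟨v, ⟨l, hl1⟩, ⟨r, hr1⟩⟩, hp⟩ := p
  simp only at hw
  subst hw
  exact ⟨⟨⟨w, ⟨l, hl1.1, hl1.2, hl⟩, ⟨r, hr1, hr⟩⟩, hp, hc⟩, rfl, rfl⟩

/-- SC28. -/
theorem cut_s {C : Finset (Sym2 P3) → Prop} (hC : TypeClosed C) (M n : ℕ) :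
    ∃ e : PSt C M n × Bool ≃ TSt C M n, ∀ x,
      span x.1.1 = lspan (e x).1.2.1.1 + lspan (e x).1.2.2.1 + 1 := by
  classical
  obtain ⟨e0, he0⟩ := KComp.cut_a n
  have hspan := fun x => (he0 x).2
  have ht0 := fun x => (he0 x).1
  choose t ht using ht0
  -- the polygon of a triple
  let f : TSt C M n → KComp.PA n × Bool := fun q => e0.symm (toTA q)
  have hf : ∀ q, e0 (f q) = toTA q := fun q => e0.apply_symm_apply _
  have hring : ∀ q : TSt C M n, LK.shift (t (f q)) (f q).1.1 =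
      ring (flp q.1.2.2.1 ++ q.1.2.1.1) := by
    intro q
    have h1 := ht (f q)
    rw [hf q] at h1
    exact h1
  let g : TSt C M n → Finset (Sym2 P3) := fun q =>
    LK.shift (0, q.1.1.2.1 + (t (f q)).2.1, 0) (f q).1.1
  have hg : ∀ q : TSt C M n, g q ∈ PSl C M ∧ (g q).card = n ∧ ∃ k, IsTwo (g q) k := by
    intro q
    have hF := (f q).1.2
    refine ⟨⟨isPolygon_shift hF.1 _, ?_, ?_⟩, ?_, ?_⟩
    · have h1 : LK.shift 0 (g q) =
          LK.shift ((0, q.1.1.2.1 + (t (f q)).2.1, 0) - t (f q))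
            (ring (flp q.1.2.2.1 ++ q.1.2.1.1)) := by
        rw [← hring q, shift_shift, shift_shift, sub_add_cancel, zero_add]
      exact (cs_class hC h1).2 q.2.2
    · exact (cs_slab hF.2.1 q.1.2.1.2.1 q.1.2.1.2.2.1 q.1.2.2.2.1.2.1 (hring q)).2
        ⟨q.1.2.1.2.2.2, q.1.2.2.2.2⟩
    · rw [card_shift]
      exact hF.2.2.1
    · exact cs_isTwo _ hF.2.2.2
  let φ : TSt C M n → PSt C M n × Bool := fun q => (⟨g q, hg q⟩, (f q).2)
  have hφ1 : Function.Injective φ := by
    intro q q' h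
    have h1 : g q = g q' := congrArg (fun x : PSt C M n × Bool => x.1.1) h
    have h2 : (f q).2 = (f q').2 := congrArg (fun x : PSt C M n × Bool => x.2) h
    have h3 : (f q).1.1 = (f q').1.1 := normed_shift_eq (f q).1.2.2.1 (f q').1.2.2.1 h1
    have h4 : f q = f q' := Prod.ext (Subtype.ext h3) h2
    have h5 : toTA q = toTA q' := by rw [← hf q, ← hf q', h4]
    refine toTA_inj h5 ?_
    have h6 : LK.shift (0, q.1.1.2.1 + (t (f q)).2.1, 0) (f q).1.1 =
        LK.shift (0, q'.1.1.2.1 + (t (f q')).2.1, 0) (f q').1.1 := h1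
    rw [h4] at h6
    have h7 : LK.shift (-(0, q'.1.1.2.1 + (t (f q')).2.1, 0) +
        (0, q.1.1.2.1 + (t (f q')).2.1, 0)) (f q').1.1 = (f q').1.1 := by
      rw [← shift_shift, h6, shift_shift, neg_add_cancel, shift_zero]
    have h8 := (f q').1.2.2.1.eq_zero (by rw [h7]; exact (f q').1.2.2.1)
    have h9 := congrArg (fun x : P3 => x.2.1) h8
    simp only [Prod.snd_add, Prod.fst_add, Prod.neg_mk, Prod.snd_zero, Prod.fst_zero] at h9
    omega
  have hφ2 : Function.Surjective φ := by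
    rintro ⟨⟨E, ⟨hE1, hE2, hE3⟩, hE4, hE5⟩, b⟩
    obtain ⟨m, hm⟩ := cs_norm hE3
    let F : KComp.PA n := ⟨LK.shift (0, -m, 0) E, isPolygon_shift hE1 _, hm,
      by rw [card_shift]; exact hE4, cs_isTwo _ hE5⟩
    have hEF : LK.shift (0, m, 0) F.1 = E := by
      change LK.shift (0, m, 0) (LK.shift (0, -m, 0) E) = E
      have h1 : ((0, m, 0) : P3) + (0, -m, 0) = 0 := by simp
      rw [shift_shift, h1, shift_zero]
    have h1 := ht (F, b)
    set p := e0 (F, b) with hp
    set w : SS := (p.1.1.1, m - (t (F, b)).2.1, m - (t (F, b)).2.1 + p.1.1.2) with hw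
    have hw1 : pr w = p.1.1 := by
      simp only [pr, hw]
      exact Prod.ext rfl (by simp)
    have hw2 : w.2.1 + (t (F, b)).2.1 = m := by
      simp only [hw]
      omega
    have h2 : SNormed M (LK.shift (0, w.2.1 + (t (F, b)).2.1, 0) F.1) := by
      rw [hw2, hEF]
      exact hE3
    have h3 := (cs_slab hm p.1.2.1.2.1 p.1.2.1.2.2 p.1.2.2.2.2.1 h1).1 h2
    have h4 : LK.shift ((0, -m, 0) : P3) E = LK.shift (-(t (F, b)))
        (ring (flp p.1.2.2.1 ++ p.1.2.1.1)) := by
      rw [← h1, shift_shift, neg_add_cancel, shift_zero]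
    obtain ⟨q, hq1, hq2⟩ := toTA_surj (C := C) (M := M) p w hw1 h3.1 h3.2
      ((cs_class hC h4).1 hE2)
    have h5 : f q = (F, b) := by
      change e0.symm (toTA q) = (F, b)
      rw [hq1, hp, e0.symm_apply_apply]
    refine ⟨q, Prod.ext (Subtype.ext ?_) ?_⟩
    · change LK.shift (0, q.1.1.2.1 + (t (f q)).2.1, 0) (f q).1.1 = E
      rw [h5, hq2, hw2]
      exact hEF
    · change (f q).2 = b
      rw [h5]
  refine ⟨(Equiv.ofBijective φ ⟨hφ1, hφ2⟩).symm, fun x => ?_⟩
  obtain ⟨q, rfl⟩ := hφ2 x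
  have h1 : (Equiv.ofBijective φ ⟨hφ1, hφ2⟩).symm (φ q) = q :=
    (Equiv.ofBijective φ ⟨hφ1, hφ2⟩).symm_apply_apply q
  rw [h1]
  change span (LK.shift _ (f q).1.1) = _
  rw [cs_span]
  have h2 := hspan (f q)
  rw [hf q] at h2
  exact h2

end Pool.Agent.KSC
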