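import Mathlib

/-! Chains of elements between two caps, with positions in an additive group: definitions. -/

set_option autoImplicit false

open scoped ENNReal

namespace Pool.Agent.KSC

/-- Elements `p` which lead from `v` to `v + D p`, are allowed at `v` if `V v p`, and have the weight
`wt p` and the length `ln p`; caps `h` with positions, weights and lengths. -/
structure Sy (S P H : Type) where
  D : P → S
  V : S → P → Prop
  wt : P → ℝ≥0∞
  ln : P → ℕ
  pos : H → S
  hw : H → ℝ≥0∞
  hl : H → ℕ

namespace Sy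

variable {S P H : Type} [AddCommGroup S] (Y : Sy S P H)

/-- The end of the chain `s` that starts at `v`. -/
def ev (v : S) (s : List P) : S := v + (s.map Y.D).sum

/-- The elements of the chain `s` that starts at `v` are allowed. -/
def VC : S → List P → Prop
  | _, [] => True
  | v, p :: s => Y.V v p ∧ VC (v + Y.D p) s

open Classical in
/-- The number of the elements `p` of the chain, at `w`, with `A w p`. -/
noncomputable def occ (A : S → P → Prop) : S → List P → ℕ
  | _, [] => 0
  | v, p :: s => (if A v p then 1 else 0) + occ A (v + Y.D p) s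

/-- The product of the tilts along the chain; `τ i w p` is the tilt of the element `p` at `w` with
index `i`. -/
noncomputable def tp (τ : ℕ → S → P → ℝ≥0∞) : ℕ → S → List P → ℝ≥0∞
  | _, _, [] => 1
  | i, v, p :: s => τ i v p * tp τ (i + 1) (v + Y.D p) s

open Classical in
/-- The number of increasing tuples of places of the chain such that the properties in the list
hold at these places. -/
noncomputable def tup : List P → List (S → P → Prop) → S → ℕ
  | [], As, _ => if As = [] then 1 else 0
  | _ :: _, [], _ => 1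
  | p :: s, A :: As, v => (if A v p then tup s As (v + Y.D p) else 0) + tup s (A :: As) (v + Y.D p)

/-- The chains between two caps. -/
abbrev Ch : Type :=
  {x : H × List P × H // Y.VC (Y.pos x.1) x.2.1 ∧ Y.ev (Y.pos x.1) x.2.1 = Y.pos x.2.2}

/-- The weight. -/
noncomputable def W (x : Y.Ch) : ℝ≥0∞ :=
  Y.hw x.1.1 * (x.1.2.1.map Y.wt).prod * Y.hw x.1.2.2

/-- The length. -/
def len (x : Y.Ch) : ℕ := Y.hl x.1.1 + (x.1.2.1.map Y.ln).sum + Y.hl x.1.2.2

/-- The number of elements with the property `A`. -/
noncomputable def oc (A : S → P → Prop) (x : Y.Ch) : ℕ := Y.occ A (Y.pos x.1.1) x.1.2.1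

/-- The weighted sum over the chains of length `n`. -/
noncomputable def sum (n : ℕ) (F : Y.Ch → ℝ≥0∞) : ℝ≥0∞ :=
  ∑' x : {x : Y.Ch // Y.len x = n}, Y.W x.1 * F x.1

/-- The total weight of the chains of length `n`. -/
noncomputable def tot (n : ℕ) : ℝ≥0∞ := Y.sum n fun _ => 1

/-- The operator of the elements with the tilt `τ` has the norm at most `Λ` on square summable
functions. -/
def L2 (τ : S → P → ℝ≥0∞) (Λ : ℝ≥0∞) : Prop := ∀ g : S → ℝ≥0∞,
  ∑' v, (∑' p : {p // Y.V v p}, Y.wt p.1 * τ v p.1 * g (v + Y.D p.1)) ^ 2 ≤ Λ ^ 2 * ∑' v, g v ^ 2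

/-- The functional `φ` has the mean `m` for each element. -/
def Tlt (φ : S → P → ℝ) (m : ℝ) : Prop := ∃ C t : ℝ, 0 < t ∧ ∀ θ : ℝ, |θ| ≤ t →
  Y.L2 (fun v p => ENNReal.ofReal (Real.exp (θ * φ v p)))
    (ENNReal.ofReal (Real.exp (θ * m + C * θ ^ 2)))

open Classical in
/-- The indicator function. -/
noncomputable def ind {S P : Type} (A : S → P → Prop) (v : S) (p : P) : ℝ := if A v p then 1 else 0

/-- The hypotheses; `ℓ` is the mean length of the elements. -/
structure Ok (ℓ : ℝ) : Prop where
  two_le : ∀ p, 2 ≤ Y.ln p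
  caps : ∑' h, Y.hw h * 2 ^ Y.hl h ≠ ⊤
  one_le : 1 ≤ ℓ
  len : Y.Tlt (fun _ p => Y.ln p) ℓ

/-- The total weight does not decay exponentially. -/
def Gr : Prop :=
  ∀ δ : ℝ, 0 < δ → ∀ᶠ k : ℕ in Filter.atTop, ENNReal.ofReal (Real.exp (-δ * k)) ≤ Y.tot (2 * k)

end Sy

end Pool.Agent.KSC
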