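import Pool.Agent.KComp.Basic
import Pool.Agent.KSC.Sy

/-! Composite knots in slabs: definitions. The states of a polygon in the slab
`ℤ × {0, …, M} × ℤ` at its sections with two edges are the displacement in the unbounded direction and the
heights of the two strands. -/

set_option autoImplicit false

open Pool.Agent.LK
open scoped ENNReal

namespace Pool.Agent.KSC

open Pool.Agent.KTube Pool.Agent.KRing Pool.Agent.KLog
open Pool.Agent.KAsym (ln)
open Pool.Agent.KAmp (gl)
open Pool.Agent.KCls (Flat)
open Pool.Agent.KComp (ww CA HA)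

/-- The states: the displacement in the unbounded direction and the heights of the two strands. -/
abbrev SS : Type := ℤ × ℤ × ℤ

/-- The displacement of the second strand. -/
def pr (x : SS) : ℤ × ℤ := (x.1, x.2.2 - x.2.1)

/-- The `l¹` norm. -/
def nr (x : SS) : ℕ := x.1.natAbs + x.2.1.natAbs + x.2.2.natAbs

/-- The change of the state along a block. -/
def DD (π : PP) : SS := ((dsp π).1, π.1.sum.2.1, π.2.sum.2.1)

/-- The points, raised by `a`, lie in the slab. -/
def InS (M : ℕ) (a : ℤ) (l : List P3) : Prop := ∀ p ∈ l, 0 ≤ p.2.1 + a ∧ p.2.1 + a ≤ M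

/-- The heights lie between `0` and `M`. -/
def Rg (M : ℕ) (x : SS) : Prop := (0 ≤ x.2.1 ∧ x.2.1 ≤ M) ∧ 0 ≤ x.2.2 ∧ x.2.2 ≤ M

/-- The state is possible. -/
def Al (M : ℕ) (x : SS) : Prop := pr x ≠ 0 ∧ Rg M x

/-- The two walks, from the state `x`, lie in the slab. -/
def Ins (M : ℕ) (x : SS) (π : PP) : Prop :=
  InS M x.2.1 (wk (0, 0, 1) π.1) ∧ InS M x.2.2 (wk (0, 0, 1) π.2)

/-- The blocks in the slab. -/
def GS (M : ℕ) (x : SS) (π : PP) : Prop := Geo (pr x) π ∧ Ins M x π

/-- The unknotted blocks in the slab. -/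
def US (M : ℕ) (x : SS) (π : PP) : Prop := Valid (pr x) π ∧ Ins M x π

/-- The knotted blocks in the slab. -/
def KS (M : ℕ) (x : SS) (π : PP) : Prop := GS M x π ∧ ¬ Unk (pr x) π

/-- The blocks of the list can be put on a half with the state `x`. -/
def GC (M : ℕ) : SS → List PP → Prop
  | x, [] => Al M x
  | x, π :: s => GS M x π ∧ GC M (x + DD π) s

/-- The same for unknotted blocks. -/
def UC (M : ℕ) : SS → List PP → Prop
  | x, [] => Al M x
  | x, π :: s => US M x π ∧ UC M (x + DD π) s

/-- The state at the end of the chain. -/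
def ed (x : SS) (s : List PP) : SS := x + (s.map DD).sum

open Classical in
/-- The marks of a chain that starts at the state `x`: its knotted blocks, with the states at which
they start. -/
noncomputable def mk : SS → List PP → List (SS × PP)
  | _, [] => []
  | x, π :: s => if Unk (pr x) π then mk (x + DD π) s else (x, π) :: mk (x + DD π) s

/-- The caps in the slab, with their states. -/
abbrev HS (M : ℕ) : Type := Σ x : SS, {l // Flat (pr x) l ∧ InS M x.2.1 l}

/-- The cap is unknotted. -/
def UH {M : ℕ} (h : HS M) : Prop := LU 0 0 (pr h.1) h.2.1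

/-- The chains of blocks between two caps. -/
abbrev CS (M : ℕ) : Type := {x : HS M × List PP × HS M // GC M x.1.1 x.2.1 ∧ ed x.1.1 x.2.1 = x.2.2.1}

/-- The polygon. -/
noncomputable def pol {M : ℕ} (x : CS M) : Finset (Sym2 P3) :=
  ring (flp x.1.2.2.2.1 ++ gl (pr x.1.1.1) x.1.1.2.1 x.1.2.1)

/-- The number of points. -/
def lenA {M : ℕ} (x : CS M) : ℕ := x.1.1.2.1.length + (x.1.2.1.map ln).sum + x.1.2.2.2.1.length

/-- The marks. -/
noncomputable def mkA {M : ℕ} (x : CS M) : List (SS × PP) := mk x.1.1.1 x.1.2.1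

/-! ### Weights -/

/-- The weight of a cap. -/
noncomputable def wc {M : ℕ} (y z : ℝ) (h : HS M) : ℝ≥0∞ :=
  wl (ENNReal.ofReal y) (ENNReal.ofReal z) h.2.1

/-- The weight of a chain between two caps. -/
noncomputable def WA {M : ℕ} (y z : ℝ) (x : CS M) : ℝ≥0∞ :=
  wc y z x.1.1 * ww y z x.1.2.1 * wc y z x.1.2.2

open Classical in
/-- The weight of the chains with `n` points and the property `Q`. -/
noncomputable def SA {M : ℕ} (y z : ℝ) (Q : CS M → Prop) (n : ℕ) : ℝ≥0∞ :=
  ∑' x : CS M, if lenA x = n ∧ Q x then WA y z x else 0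

/-! ### Chains of unknotted blocks with gaps -/

open Classical in
/-- The weight of the chains of unknotted blocks with `n` points from `v` to `w`. -/
noncomputable def KN (M : ℕ) (y z : ℝ) (n : ℕ) (v w : SS) : ℝ≥0∞ :=
  ∑' s : List PP, if UC M v s ∧ ed v s = w ∧ (s.map ln).sum = n then ww y z s else 0

/-- The weight of a chain of unknotted blocks from `v`, followed by something that begins at a
state `w`, with `k` points, and has the weight `c k w`; `n` points together. -/
noncomputable def FC (M : ℕ) (y z : ℝ) (c : ℕ → SS → ℝ≥0∞) (n : ℕ) (v : SS) : ℝ≥0∞ :=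
  ∑' w : SS, ∑ p ∈ Finset.HasAntidiagonal.antidiagonal n, KN M y z p.1 v w * c p.2 w

open Classical in
/-- The weight of the caps of the class `Q` with `n` points and the state `w`. -/
noncomputable def cq (M : ℕ) (y z : ℝ) (Q : HS M → Prop) (n : ℕ) (w : SS) : ℝ≥0∞ :=
  ∑' r : HS M, if Q r ∧ r.1 = w ∧ r.2.1.length = n then wc y z r else 0

open Classical in
/-- The weight of gaps with chains of unknotted blocks between them, followed by something with the
weight `c`: for each `q` in the list a jump by `q.2` from a state with the property `q.1`. -/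
noncomputable def cN (M : ℕ) (y z : ℝ) (c : ℕ → SS → ℝ≥0∞) :
    List ((SS → Prop) × SS) → ℕ → SS → ℝ≥0∞
  | [] => c
  | q :: qs => fun n w => if q.1 w then FC M y z (cN M y z c qs) n (w + q.2) else 0

/-- The weight of the chains of unknotted blocks with gaps between two caps of the class `Q`, with
`n` points. -/
noncomputable def TQ (M : ℕ) (y z : ℝ) (Q : HS M → Prop) (qs : List ((SS → Prop) × SS))
    (n : ℕ) : ℝ≥0∞ :=
  ∑' w : SS, ∑ p ∈ Finset.HasAntidiagonal.antidiagonal n,
    cq M y z Q p.1 w * FC M y z (cN M y z (cq M y z Q) qs) p.2 w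

/-- The gaps are between possible states. -/
def GapOk (M : ℕ) (qs : List ((SS → Prop) × SS)) : Prop :=
  ∀ q ∈ qs, ∀ v, q.1 v → Al M v ∧ Al M (v + q.2)

/-- The words of knotted blocks. -/
abbrev KW (M : ℕ) : Type := {π : PP // ∃ v, KS M v π}

/-- The gaps of the knotted blocks with the words `L.map Prod.snd`, at states with the properties in
the list. -/
def gaps (M : ℕ) (L : List ((SS → Prop) × PP)) : List ((SS → Prop) × SS) :=
  L.map fun q => (fun v => q.1 v ∧ KS M v q.2, DD q.2)

/-- The constants: a slab of positive width, the tension `y`, the critical weight `z` of an edge. -/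
structure Cr (M : ℕ) (y z : ℝ) : Prop where
  M_pos : 1 ≤ M
  y_pos : 0 < y
  z_pos : 0 < z
  z_le : z ≤ 1 / 10 ^ 12
  q_le : y * z ^ 2 ≤ 1
  q_ge : 1 - 17 / 2 * z ≤ y * z ^ 2

/-- The chains of unknotted blocks between unknotted caps in the slab. -/
noncomputable def sys (M : ℕ) (y z : ℝ) : Sy SS PP {h : HS M // UH h} where
  D := DD
  V := US M
  wt := wt (ENNReal.ofReal y) (ENNReal.ofReal z)
  ln := ln
  pos := fun h => h.1.1
  hw := fun h => wc y z h.1
  hl := fun h => h.1.2.1.length

/-- The results of the analysis of the kernel of the unknotted blocks: laws of large numbers and the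
asymptotics of the total weight. The number `ℓ` is the mean number of points of a block. -/
structure Bd (M : ℕ) (y z ℓ : ℝ) : Prop where
  cr : Cr M y z
  ok : (sys M y z).Ok ℓ
  odd : ∀ n, Odd n → (sys M y z).tot n = 0
  poly : ∃ c : ℝ, 0 < c ∧ Filter.Tendsto (fun k : ℕ => ((sys M y z).tot (2 * k)).toReal *
    ((2 * k : ℕ) : ℝ) ^ (3 / 2 : ℝ)) Filter.atTop (nhds c)
  near : ∀ R : ℕ, (sys M y z).Tlt (Sy.ind fun v _ => nrm (pr v) ≤ R) 0
  occ : ∀ (ρ : PP) (i : ℤ × ℤ) (R : ℕ), (∀ v : SS, v.2 = i → R < nrm (pr v) → US M v ρ) →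
    ∃ w : ℝ, 0 < w ∧ w ≤ 1 ∧ (sys M y z).Tlt (Sy.ind fun v p => p = ρ ∧ v.2 = i ∧ R < nrm (pr v)) w

end Pool.Agent.KSC
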