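import Pool.Agent.KSC.ChainL

/-! SC2: exponential estimate for the length of a chain with `m` elements.

PROOF. As `exp_len` in `KAmp/ExpLen.lean`. `hS.len` gives `C`, `t > 0` with `L2 (exp (θ ln)) (exp (θ ℓ + C θ²))` for
`|θ| ≤ t`; we may take `C ≥ 0` and `t ≤ 1 / 2` (`exp (1/2) ≤ 2`). `chain_l2` with `τ i v p = exp (θ ln p)`, `c h = exp (θ hl h)`:
the product of the tilts is `exp (θ * (s.map ln).sum)`, so the weight `W` times `exp (θ len x)` is summed:
`∑ W exp (θ len) ≤ B² exp (m (θ ℓ + C θ²))` with `B = ∑' h, hw h * exp (θ hl h) ≤ ∑' h, hw h * 2 ^ hl h < ∞`. On the chains with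
`len x = n` the factor is `exp (θ n)`, so their weight is at most `B² exp (m (θ ℓ + C θ²) - θ n)`. The chains with
`len x = n`, `x.1.2.1.length = m` exist only if `2 m ≤ n` (`two_le`). If `m ℓ ≤ n - ε n` take `θ > 0`:
the exponent is at most `- θ ε n + C θ² n`; if `m ℓ ≥ n + ε n` take `θ < 0`: at most `- |θ| ε n + C θ² n`. With `|θ|` small
(`C |θ| ≤ ε / 2`, `|θ| ≤ t`) both are at most `- c n` with `c = |θ| ε / 2`. -/

set_option autoImplicit false

open scoped ENNReal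

namespace Pool.Agent.KSC

namespace Sy

variable {S P H : Type} [AddCommGroup S] {Y : Sy S P H} {ℓ : ℝ}

/-- The product of the tilts. -/
theorem tp_exp (φ : S → P → ℝ) (θ : ℝ) (f : S → List P → ℝ)
    (h0 : ∀ v, f v [] = 0) (h1 : ∀ v p s, f v (p :: s) = φ v p + f (v + Y.D p) s) :
    ∀ (i : ℕ) (v : S) (s : List P),
      Y.tp (fun _ v p => ENNReal.ofReal (Real.exp (θ * φ v p))) i v s =
        ENNReal.ofReal (Real.exp (θ * f v s)) := by
  intro i v s
  induction s generalizing i v with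
  | nil => simp [tp, h0]
  | cons p s ih =>
    rw [tp, ih, ← ENNReal.ofReal_mul (Real.exp_pos _).le, ← Real.exp_add, h1]
    congr 2
    ring

private lemma el_sum_ge (hS : Y.Ok ℓ) (s : List P) : 2 * s.length ≤ (s.map Y.ln).sum := by
  induction s with
  | nil => simp
  | cons p s ih =>
    rw [List.map_cons, List.sum_cons, List.length_cons]
    have := hS.two_le p
    omega

theorem two_length_le (hS : Y.Ok ℓ) (x : Y.Ch) : 2 * x.1.2.1.length ≤ Y.len x := by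
  have h1 := el_sum_ge hS x.1.2.1
  unfold len
  omega

private lemma el_half : Real.exp (1 / 2) ≤ 2 := by
  have h1 : Real.exp (1 / 2) ^ 2 = Real.exp 1 := by
    rw [← Real.exp_nat_mul]
    norm_num
  have h2 := Real.exp_one_lt_d9
  have h3 := Real.exp_pos (1 / 2)
  by_contra hcon
  push Not at hcon
  nlinarith

private lemma el_half' {t : ℝ} (ht : t ≤ 1 / 2) (x : ℕ) : Real.exp (t * x) ≤ 2 ^ x := by
  have h1 : Real.exp (t * x) = Real.exp t ^ x := by
    rw [← Real.exp_nat_mul]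
    congr 1
    ring
  rw [h1]
  exact pow_le_pow_left₀ (Real.exp_pos _).le ((Real.exp_le_exp.2 ht).trans el_half) x

/-- the bound for one sign: `t = θ` or `t = -θ` -/
private lemma el_main {t B L : ℝ} (hB : 0 ≤ B)
    (hc : ∑' h, Y.hw h * ENNReal.ofReal (Real.exp (t * Y.hl h)) ≤ ENNReal.ofReal B)
    (hL : Y.L2 (fun _ p => ENNReal.ofReal (Real.exp (t * Y.ln p)))
      (ENNReal.ofReal (Real.exp L))) (n m : ℕ) :
    ∑' x : {x : Y.Ch // x.1.2.1.length = m ∧ Y.len x = n}, Y.W x.1 ≤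
      ENNReal.ofReal (B ^ 2 * Real.exp (m * L - t * n)) := by
  have key := chain_l2 (Y := Y) (τ := fun _ _ p => ENNReal.ofReal (Real.exp (t * Y.ln p)))
    (Λ := fun _ => ENNReal.ofReal (Real.exp L)) (fun _ => hL)
    (fun h => ENNReal.ofReal (Real.exp (t * Y.hl h))) m
  have h1 : ∑' x : {x : Y.Ch // x.1.2.1.length = m ∧ Y.len x = n}, Y.W x.1 *
      ENNReal.ofReal (Real.exp (t * n)) ≤ ∑' x : {x : Y.Ch // x.1.2.1.length = m}, Y.W x.1 *
      (ENNReal.ofReal (Real.exp (t * Y.hl x.1.1.1)) *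
        Y.tp (fun _ _ p => ENNReal.ofReal (Real.exp (t * Y.ln p))) 0 (Y.pos x.1.1.1) x.1.1.2.1 *
        ENNReal.ofReal (Real.exp (t * Y.hl x.1.1.2.2))) := by
    refine le_trans (le_of_eq ?_) (ENNReal.tsum_comp_le_tsum_of_injective
      (f := fun x : {x : Y.Ch // x.1.2.1.length = m ∧ Y.len x = n} =>
        (⟨x.1, x.2.1⟩ : {x : Y.Ch // x.1.2.1.length = m}))
      (fun p q h => Subtype.ext (congrArg (fun x => x.1) h)) fun x => Y.W x.1 *
      (ENNReal.ofReal (Real.exp (t * Y.hl x.1.1.1)) *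
        Y.tp (fun _ _ p => ENNReal.ofReal (Real.exp (t * Y.ln p))) 0 (Y.pos x.1.1.1) x.1.1.2.1 *
        ENNReal.ofReal (Real.exp (t * Y.hl x.1.1.2.2))))
    refine tsum_congr fun x => ?_
    congr 1
    rw [tp_exp (Y := Y) (fun _ p => (Y.ln p : ℝ)) t (fun _ s => (((s.map Y.ln).sum : ℕ) : ℝ))
      (fun _ => by simp) (fun _ p s => by rw [List.map_cons, List.sum_cons]; push_cast; ring),
      ← ENNReal.ofReal_mul (Real.exp_pos _).le, ← Real.exp_add,
      ← ENNReal.ofReal_mul (Real.exp_pos _).le, ← Real.exp_add]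
    congr 2
    have h2 : Y.hl x.1.1.1 + (x.1.1.2.1.map Y.ln).sum + Y.hl x.1.1.2.2 = n := x.2.2
    have h3 : (n : ℝ) = (Y.hl x.1.1.1 : ℝ) + ((x.1.1.2.1.map Y.ln).sum : ℕ) + Y.hl x.1.1.2.2 := by
      exact_mod_cast h2.symm
    linear_combination t * h3
  have h2 : ∑' x : {x : Y.Ch // x.1.2.1.length = m ∧ Y.len x = n}, Y.W x.1 *
      ENNReal.ofReal (Real.exp (t * n)) ≤
      ENNReal.ofReal (B ^ 2 * Real.exp (m * L)) := by
    refine (h1.trans key).trans ?_
    rw [Finset.prod_const, Finset.card_range, ← ENNReal.ofReal_pow (Real.exp_pos _).le,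
      ← Real.exp_nat_mul, ENNReal.ofReal_mul (by positivity), ENNReal.ofReal_pow hB]
    gcongr
  rw [ENNReal.tsum_mul_right] at h2
  have h3 : ∑' x : {x : Y.Ch // x.1.2.1.length = m ∧ Y.len x = n}, Y.W x.1 =
      (∑' x : {x : Y.Ch // x.1.2.1.length = m ∧ Y.len x = n}, Y.W x.1) *
        ENNReal.ofReal (Real.exp (t * n)) * ENNReal.ofReal (Real.exp (-(t * n))) := by
    rw [mul_assoc, ← ENNReal.ofReal_mul (Real.exp_pos _).le, ← Real.exp_add, add_neg_cancel,
      Real.exp_zero, ENNReal.ofReal_one, mul_one]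
  rw [h3]
  refine (mul_le_mul_left h2 _).trans (le_of_eq ?_)
  rw [← ENNReal.ofReal_mul (by positivity), mul_assoc, ← Real.exp_add, sub_eq_add_neg]

/-- **The length.** -/
theorem exp_len (hS : Y.Ok ℓ) {ε : ℝ} (hε : 0 < ε) : ∃ C c : ℝ, 0 < c ∧ ∀ n m : ℕ,
    ∑' x : {x : Y.Ch // x.1.2.1.length = m ∧ Y.len x = n ∧ ε * n ≤ |(n : ℝ) - m * ℓ|},
      Y.W x.1 ≤ ENNReal.ofReal (C * Real.exp (-c * n)) := by
  obtain ⟨C, t, ht, hCt⟩ := hS.len
  set B : ℝ := (∑' h, Y.hw h * 2 ^ Y.hl h).toReal with hB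
  have hB0 : 0 ≤ B := ENNReal.toReal_nonneg
  have hB' : ∑' h, Y.hw h * 2 ^ Y.hl h = ENNReal.ofReal B :=
    (ENNReal.ofReal_toReal hS.caps).symm
  set C1 : ℝ := max C 0 with hC1
  have hC10 : 0 ≤ C1 := le_max_right _ _
  have hCC1 : C ≤ C1 := le_max_left _ _
  -- the choice of `θ`
  obtain ⟨θ, hθ0, hθt, hθ1, hθ2⟩ : ∃ θ : ℝ, 0 < θ ∧ θ ≤ t ∧ θ ≤ 1 / 2 ∧ C1 * θ ≤ ε / 2 := by
    refine ⟨min t (min (1 / 2) (ε / (2 * (C1 + 1)))), ?_, ?_, ?_, ?_⟩
    · exact lt_min ht (lt_min (by norm_num) (by positivity))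
    · exact min_le_left _ _
    · exact (min_le_right _ _).trans (min_le_left _ _)
    · have h1 : min t (min (1 / 2) (ε / (2 * (C1 + 1)))) ≤ ε / (2 * (C1 + 1)) :=
        (min_le_right _ _).trans (min_le_right _ _)
      have h2 : 0 < min t (min (1 / 2) (ε / (2 * (C1 + 1)))) :=
        lt_min ht (lt_min (by norm_num) (by positivity))
      rw [le_div_iff₀ (by positivity)] at h1
      nlinarith
  -- the caps
  have hcap : ∀ s : ℝ, s ≤ 1 / 2 →
      ∑' h, Y.hw h * ENNReal.ofReal (Real.exp (s * Y.hl h)) ≤ ENNReal.ofReal B := by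
    intro s hs
    rw [← hB']
    refine ENNReal.tsum_le_tsum fun h => mul_le_mul_right ?_ _
    refine (ENNReal.ofReal_le_ofReal (el_half' hs _)).trans (le_of_eq ?_)
    rw [ENNReal.ofReal_pow (by norm_num)]
    norm_num
  have hplus : ∀ n m : ℕ, ∑' x : {x : Y.Ch // x.1.2.1.length = m ∧ Y.len x = n}, Y.W x.1 ≤
      ENNReal.ofReal (B ^ 2 * Real.exp (m * (θ * ℓ + C * θ ^ 2) - θ * n)) := fun n m =>
    el_main hB0 (hcap θ hθ1) (hCt θ (by rwa [abs_of_pos hθ0])) n m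
  have hminus : ∀ n m : ℕ, ∑' x : {x : Y.Ch // x.1.2.1.length = m ∧ Y.len x = n}, Y.W x.1 ≤
      ENNReal.ofReal (B ^ 2 * Real.exp (m * (-θ * ℓ + C * (-θ) ^ 2) - -θ * n)) := fun n m =>
    el_main hB0 (hcap (-θ) (by linarith)) (hCt (-θ) (by rwa [abs_neg, abs_of_pos hθ0])) n m
  refine ⟨B ^ 2, θ * ε / 2, by positivity, fun n m => ?_⟩
  have hn0 : (0 : ℝ) ≤ n := Nat.cast_nonneg n
  have hm0 : (0 : ℝ) ≤ m := Nat.cast_nonneg m
  by_cases hne : ε * n ≤ |(n : ℝ) - m * ℓ| ∧ 2 * m ≤ n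
  · obtain ⟨h1, h2⟩ := hne
    have hmn : (m : ℝ) ≤ n := by exact_mod_cast (by omega : m ≤ n)
    have hsub : ∑' x : {x : Y.Ch // x.1.2.1.length = m ∧ Y.len x = n ∧
        ε * n ≤ |(n : ℝ) - m * ℓ|}, Y.W x.1 ≤
        ∑' x : {x : Y.Ch // x.1.2.1.length = m ∧ Y.len x = n}, Y.W x.1 :=
      ENNReal.tsum_comp_le_tsum_of_injective
        (f := fun x : {x : Y.Ch // x.1.2.1.length = m ∧ Y.len x = n ∧
          ε * n ≤ |(n : ℝ) - m * ℓ|} =>
          (⟨x.1, x.2.1, x.2.2.1⟩ : {x : Y.Ch // x.1.2.1.length = m ∧ Y.len x = n}))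
        (fun p q h => Subtype.ext (congrArg (fun x => x.1) h)) fun x => Y.W x.1
    have h3 : m * (C * θ ^ 2) ≤ θ * (ε / 2) * n := by
      calc m * (C * θ ^ 2) ≤ m * (C1 * θ ^ 2) := by gcongr
        _ = θ * (C1 * θ) * m := by ring
        _ ≤ θ * (ε / 2) * n := mul_le_mul (mul_le_mul_of_nonneg_left hθ2 hθ0.le) hmn hm0
          (by positivity)
    rcases le_total ((m : ℝ) * ℓ) n with h4 | h4
    · rw [abs_of_nonneg (by linarith)] at h1
      refine (hsub.trans (hplus n m)).trans (ENNReal.ofReal_le_ofReal ?_)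
      refine mul_le_mul_of_nonneg_left (Real.exp_le_exp.2 ?_) (by positivity)
      have h5 := mul_le_mul_of_nonneg_left h1 hθ0.le
      linarith
    · rw [abs_of_nonpos (by linarith)] at h1
      refine (hsub.trans (hminus n m)).trans (ENNReal.ofReal_le_ofReal ?_)
      refine mul_le_mul_of_nonneg_left (Real.exp_le_exp.2 ?_) (by positivity)
      have h5 := mul_le_mul_of_nonneg_left h1 hθ0.le
      rw [neg_sq]
      linarith
  · have hemp : IsEmpty {x : Y.Ch // x.1.2.1.length = m ∧ Y.len x = n ∧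
        ε * n ≤ |(n : ℝ) - m * ℓ|} := by
      refine ⟨fun x => hne ⟨x.2.2.2, ?_⟩⟩
      have h1 := two_length_le hS x.1
      rw [x.2.1, x.2.2.1] at h1
      exact h1
    rw [tsum_empty]
    exact zero_le

end Sy

end Pool.Agent.KSC
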