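import Pool.Agent.KSC.Kern

/-! SC10: replacing gaps by paths in chains with an arbitrary continuation.

PROOF. As `KComp/FCl.lean` (a purely formal computation with sums). -/

set_option autoImplicit false

open Pool.Agent.LK
open scoped ENNReal

namespace Pool.Agent.KSC

open Pool.Agent.KTube Pool.Agent.KRing Pool.Agent.KLog

variable {M : ℕ} {y z : ℝ} {v w u : SS}

private theorem anti_shift (f : ℕ → ℕ → ℝ≥0∞) (n l : ℕ) :
    ∑ p ∈ Finset.HasAntidiagonal.antidiagonal n, f (p.1 + l) p.2 ≤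
      ∑ p ∈ Finset.HasAntidiagonal.antidiagonal (n + l), f p.1 p.2 := by
  classical
  have hi : Set.InjOn (fun p : ℕ × ℕ => (p.1 + l, p.2))
      (Finset.HasAntidiagonal.antidiagonal n : Finset (ℕ × ℕ)) := by
    rintro ⟨a, b⟩ - ⟨a', b'⟩ - h
    simp only [Prod.mk.injEq, add_left_inj] at h
    exact Prod.ext h.1 h.2
  rw [← Finset.sum_image (g := fun p : ℕ × ℕ => (p.1 + l, p.2)) (f := fun p => f p.1 p.2) hi]
  refine Finset.sum_le_sum_of_subset ?_
  intro q hq
  obtain ⟨p, hp, rfl⟩ := Finset.mem_image.1 hq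
  rw [Finset.HasAntidiagonal.mem_antidiagonal] at hp ⊢
  show p.1 + l + p.2 = n + l
  omega

private theorem anti_assoc (f : ℕ → ℕ → ℕ → ℝ≥0∞) (n : ℕ) :
    ∑ p ∈ Finset.HasAntidiagonal.antidiagonal n,
      ∑ q ∈ Finset.HasAntidiagonal.antidiagonal p.2, f p.1 q.1 q.2 =
    ∑ r ∈ Finset.HasAntidiagonal.antidiagonal n,
      ∑ s ∈ Finset.HasAntidiagonal.antidiagonal r.1, f s.1 s.2 r.2 := by
  rw [Finset.sum_sigma', Finset.sum_sigma']
  refine Finset.sum_bij' (fun x _ => ⟨(x.1.1 + x.2.1, x.2.2), (x.1.1, x.2.1)⟩)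
    (fun x _ => ⟨(x.2.1, x.2.2 + x.1.2), (x.2.2, x.1.2)⟩) ?_ ?_ ?_ ?_ ?_
  · rintro ⟨⟨a, b⟩, ⟨c, d⟩⟩ h
    simp only [Finset.mem_sigma, Finset.HasAntidiagonal.mem_antidiagonal] at h ⊢
    exact ⟨by omega, trivial⟩
  · rintro ⟨⟨a, b⟩, ⟨c, d⟩⟩ h
    simp only [Finset.mem_sigma, Finset.HasAntidiagonal.mem_antidiagonal] at h ⊢
    exact ⟨by omega, trivial⟩
  · rintro ⟨⟨a, b⟩, ⟨c, d⟩⟩ h
    simp only [Finset.mem_sigma, Finset.HasAntidiagonal.mem_antidiagonal] at h
    obtain ⟨h1, rfl⟩ := h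
    rfl
  · rintro ⟨⟨a, b⟩, ⟨c, d⟩⟩ h
    simp only [Finset.mem_sigma, Finset.HasAntidiagonal.mem_antidiagonal] at h
    obtain ⟨h1, rfl⟩ := h
    rfl
  · rintro ⟨⟨a, b⟩, ⟨c, d⟩⟩ h
    rfl

theorem fc_mono {c c' : ℕ → SS → ℝ≥0∞} (h : ∀ n v, c n v ≤ c' n v) (n : ℕ) (v : SS) :
    FC M y z c n v ≤ FC M y z c' n v :=
  ENNReal.tsum_le_tsum fun _ => Finset.sum_le_sum fun _ _ => mul_le_mul_right (h _ _) _

theorem fc_pre (h : Cr M y z) (hv : Al M v) (hu : Al M (v + u)) (c : ℕ → SS → ℝ≥0∞) (n : ℕ) :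
    FC M y z c n (v + u) ≤ 40 ^ mm u * FC M y z c (n + lam z u) v := by
  unfold FC
  rw [← ENNReal.tsum_mul_left]
  refine ENNReal.tsum_le_tsum fun w => ?_
  calc ∑ p ∈ Finset.HasAntidiagonal.antidiagonal n, KN M y z p.1 (v + u) w * c p.2 w
      ≤ ∑ p ∈ Finset.HasAntidiagonal.antidiagonal n,
          40 ^ mm u * (KN M y z (p.1 + lam z u) v w * c p.2 w) := by
        refine Finset.sum_le_sum fun p _ => ?_
        rw [← mul_assoc]
        exact mul_le_mul_left (kn_pre h hv hu p.1 w) _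
    _ = 40 ^ mm u * ∑ p ∈ Finset.HasAntidiagonal.antidiagonal n,
          KN M y z (p.1 + lam z u) v w * c p.2 w := by rw [Finset.mul_sum]
    _ ≤ _ := mul_le_mul_right (anti_shift (fun a b => KN M y z a v w * c b w) n _) _

open Classical in
/-- SC10. -/
theorem fc_mark (h : Cr M y z) (u : SS) (c : ℕ → SS → ℝ≥0∞) (n : ℕ) (v : SS) :
    ∑' x : SS, (if Al M x ∧ Al M (x + u) then
      ∑ p ∈ Finset.HasAntidiagonal.antidiagonal n, KN M y z p.1 v x * FC M y z c p.2 (x + u) else 0) ≤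
      40 ^ mm u * ((n + lam z u + 1 : ℕ) : ℝ≥0∞) * FC M y z c (n + lam z u) v := by
  have h1 : ∀ x : SS, (if Al M x ∧ Al M (x + u) then
      ∑ p ∈ Finset.HasAntidiagonal.antidiagonal n, KN M y z p.1 v x * FC M y z c p.2 (x + u) else 0) =
      ∑' w : SS, ∑ r ∈ Finset.HasAntidiagonal.antidiagonal n,
        (if Al M x ∧ Al M (x + u) then ∑ s ∈ Finset.HasAntidiagonal.antidiagonal r.1,
          KN M y z s.1 v x * KN M y z s.2 (x + u) w else 0) * c r.2 w := by
    intro x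
    by_cases hx : Al M x ∧ Al M (x + u)
    · simp only [if_pos hx]
      unfold FC
      simp only [← ENNReal.tsum_mul_left]
      rw [← Summable.tsum_finsetSum fun _ _ => ENNReal.summable]
      refine tsum_congr fun w => ?_
      have e1 := anti_assoc (fun a b d => KN M y z a v x * (KN M y z b (x + u) w * c d w)) n
      simp only [← Finset.mul_sum] at e1
      rw [e1]
      refine Finset.sum_congr rfl fun r _ => ?_
      rw [Finset.sum_mul]
      exact Finset.sum_congr rfl fun s _ => (mul_assoc _ _ _).symm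
    · simp only [if_neg hx, zero_mul, Finset.sum_const_zero, tsum_zero]
  rw [tsum_congr h1, ENNReal.tsum_comm]
  unfold FC
  rw [← ENNReal.tsum_mul_left]
  refine ENNReal.tsum_le_tsum fun w => ?_
  rw [Summable.tsum_finsetSum fun _ _ => ENNReal.summable]
  simp only [ENNReal.tsum_mul_right]
  calc ∑ r ∈ Finset.HasAntidiagonal.antidiagonal n, (∑' x : SS,
        if Al M x ∧ Al M (x + u) then ∑ s ∈ Finset.HasAntidiagonal.antidiagonal r.1,
          KN M y z s.1 v x * KN M y z s.2 (x + u) w else 0) * c r.2 w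
      ≤ ∑ r ∈ Finset.HasAntidiagonal.antidiagonal n,
          40 ^ mm u * ((n + lam z u + 1 : ℕ) : ℝ≥0∞) *
            (KN M y z (r.1 + lam z u) v w * c r.2 w) := by
        refine Finset.sum_le_sum fun r hr => ?_
        rw [← mul_assoc]
        refine mul_le_mul_left ((kn_mark h u r.1 v w).trans ?_) _
        refine mul_le_mul_left (mul_le_mul_right ?_ _) _
        have h2 : r.1 ≤ n := by
          rw [Finset.HasAntidiagonal.mem_antidiagonal] at hr
          omega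
        exact_mod_cast (by omega : r.1 + lam z u + 1 ≤ n + lam z u + 1)
    _ = 40 ^ mm u * ((n + lam z u + 1 : ℕ) : ℝ≥0∞) *
          ∑ r ∈ Finset.HasAntidiagonal.antidiagonal n,
            KN M y z (r.1 + lam z u) v w * c r.2 w := by rw [Finset.mul_sum]
    _ ≤ _ := mul_le_mul_right (anti_shift (fun a b => KN M y z a v w * c b w) n _) _

end Pool.Agent.KSC
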