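import Pool.Agent.KSC.Basic

/-! SC17: marked unknotted blocks and gaps.

PROOF. As `KComp/Occ.lean`, with `Sy.tup`, `Sy.ev`, `Sy.VC` instead of `KComp.tup`, `KAmp.ev`, `KAmp.VC`: `UC M v s` iff
`(sys M y z).VC v s` and `Al M (ed v s)` (for possible `v`), `(sys M y z).ev v s = ed v s`. -/

set_option autoImplicit false

open Pool.Agent.LK
open scoped ENNReal

namespace Pool.Agent.KSC

open Pool.Agent.KTube Pool.Agent.KRing Pool.Agent.KLog

open Pool.Agent.KAsym (ln)
open Pool.Agent.KComp (ww ww_nil ww_cons ww_append)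

variable {M : ℕ} {y z : ℝ}

theorem ev_eq (v : SS) (s : List PP) : (sys M y z).ev v s = ed v s := rfl

theorem uc_vc {v : SS} {s : List PP} :
    UC M v s ↔ (sys M y z).VC v s ∧ Al M v ∧ Al M (ed v s) := by
  induction s generalizing v with
  | nil =>
    rw [ed_nil]
    exact ⟨fun h => ⟨trivial, h, h⟩, fun h => h.2.2⟩
  | cons π s ih =>
    rw [ed_cons]
    constructor
    · rintro ⟨h1, h2⟩
      have h3 := (ih (v := v + DD π)).1 h2
      exact ⟨⟨h1, h3.1⟩, h1.al, h3.2.2⟩
    · rintro ⟨⟨h1, h2⟩, -, h3⟩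
      exact ⟨h1, ih.2 ⟨h2, h1.al', h3⟩⟩

/-- The number of marked tuples: places where the word `q.2` stands at a state with the property
`q.1`, for the elements `q` of the list, in this order. -/
noncomputable def mkc (M : ℕ) (y z : ℝ) (s : List PP) (qs : List ((SS → Prop) × PP)) (v : SS) : ℕ :=
  (sys M y z).tup s (qs.map fun q v p => p = q.2 ∧ q.1 v) v

/-! ### Splittings of lists -/

private theorem occ_ev_cons {S P H : Type} [AddCommGroup S] (κ : Sy S P H) (v : S) (p : P) (t : List P) :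
    κ.ev v (p :: t) = κ.ev (v + κ.D p) t := by
  simp only [Sy.ev, List.map_cons, List.sum_cons]
  rw [add_assoc]

open Classical in
private noncomputable def oJ {S P H : Type} [AddCommGroup S] (κ : Sy S P H) (A : S → P → Prop)
    (As : List (S → P → Prop)) (g : ℝ≥0∞) (v : S) (s : List P) (k : ℕ) : ℝ≥0∞ :=
  if h : k < s.length then (if A (κ.ev v (s.take k)) s[k] then
    g * (κ.tup (s.drop (k + 1)) As (κ.ev v (s.take k) + κ.D s[k]) : ℝ≥0∞) else 0) else 0

private theorem oJ_sum {S P H : Type} [AddCommGroup S] (κ : Sy S P H) (A : S → P → Prop)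
    (As : List (S → P → Prop)) (g : ℝ≥0∞) (v : S) (s : List P) :
    ∑' k, oJ κ A As g v s k = g * (κ.tup s (A :: As) v : ℝ≥0∞) := by
  classical
  induction s generalizing v with
  | nil => simp [oJ, Sy.tup]
  | cons p s ih =>
    rw [tsum_eq_zero_add' ENNReal.summable]
    have h1 : oJ κ A As g v (p :: s) 0 =
        if A v p then g * (κ.tup s As (v + κ.D p) : ℝ≥0∞) else 0 := by
      simp [oJ, Sy.ev]
    have h2 : ∀ k, oJ κ A As g v (p :: s) (k + 1) = oJ κ A As g (v + κ.D p) s k := by
      intro k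
      simp only [oJ, List.length_cons, Nat.add_lt_add_iff_right, List.take_succ_cons,
        List.getElem_cons_succ, occ_ev_cons, List.drop_succ_cons]
    rw [h1, tsum_congr h2, ih]
    simp only [Sy.tup]
    push_cast
    rw [mul_add]
    split_ifs <;> simp

open Classical in
private theorem tup_split {S P H : Type} [AddCommGroup S] (κ : Sy S P H) (A : S → P → Prop)
    (As : List (S → P → Prop)) (G : List P → ℝ≥0∞) (v : S) :
    ∑' s, G s * (κ.tup s (A :: As) v : ℝ≥0∞) =
      ∑' x : List P × P × List P, if A (κ.ev v x.1) x.2.1 then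
        G (x.1 ++ x.2.1 :: x.2.2) * (κ.tup x.2.2 As (κ.ev v x.1 + κ.D x.2.1) : ℝ≥0∞)
        else 0 := by
  let i : List P × P × List P → List P × ℕ := fun x => (x.1 ++ x.2.1 :: x.2.2, x.1.length)
  have hi : Function.Injective i := by
    rintro ⟨a, p, b⟩ ⟨c, q, d⟩ h
    have h1 : a ++ p :: b = c ++ q :: d := congrArg Prod.fst h
    have h2 : a.length = c.length := congrArg Prod.snd h
    obtain ⟨h3, h4⟩ := List.append_inj h1 h2
    rw [List.cons.injEq] at h4
    rw [h3, h4.1, h4.2]
  have hs : Function.support (fun y : List P × ℕ => oJ κ A As (G y.1) v y.1 y.2) ⊆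
      Set.range i := by
    rintro ⟨s, k⟩ h
    rw [Function.mem_support] at h
    simp only [oJ] at h
    split_ifs at h with h1 h2
    · refine ⟨(s.take k, s[k], s.drop (k + 1)), ?_⟩
      simp only [i]
      rw [List.length_take, min_eq_left h1.le, ← List.drop_eq_getElem_cons h1,
        List.take_append_drop]
    · exact absurd rfl h
    · exact absurd rfl h
  have h1 := hi.tsum_eq hs
  rw [ENNReal.tsum_prod (f := fun s k => oJ κ A As (G s) v s k)] at h1
  rw [tsum_congr fun s => (oJ_sum κ A As (G s) v s).symm, ← h1]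
  refine tsum_congr fun x => ?_
  obtain ⟨a, p, b⟩ := x
  simp only [i, oJ]
  rw [dif_pos (by simp)]
  simp

/-! ### Convolutions -/

open Classical in
private theorem conv_eq {ι : Type} (a : ι → Prop) (e : ι → SS) (L : ι → ℕ) (W : ι → ℝ≥0∞)
    (c : ℕ → SS → ℝ≥0∞) (n : ℕ) :
    ∑' w : SS, ∑ p ∈ Finset.HasAntidiagonal.antidiagonal n,
        (∑' s, if a s ∧ e s = w ∧ L s = p.1 then W s else 0) * c p.2 w =
      ∑' s, if a s ∧ L s ≤ n then W s * c (n - L s) (e s) else 0 := by
  have h1 : ∀ w : SS, ∑ p ∈ Finset.HasAntidiagonal.antidiagonal n,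
        (∑' s, if a s ∧ e s = w ∧ L s = p.1 then W s else 0) * c p.2 w =
      ∑' s, ∑ p ∈ Finset.HasAntidiagonal.antidiagonal n,
        (if a s ∧ e s = w ∧ L s = p.1 then W s else 0) * c p.2 w := by
    intro w
    rw [Summable.tsum_finsetSum fun _ _ => ENNReal.summable]
    exact Finset.sum_congr rfl fun p _ => (ENNReal.tsum_mul_right).symm
  rw [tsum_congr h1, ENNReal.tsum_comm]
  refine tsum_congr fun s => ?_
  rw [tsum_eq_single (e s)]
  · by_cases h : a s ∧ L s ≤ n
    · rw [if_pos h, Finset.sum_eq_single (L s, n - L s)]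
      · rw [if_pos ⟨h.1, rfl, rfl⟩]
      · intro p hp hne
        rw [if_neg, zero_mul]
        rintro ⟨-, -, h2⟩
        apply hne
        have := Finset.HasAntidiagonal.mem_antidiagonal.1 hp
        ext
        · exact h2.symm
        · simp only
          omega
      · intro hne
        exact absurd (Finset.HasAntidiagonal.mem_antidiagonal.2 (Nat.add_sub_cancel' h.2)) hne
    · rw [if_neg h]
      refine Finset.sum_eq_zero fun p hp => ?_
      rw [if_neg, zero_mul]
      rintro ⟨h2, -, h3⟩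
      apply h
      have := Finset.HasAntidiagonal.mem_antidiagonal.1 hp
      exact ⟨h2, by omega⟩
  · intro w hw
    refine Finset.sum_eq_zero fun p _ => ?_
    rw [if_neg, zero_mul]
    rintro ⟨-, h2, -⟩
    exact hw h2.symm

open Classical in
private theorem fc_eq (c : ℕ → SS → ℝ≥0∞) (n : ℕ) (v : SS) :
    FC M y z c n v = ∑' s : List PP, if UC M v s ∧ (s.map ln).sum ≤ n then
      ww y z s * c (n - (s.map ln).sum) (ed v s) else 0 :=
  conv_eq (UC M v) (ed v) (fun s => (s.map ln).sum) (ww y z) c n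

open Classical in
private theorem tq_eq (Q : HS M → Prop) (qs : List ((SS → Prop) × SS)) (n : ℕ) :
    TQ M y z Q qs n = ∑' r : HS M, if Q r ∧ r.2.1.length ≤ n then
      wc y z r * FC M y z (cN M y z (cq M y z Q) qs) (n - r.2.1.length) r.1 else 0 :=
  conv_eq Q (fun r => r.1) (fun r => r.2.1.length) (wc y z)
    (FC M y z (cN M y z (cq M y z Q) qs)) n

/-! ### The sums over chains from a displacement -/

open Classical in
private noncomputable def Gs (M : ℕ) (y z : ℝ) (c : ℕ → SS → ℝ≥0∞) (n : ℕ) (v : SS)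
    (s : List PP) : ℝ≥0∞ :=
  if UC M v s ∧ (s.map ln).sum ≤ n then ww y z s * c (n - (s.map ln).sum) (ed v s) else 0

private noncomputable def Gd (M : ℕ) (y z : ℝ) (c : ℕ → SS → ℝ≥0∞)
    (qs : List ((SS → Prop) × PP)) (n : ℕ) (v : SS) : ℝ≥0∞ :=
  ∑' s : List PP, Gs M y z c n v s * (mkc M y z s qs v : ℝ≥0∞)

private theorem mkc_nil (s : List PP) (v : SS) : mkc M y z s [] v = 1 := by
  unfold mkc
  rw [List.map_nil]
  cases s <;> simp [Sy.tup]

private theorem le_of_mkc {s : List PP} {qs : List ((SS → Prop) × PP)} {v : SS}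
    (h : mkc M y z s qs v ≠ 0) : (qs.map fun q => ln q.2).sum ≤ (s.map ln).sum := by
  classical
  induction s generalizing qs v with
  | nil =>
    cases qs with
    | nil => simp
    | cons q qs =>
      exfalso
      apply h
      unfold mkc
      simp [Sy.tup]
  | cons p s ih =>
    cases qs with
    | nil => simp
    | cons q qs =>
      unfold mkc at h
      rw [List.map_cons] at h
      simp only [Sy.tup] at h
      rw [List.map_cons, List.map_cons, List.sum_cons, List.sum_cons]
      by_cases h1 : (sys M y z).tup s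
          ((fun v p => p = q.2 ∧ q.1 v) :: qs.map fun q v p => p = q.2 ∧ q.1 v)
          (v + (sys M y z).D p) = 0
      · rw [h1, add_zero] at h
        split_ifs at h with h2
        · have h3 := ih (qs := qs) (v := v + (sys M y z).D p) h
          rw [h2.1]
          omega
        · exact absurd rfl h
      · have h3 := ih (qs := q :: qs) (v := v + (sys M y z).D p) h1
        rw [List.map_cons, List.sum_cons] at h3
        omega

private theorem gd_zero (c : ℕ → SS → ℝ≥0∞) {qs : List ((SS → Prop) × PP)} {n : ℕ}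
    (v : SS) (h : n < (qs.map fun q => ln q.2).sum) : Gd M y z c qs n v = 0 := by
  unfold Gd
  rw [ENNReal.tsum_eq_zero]
  intro s
  by_cases h1 : mkc M y z s qs v = 0
  · rw [h1, Nat.cast_zero, mul_zero]
  · have h2 := le_of_mkc h1
    unfold Gs
    rw [if_neg, zero_mul]
    rintro ⟨-, h3⟩
    omega

open Classical in
private theorem gd_cons (c : ℕ → SS → ℝ≥0∞) (q : (SS → Prop) × PP)
    (qs : List ((SS → Prop) × PP)) (hq : ∀ v, q.1 v → US M v q.2) (m : ℕ) (v : SS) :
    Gd M y z c (q :: qs) m v = ∑' s : List PP,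
      if (UC M v s ∧ q.1 (ed v s)) ∧ (s.map ln).sum + ln q.2 ≤ m then
        ww y z s * wt (ENNReal.ofReal y) (ENNReal.ofReal z) q.2 *
          Gd M y z c qs (m - ((s.map ln).sum + ln q.2)) (ed v s + DD q.2) else 0 := by
  have h1 : Gd M y z c (q :: qs) m v = ∑' x : List PP × PP × List PP,
      if x.2.1 = q.2 ∧ q.1 (ed v x.1) then
        Gs M y z c m v (x.1 ++ x.2.1 :: x.2.2) *
          (mkc M y z x.2.2 qs (ed v x.1 + DD x.2.1) : ℝ≥0∞) else 0 := by
    refine (tup_split (sys M y z) (fun v p => p = q.2 ∧ q.1 v)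
      (qs.map fun q v p => p = q.2 ∧ q.1 v) (Gs M y z c m v) v).trans ?_
    refine tsum_congr fun x => ?_
    have e1 : (sys M y z).ev v x.1 = ed v x.1 := rfl
    rw [e1]
    by_cases h : x.2.1 = q.2 ∧ q.1 (ed v x.1)
    · rw [if_pos h, if_pos h]
      rfl
    · rw [if_neg h, if_neg h]
  rw [h1, ENNReal.tsum_prod (f := fun (a : List PP) (b : PP × List PP) =>
    if b.1 = q.2 ∧ q.1 (ed v a) then Gs M y z c m v (a ++ b.1 :: b.2) *
      (mkc M y z b.2 qs (ed v a + DD b.1) : ℝ≥0∞) else 0)]
  refine tsum_congr fun s => ?_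
  rw [ENNReal.tsum_prod (f := fun (p : PP) (t : List PP) =>
    if p = q.2 ∧ q.1 (ed v s) then Gs M y z c m v (s ++ p :: t) *
      (mkc M y z t qs (ed v s + DD p) : ℝ≥0∞) else 0)]
  rw [tsum_eq_single q.2]
  · by_cases h2 : q.1 (ed v s)
    · have h3 : ∀ t : List PP, (if q.2 = q.2 ∧ q.1 (ed v s) then
          Gs M y z c m v (s ++ q.2 :: t) * (mkc M y z t qs (ed v s + DD q.2) : ℝ≥0∞) else 0) =
          (if UC M v s ∧ (s.map ln).sum + ln q.2 ≤ m then
            ww y z s * wt (ENNReal.ofReal y) (ENNReal.ofReal z) q.2 else 0) *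
          (Gs M y z c (m - ((s.map ln).sum + ln q.2)) (ed v s + DD q.2) t *
            (mkc M y z t qs (ed v s + DD q.2) : ℝ≥0∞)) := by
        intro t
        rw [if_pos ⟨rfl, h2⟩, ← mul_assoc]
        congr 1
        have e1 : UC M v (s ++ q.2 :: t) ↔ UC M v s ∧ UC M (ed v s + DD q.2) t := by
          rw [uc_append]
          exact ⟨fun h => ⟨h.1, h.2.2⟩, fun h => ⟨h.1, hq _ h2, h.2⟩⟩
        have e2 : ed v (s ++ q.2 :: t) = ed (ed v s + DD q.2) t := by
          rw [ed_append, ed_cons]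
        have e3 : ((s ++ q.2 :: t).map ln).sum =
            (s.map ln).sum + (ln q.2 + (t.map ln).sum) := by
          simp only [List.map_append, List.map_cons, List.sum_append, List.sum_cons]
        have e4 : ww y z (s ++ q.2 :: t) = ww y z s *
            wt (ENNReal.ofReal y) (ENNReal.ofReal z) q.2 * ww y z t := by
          rw [ww_append, ww_cons, mul_assoc]
        unfold Gs
        rw [e2, e3, e4]
        by_cases h4 : UC M v (s ++ q.2 :: t) ∧ (s.map ln).sum + (ln q.2 + (t.map ln).sum) ≤ m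
        · have h5 := e1.1 h4.1
          have h6 := h4.2
          rw [if_pos h4, if_pos ⟨h5.1, by omega⟩, if_pos ⟨h5.2, by omega⟩]
          have e5 : m - ((s.map ln).sum + (ln q.2 + (t.map ln).sum)) =
              m - ((s.map ln).sum + ln q.2) - (t.map ln).sum := by omega
          rw [e5]
          ring
        · rw [if_neg h4]
          symm
          rw [mul_eq_zero]
          by_cases h5 : UC M v s ∧ (s.map ln).sum + ln q.2 ≤ m
          · right
            rw [if_neg]
            rintro ⟨h6, h7⟩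
            exact h4 ⟨e1.2 ⟨h5.1, h6⟩, by omega⟩
          · left
            exact if_neg h5
      rw [tsum_congr h3, ENNReal.tsum_mul_left]
      by_cases h4 : UC M v s ∧ (s.map ln).sum + ln q.2 ≤ m
      · rw [if_pos h4, if_pos ⟨⟨h4.1, h2⟩, h4.2⟩]
        rfl
      · rw [if_neg h4, zero_mul, if_neg]
        rintro ⟨⟨h5, -⟩, h6⟩
        exact h4 ⟨h5, h6⟩
    · rw [if_neg fun h => h2 h.1.2, ENNReal.tsum_eq_zero]
      intro t
      exact if_neg fun h => h2 h.2
  · intro p hp
    rw [ENNReal.tsum_eq_zero]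
    intro t
    exact if_neg fun h => hp h.1

private theorem gd_eq (c : ℕ → SS → ℝ≥0∞) (qs : List ((SS → Prop) × PP))
    (hqs : ∀ q ∈ qs, ∀ v, q.1 v → US M v q.2) (n : ℕ) (v : SS) :
    Gd M y z c qs (n + (qs.map fun q => ln q.2).sum) v =
      ww y z (qs.map Prod.snd) * FC M y z (cN M y z c (qs.map fun q => (q.1, DD q.2))) n v := by
  classical
  induction qs generalizing n v with
  | nil =>
    rw [List.map_nil, List.map_nil, List.map_nil, List.sum_nil, add_zero, ww_nil, one_mul]
    change _ = FC M y z c n v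
    rw [fc_eq]
    unfold Gd
    refine tsum_congr fun s => ?_
    rw [mkc_nil, Nat.cast_one, mul_one]
    rfl
  | cons q qs ih =>
    have ih' := ih fun r hr => hqs r (List.mem_cons_of_mem _ hr)
    rw [gd_cons c q qs (hqs q List.mem_cons_self), List.map_cons, List.map_cons, List.map_cons,
      List.sum_cons, ww_cons, fc_eq, ← ENNReal.tsum_mul_left]
    refine tsum_congr fun s => ?_
    by_cases h : UC M v s ∧ (s.map ln).sum ≤ n
    · rw [if_pos h]
      have e0 : cN M y z c ((q.1, DD q.2) :: qs.map fun q => (q.1, DD q.2))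
          (n - (s.map ln).sum) (ed v s) = if q.1 (ed v s) then
            FC M y z (cN M y z c (qs.map fun q => (q.1, DD q.2))) (n - (s.map ln).sum)
              (ed v s + DD q.2) else 0 := rfl
      rw [e0]
      by_cases hq : q.1 (ed v s)
      · have h2 := h.2
        rw [if_pos hq, if_pos ⟨⟨h.1, hq⟩, by omega⟩]
        have e1 : n + (ln q.2 + (qs.map fun q => ln q.2).sum) - ((s.map ln).sum + ln q.2) =
            (n - (s.map ln).sum) + (qs.map fun q => ln q.2).sum := by omega
        rw [e1, ih']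
        ring
      · rw [if_neg hq, if_neg fun h' => hq h'.1.2, mul_zero, mul_zero]
    · rw [if_neg h, mul_zero]
      split_ifs with h1
      · have h2 : n < (s.map ln).sum := by
          by_contra h3
          exact h ⟨h1.1.1, by omega⟩
        have h3 := h1.2
        rw [gd_zero c _ (by omega), mul_zero]
      · rfl

/-! ### The sum over the chains of the system -/

open Classical in
private theorem sys_sum (n : ℕ) (F : SS → List PP → ℝ≥0∞) :
    (sys M y z).sum n (fun x => F ((sys M y z).pos x.1.1) x.1.2.1) =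
      ∑' a : HS M, ∑' s : List PP, ∑' b : HS M,
        if (UH a ∧ UC M a.1 s ∧ ed a.1 s = b.1 ∧ UH b) ∧
          a.2.1.length + (s.map ln).sum + b.2.1.length = n then
          wc y z a * ww y z s * wc y z b * F a.1 s else 0 := by
  let Ψ : HS M → List PP → HS M → ℝ≥0∞ := fun a s b =>
    if (UH a ∧ UC M a.1 s ∧ ed a.1 s = b.1 ∧ UH b) ∧
      a.2.1.length + (s.map ln).sum + b.2.1.length = n then
      wc y z a * ww y z s * wc y z b * F a.1 s else 0
  let i : {x : (sys M y z).Ch // (sys M y z).len x = n} → HS M × List PP × HS M :=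
    fun x => (x.1.1.1.1, x.1.1.2.1, x.1.1.2.2.1)
  have hi : Function.Injective i := by
    rintro ⟨⟨⟨a, s, b⟩, h1⟩, h2⟩ ⟨⟨⟨a', s', b'⟩, h1'⟩, h2'⟩ h
    have e1 : a = a' := Subtype.ext (congrArg (fun x : HS M × List PP × HS M => x.1) h)
    have e2 : b = b' := Subtype.ext (congrArg (fun x : HS M × List PP × HS M => x.2.2) h)
    have e3 : s = s' := congrArg (fun x : HS M × List PP × HS M => x.2.1) h
    subst e1 e2 e3
    rfl
  have hs : Function.support (fun x : HS M × List PP × HS M => Ψ x.1 x.2.1 x.2.2) ⊆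
      Set.range i := by
    rintro ⟨a, s, b⟩ h
    rw [Function.mem_support] at h
    simp only [Ψ] at h
    split_ifs at h with h2
    · obtain ⟨⟨h3, h4, h5, h6⟩, h7⟩ := h2
      exact ⟨⟨⟨(⟨a, h3⟩, s, ⟨b, h6⟩), (uc_vc.1 h4).1, h5⟩, h7⟩, rfl⟩
    · exact absurd rfl h
  have h1 := hi.tsum_eq hs
  have h2 : ∑' a : HS M, ∑' s : List PP, ∑' b : HS M, Ψ a s b =
      ∑' x : HS M × List PP × HS M, Ψ x.1 x.2.1 x.2.2 := by
    rw [ENNReal.tsum_prod (f := fun a (b : List PP × HS M) => Ψ a b.1 b.2)]
    refine tsum_congr fun a => ?_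
    rw [ENNReal.tsum_prod (f := fun s b => Ψ a s b)]
  refine Eq.trans ?_ h2.symm
  rw [← h1]
  unfold Sy.sum
  refine tsum_congr fun x => ?_
  obtain ⟨⟨⟨a, s, b⟩, h3⟩, h4⟩ := x
  have h5 : ed a.1.1 s = b.1.1 := h3.2
  have h7 : UC M a.1.1 s := uc_vc.2 ⟨h3.1, a.1.al, by rw [h5]; exact b.1.al⟩
  simp only [i, Ψ]
  rw [if_pos ⟨⟨a.2, h7, h5, b.2⟩, h4⟩]
  rfl

/-- SC17. -/
theorem occ_id (qs : List ((SS → Prop) × PP)) (hqs : ∀ q ∈ qs, ∀ v, q.1 v → US M v q.2)
    (n : ℕ) :
    (sys M y z).sum (n + (qs.map fun q => ln q.2).sum)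
        (fun x => (mkc M y z x.1.2.1 qs ((sys M y z).pos x.1.1) : ℝ≥0∞)) =
      ww y z (qs.map Prod.snd) * TQ M y z UH (qs.map fun q => (q.1, DD q.2)) n := by
  classical
  set N := n + (qs.map fun q => ln q.2).sum with hN
  rw [sys_sum N fun v s => (mkc M y z s qs v : ℝ≥0∞), tq_eq, ← ENNReal.tsum_mul_left]
  refine tsum_congr fun a => ?_
  -- the sum over the chains from the cap `a`
  have h1 : ∑' s : List PP, ∑' b : HS M,
      (if (UH a ∧ UC M a.1 s ∧ ed a.1 s = b.1 ∧ UH b) ∧
        a.2.1.length + (s.map ln).sum + b.2.1.length = N then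
        wc y z a * ww y z s * wc y z b * (mkc M y z s qs a.1 : ℝ≥0∞) else 0) =
      (if UH a ∧ a.2.1.length ≤ N then wc y z a else 0) *
        Gd M y z (cq M y z UH) qs (N - a.2.1.length) a.1 := by
    unfold Gd
    rw [← ENNReal.tsum_mul_left]
    refine tsum_congr fun s => ?_
    by_cases hc : (UH a ∧ UC M a.1 s) ∧ a.2.1.length + (s.map ln).sum ≤ N
    · obtain ⟨⟨h2, h3⟩, h4⟩ := hc
      rw [if_pos ⟨h2, by omega⟩]
      unfold Gs
      rw [if_pos ⟨h3, by omega⟩]
      unfold cq
      rw [mul_assoc (ww y z s), ← ENNReal.tsum_mul_right, ← ENNReal.tsum_mul_left,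
        ← ENNReal.tsum_mul_left]
      refine tsum_congr fun b => ?_
      by_cases h5 : (ed a.1 s = b.1 ∧ UH b) ∧
          a.2.1.length + (s.map ln).sum + b.2.1.length = N
      · have h6 := h5.2
        rw [if_pos ⟨⟨h2, h3, h5.1.1, h5.1.2⟩, h6⟩, if_pos ⟨h5.1.2, h5.1.1.symm, by omega⟩]
        ring
      · rw [if_neg, if_neg, zero_mul, mul_zero, mul_zero]
        · rintro ⟨h6, h7, h8⟩
          exact h5 ⟨⟨h7.symm, h6⟩, by omega⟩
        · rintro ⟨⟨-, -, h6, h7⟩, h8⟩
          exact h5 ⟨⟨h6, h7⟩, h8⟩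
    · have h2 : ∀ b : HS M, (if (UH a ∧ UC M a.1 s ∧ ed a.1 s = b.1 ∧ UH b) ∧
          a.2.1.length + (s.map ln).sum + b.2.1.length = N then
          wc y z a * ww y z s * wc y z b * (mkc M y z s qs a.1 : ℝ≥0∞) else 0) = 0 := by
        intro b
        rw [if_neg]
        rintro ⟨⟨h3, h4, -, -⟩, h5⟩
        exact hc ⟨⟨h3, h4⟩, by omega⟩
      rw [tsum_congr h2, tsum_zero]
      symm
      by_cases h3 : UH a ∧ a.2.1.length ≤ N
      · have h4 := h3.2
        unfold Gs
        rw [if_neg (c := UC M a.1 s ∧ _), zero_mul, mul_zero]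
        rintro ⟨h5, h6⟩
        exact hc ⟨⟨h3.1, h5⟩, by omega⟩
      · rw [if_neg h3, zero_mul]
  rw [h1]
  by_cases h2 : UH a ∧ a.2.1.length ≤ n
  · have h3 := h2.2
    have e1 : N - a.2.1.length = (n - a.2.1.length) + (qs.map fun q => ln q.2).sum := by omega
    rw [if_pos h2, if_pos ⟨h2.1, by omega⟩, e1, gd_eq _ _ hqs]
    ring
  · rw [if_neg h2, mul_zero]
    by_cases h3 : UH a ∧ a.2.1.length ≤ N
    · have h4 : n < a.2.1.length := by
        by_contra h5
        exact h2 ⟨h3.1, by omega⟩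
      have h5 := h3.2
      rw [gd_zero _ _ (by omega), mul_zero]
    · rw [if_neg h3, zero_mul]

theorem tot_tq (n : ℕ) : (sys M y z).tot n = TQ M y z UH [] n := by
  have h := occ_id (M := M) (y := y) (z := z) [] (by simp) n
  simp only [List.map_nil, List.sum_nil, add_zero, ww_nil, one_mul] at h
  rw [← h]
  unfold Sy.tot
  congr 1
  funext x
  have h1 : mkc M y z x.1.2.1 [] ((sys M y z).pos x.1.1) = 1 := by
    unfold mkc
    rw [List.map_nil]
    cases x.1.2.1 <;> simp [Sy.tup]
  rw [h1, Nat.cast_one]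

end Pool.Agent.KSC
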