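import Pool.Agent.KSC.Basic
import Pool.Agent.KAmp.Ref

/-! SC18: an unknotted block in the slab with a given change of the state.

PROOF. As `KAmp/Ref.lean`: `ρ = (s1, s2)` where `s1` consists of `|u.2.1|` steps `(0, ±1, 0)` (sign of `u.2.1`) and `s2` of
`|u.1|` steps `(±1, 0, 0)` and `|u.2.2|` steps `(0, ±1, 0)`; all points have the level `1`. `DD ρ = u`: the displacement changes
by `u.1` in the first coordinate. If `nr u < nrm (pr v)` then the two walks are disjoint: the first one stays within
the distance `|u.2.1|` of the origin, the second one within the distance `|u.1| + |u.2.2|` of `pr v`. A block with one level is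
unknotted (`ref_unk` there, private). In the slab: the heights of the points of the first walk lie between `v.2.1` and
`v.2.1 + u.2.1`, those of the second one between `v.2.2` and `v.2.2 + u.2.2`. -/

set_option autoImplicit false

open Pool.Agent.LK
open scoped ENNReal

namespace Pool.Agent.KSC

open Pool.Agent.KTube Pool.Agent.KRing Pool.Agent.KLog

open Pool.Agent.KAsym (ln)

variable {M : ℕ}

/-- A block with one level is unknotted. -/
private theorem rf_unk {v : ℤ × ℤ} {π : PP} (hg : Geo v π) (h1 : KLog.hgt π = 1) : Unk v π := by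
  obtain ⟨l, hl, -⟩ := exists_flat hg.ne
  have hb := hg.block
  have hne : hz π.1.sum ≠ v + hz π.2.sum := by
    intro h
    have hA := List.mem_of_getLast? hb.lastA
    have hB := List.mem_of_head? hb.headB
    rw [h] at hA
    exact hb.disj _ hA hB
  obtain ⟨r, hr⟩ := exists_UU' (k := KLog.hgt π) hne
  rw [unk_iff hg hl hr, ← hb.ring_rotate hr.2.1 hl.2.1]
  refine hb.unknotted hr hl fun j hj hj' => ?_
  rw [h1] at hj'
  omega

/-- A monotone horizontal path. -/
private theorem rf_path : ∀ (n : ℕ) (u : ℤ × ℤ), KLog.nrm u = n → ∃ s : List P3, s.length = n ∧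
    Steps s ∧ s.sum = (u.1, u.2, 0) ∧
    ∀ A B : List P3, s = A ++ B → A.sum.2.2 = 0 ∧ KLog.nrm (A.sum.1, A.sum.2.1) = A.length ∧
      ((0 ≤ A.sum.2.1 ∧ A.sum.2.1 ≤ u.2) ∨ (u.2 ≤ A.sum.2.1 ∧ A.sum.2.1 ≤ 0)) := by
  intro n
  induction n with
  | zero =>
    rintro ⟨x, y⟩ hv
    simp only [KLog.nrm, Nat.add_eq_zero_iff, Int.natAbs_eq_zero] at hv
    obtain ⟨rfl, rfl⟩ := hv
    refine ⟨[], rfl, fun d hd => by simp at hd, rfl, ?_⟩
    intro A B h
    have hA : A = [] := (List.append_eq_nil_iff.1 h.symm).1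
    subst hA
    simp [KLog.nrm]
  | succ n ih =>
    rintro ⟨x, y⟩ hv
    obtain ⟨⟨x', y'⟩, hw, hst, hyy⟩ : ∃ w : ℤ × ℤ, KLog.nrm w = n ∧
        IsStep (x - w.1, y - w.2, (0 : ℤ)) ∧
        ((0 ≤ w.2 ∧ w.2 ≤ y) ∨ (y ≤ w.2 ∧ w.2 ≤ 0)) := by
      simp only [KLog.nrm] at hv
      rcases lt_trichotomy x 0 with h | h | h
      · exact ⟨(x + 1, y), by simp only [KLog.nrm]; omega, by simp [IsStep], by
          simp only; omega⟩
      · rcases lt_trichotomy y 0 with h' | h' | h'
        · exact ⟨(x, y + 1), by simp only [KLog.nrm]; omega, by simp [IsStep], by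
            simp only; omega⟩
        · omega
        · exact ⟨(x, y - 1), by simp only [KLog.nrm]; omega, by simp [IsStep], by
            simp only; omega⟩
      · exact ⟨(x - 1, y), by simp only [KLog.nrm]; omega, by simp [IsStep], by
          simp only; omega⟩
    obtain ⟨s, h1, h2, h3, h4⟩ := ih (x', y') hw
    have hsum : (s ++ [((x - x', y - y', 0) : P3)]).sum = (x, y, 0) := by
      rw [List.sum_append, h3, List.sum_singleton]
      simp
    refine ⟨s ++ [(x - x', y - y', 0)], by simp [h1], ?_, hsum, ?_⟩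
    · intro d hd
      rcases List.mem_append.1 hd with h | h
      · exact h2 d h
      · rw [List.mem_singleton] at h
        rw [h]
        exact hst
    · intro A B h
      rcases List.eq_nil_or_concat B with rfl | ⟨B', d, rfl⟩
      · rw [List.append_nil] at h
        rw [← h, hsum]
        refine ⟨rfl, ?_, ?_⟩
        · rw [List.length_append, h1]
          exact hv
        · simp only
          omega
      · rw [List.concat_eq_append, ← List.append_assoc] at h
        have h5 := List.append_inj_left' h (by simp)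
        obtain ⟨h6, h7, h8⟩ := h4 A B' h5
        refine ⟨h6, h7, ?_⟩
        simp only at h8 hyy ⊢
        omega

private theorem rf_nodup {s : List P3} {p : P3} (h4 : ∀ A B : List P3, s = A ++ B →
    KLog.nrm (A.sum.1, A.sum.2.1) = A.length) : (wk p s).Nodup := by
  rw [nodup_wk]
  intro A w B hAB hw h0
  have h6 := h4 A (w ++ B) hAB
  have h7 := h4 (A ++ w) B (by rw [hAB, List.append_assoc])
  rw [List.sum_append, h0, add_zero, h6, List.length_append] at h7
  have : w.length ≠ 0 := fun h => hw (List.length_eq_zero_iff.1 h)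
  omega

/-- SC18: **Reference blocks.** -/
theorem exists_ref (M : ℕ) (u : SS) : ∃ ρ : PP, DD ρ = u ∧ ln ρ = nr u + 2 ∧
    ∀ v, nr u < nrm (pr v) → Rg M v → Rg M (v + u) → US M v ρ := by
  obtain ⟨s, a1, a2, a3, a4⟩ := rf_path _ (0, u.2.1) rfl
  obtain ⟨t, b1, b2, b3, b4⟩ := rf_path _ (u.1, u.2.2) rfl
  have hgt1 : KLog.hgt (s, t) = 1 := by simp [KLog.hgt, a3]
  have hzs : hz s.sum = (0, u.2.1) := by rw [a3]; rfl
  have hzt : hz t.sum = (u.1, u.2.2) := by rw [b3]; rfl
  have hls : s.length = u.2.1.natAbs := by rw [a1]; simp [KLog.nrm]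
  have hlt : t.length = u.1.natAbs + u.2.2.natAbs := by rw [b1]; simp [KLog.nrm]
  refine ⟨(s, t), ?_, ?_, ?_⟩
  · have e1 : (dsp (s, t)).1 = u.1 := by
      show (hz t.sum - hz s.sum).1 = u.1
      rw [hzs, hzt]
      simp
    have e2 : s.sum.2.1 = u.2.1 := by rw [a3]
    have e3 : t.sum.2.1 = u.2.2 := by rw [b3]
    show ((dsp (s, t)).1, s.sum.2.1, t.sum.2.1) = u
    rw [e1, e2, e3]
  · simp only [ln, nr, hls, hlt]
    omega
  intro v hv hR hR'
  have hv0 : pr v ≠ 0 := by
    intro h
    rw [h] at hv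
    simp [KLog.nrm] at hv
  have hls' : ∀ A B : List P3, s = A ++ B → KLog.nrm (A.sum.1, A.sum.2.1) ≤ u.2.1.natAbs := by
    intro A B h
    rw [(a4 A B h).2.1, ← hls, h]
    simp
  have hlt' : ∀ A B : List P3, t = A ++ B →
      KLog.nrm (A.sum.1, A.sum.2.1) ≤ u.1.natAbs + u.2.2.natAbs := by
    intro A B h
    rw [(b4 A B h).2.1, ← hlt, h]
    simp
  have hdisj : ∀ w ∈ wk (0, 0, 1) s, w ∉ wk ((pr v).1, (pr v).2, 1) t := by
    intro w hw hw'
    obtain ⟨A, B, hAB, rfl⟩ := mem_wk.1 hw
    obtain ⟨A', B', hAB', h0⟩ := mem_wk.1 hw'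
    have h5 := hls' A B hAB
    have h6 := hlt' A' B' hAB'
    have e1 := congrArg (fun q : P3 => q.1) h0
    have e2 := congrArg (fun q : P3 => q.2.1) h0
    simp only [Prod.fst_add, Prod.snd_add] at e1 e2
    simp only [KLog.nrm, nr] at h5 h6 hv
    omega
  have hg : Geo (pr v) (s, t) := by
    refine ⟨hv0, a2, b2, ?_, ?_⟩
    · rw [hgt1]
      have hs : sdA (s, t) = wk (0, 0, 1) s := rfl
      have hs' : sdB (pr v) (s, t) = (wk ((pr v).1, (pr v).2, 1) t).reverse := rfl
      rw [hs, hs']
      refine ⟨by norm_num, rf_nodup fun A B h => (a4 A B h).2.1, ?_, ?_, chain_wk.2 a2, ?_, ?_,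
        ?_, ?_, ?_, ?_, ?_⟩
      · rw [List.nodup_reverse]
        exact rf_nodup fun A B h => (b4 A B h).2.1
      · intro w hw hw'
        rw [List.mem_reverse] at hw'
        exact hdisj w hw hw'
      · rw [List.isChain_reverse]
        exact (chain_wk.2 b2).imp fun a b h => h.symm
      · rw [head_wk]
        rfl
      · rw [last_wk, a3]
        simp [hz]
      · rw [List.head?_reverse, last_wk, b3]
        simp [hz]
      · rw [List.getLast?_reverse, head_wk]
        rfl
      · intro w hw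
        obtain ⟨A, B, hAB, rfl⟩ := mem_wk.1 hw
        have := (a4 A B hAB).1
        simp only [Prod.snd_add]
        omega
      · intro w hw
        rw [List.mem_reverse] at hw
        obtain ⟨A, B, hAB, rfl⟩ := mem_wk.1 hw
        have := (b4 A B hAB).1
        simp only [Prod.snd_add]
        omega
    · intro j hj hj'
      rw [hgt1] at hj'
      omega
  refine ⟨⟨hg, rf_unk hg hgt1⟩, ?_, ?_⟩
  · intro p hp
    obtain ⟨A, B, hAB, rfl⟩ := mem_wk.1 hp
    have h5 := (a4 A B hAB).2.2
    have h6 := hR.1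
    have h7 := hR'.1
    simp only [Prod.fst_add, Prod.snd_add] at h5 h6 h7 ⊢
    omega
  · intro p hp
    obtain ⟨A, B, hAB, rfl⟩ := mem_wk.1 hp
    have h5 := (b4 A B hAB).2.2
    have h6 := hR.2
    have h7 := hR'.2
    simp only [Prod.fst_add, Prod.snd_add] at h5 h6 h7 ⊢
    omega

end Pool.Agent.KSC
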