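import Pool.Agent.KSC.Tup
import Pool.Agent.KSC.Occ
import Pool.Agent.KSC.TotB
import Pool.Agent.KSC.Ref

/-! SC19: the weight of the chains with gaps far from the origin.

PROOF. As `KComp/FarL.lean`. `q = us.length`. For `(i, u) ∈ us` let `ρ` be the reference block of
`exists_ref M u`: `DD ρ = u`, `ln ρ = nr u + 2`, and `US M v ρ` for all `v` with `v.2 = i`, `R <
nrm (pr v)` (`nr u ≤ R`; `Rg M v` depends only on `v.2`). `h.occ` for `ρ`, `i`, `R` gives `0 < w ≤
1` with `Tlt (ind A) w`, `A v p = (p = ρ ∧ v.2 = i ∧ R < nrm (pr v))`. `occ_id` for the list of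
the pairs `((fun v => R < nrm (pr v) ∧ v.2 = i), ρ)`, `n = 2k - a`, `2k ≥ a`: `sum (2k') (mkc ..)
= ww ρs * TQ UH (..) (2k - a)`, where `2k' = 2k - a + ∑ (nr u + 2)` (even), and `mkc` is `tup` of
the properties `A` (up to the order of the conjunctions: same properties by `funext`, `propext`).
So `TQ (2k - a) / ((2k)^q tot (2k)) = (ww ρs)⁻¹ * (sum (2k') tup / ((2k')^q tot (2k'))) * (2k' /
2k)^q * tot (2k') / tot (2k)`. The second factor converges to `∏ w / (ℓ^q q!)` (`tup_lim`,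
composed with `k ↦ k'`, `k' - k` is constant for `2k ≥ a`), the others to `1` (`nT_shift`, or
`h.poly`). `b = ∏ w / (ww ρs * ℓ^q * q!) > 0`. -/

set_option autoImplicit false

open Pool.Agent.LK
open Filter Topology
open scoped ENNReal

namespace Pool.Agent.KSC

open Pool.Agent.KTube Pool.Agent.KRing Pool.Agent.KLog
open Pool.Agent.KAsym (ln)
open Pool.Agent.KComp (ww ww_nil ww_cons)

variable {M : ℕ} {y z ℓ : ℝ}

/-- the weights of the blocks are positive -/
private theorem wt_ne (h : Cr M y z) (ρ : PP) :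
    (wt (ENNReal.ofReal y) (ENNReal.ofReal z) ρ).toReal ≠ 0 := by
  have hy0 := h.y_pos
  have hz := h.z_pos
  have h1 : wt (ENNReal.ofReal y) (ENNReal.ofReal z) ρ =
      ENNReal.ofReal (y ^ (hgt ρ).toNat * z ^ (ρ.1.length + ρ.2.length + 2)) := by
    rw [wt, ENNReal.ofReal_mul (by positivity), ENNReal.ofReal_pow hy0.le,
      ENNReal.ofReal_pow hz.le]
  rw [h1, ENNReal.toReal_ofReal (by positivity)]
  positivity

private theorem ww_ne (h : Cr M y z) (ρs : List PP) : (ww y z ρs).toReal ≠ 0 := by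
  induction ρs with
  | nil => simp [ww_nil]
  | cons ρ ρs ih =>
    rw [ww_cons, ENNReal.toReal_mul]
    exact mul_ne_zero (wt_ne h ρ) ih

/-- the lengths -/
private theorem ratio_len (a b : ℕ) :
    Tendsto (fun k : ℕ => ((2 * k + b - a : ℕ) : ℝ) / ((2 * k : ℕ) : ℝ)) atTop (𝓝 1) := by
  have h1 : Tendsto (fun k : ℕ => ((2 * k : ℕ) : ℝ)) atTop atTop :=
    tendsto_natCast_atTop_atTop.comp (tendsto_id.const_mul_atTop' (by norm_num))
  have h2 : Tendsto (fun k : ℕ => 1 + ((b : ℝ) - a) / ((2 * k : ℕ) : ℝ)) atTop (𝓝 (1 + 0)) :=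
    tendsto_const_nhds.add (h1.const_div_atTop _)
  rw [add_zero] at h2
  refine h2.congr' ?_
  filter_upwards [eventually_ge_atTop (a + 1)] with k hk
  have h3 : ((2 * k : ℕ) : ℝ) ≠ 0 := by
    have : 2 * k ≠ 0 := by omega
    exact_mod_cast this
  rw [Nat.cast_sub (by omega), Nat.cast_add]
  field_simp
  ring

/-- SC19. -/
theorem far_l (h : Bd M y z ℓ) (us : List ((ℤ × ℤ) × SS)) (R a : ℕ) (hR : ∀ u ∈ us, nr u.2 ≤ R)
    (hrg : ∀ u ∈ us, Rg M (0, u.1) ∧ Rg M ((0, u.1) + u.2))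
    (ha : Even (a + (us.map fun u => nr u.2).sum)) : ∃ b : ℝ, 0 < b ∧
    Tendsto (fun k : ℕ => (TQ M y z UH (us.map fun u => ((fun v => R < nrm (pr v) ∧ v.2 = u.1), u.2))
      (2 * k - a)).toReal / (((2 * k : ℕ) : ℝ) ^ us.length * ((sys M y z).tot (2 * k)).toReal))
      atTop (𝓝 b) := by
  choose ρ hd hln hv using exists_ref M
  have hW0 := ww_ne h.cr (us.map fun u => ρ u.2)
  -- the reference blocks are possible
  have hus : ∀ u ∈ us, ∀ v : SS, v.2 = u.1 → R < nrm (pr v) → US M v (ρ u.2) := by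
    intro u hu v hvu hRv
    obtain ⟨h1, h2⟩ := hrg u hu
    refine hv u.2 v (lt_of_le_of_lt (hR u hu) hRv) ?_ ?_
    · unfold Rg at h1 ⊢
      rw [hvu]
      exact h1
    · unfold Rg at h2 ⊢
      have h3 : (v + u.2).2 = (((0 : ℤ), u.1) + u.2 : SS).2 := by
        rw [Prod.snd_add, Prod.snd_add, hvu]
      rw [h3]
      exact h2
  have hocc : ∀ u ∈ us, ∃ w : ℝ, 0 < w ∧ w ≤ 1 ∧
      (sys M y z).Tlt (Sy.ind fun v p => p = ρ u.2 ∧ v.2 = u.1 ∧ R < nrm (pr v)) w :=
    fun u hu => h.occ (ρ u.2) u.1 R (hus u hu)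
  choose! w hw0 hw1 hw2 using hocc
  -- the total length of the reference blocks
  obtain ⟨b, hb⟩ : ∃ b : ℕ, b = (us.map fun u => ln (ρ u.2)).sum := ⟨_, rfl⟩
  have hab : Even (b + a) := by
    have h1 : ∀ us : List ((ℤ × ℤ) × SS), (us.map fun u => ln (ρ u.2)).sum =
        (us.map fun u => nr u.2).sum + 2 * us.length := by
      intro us
      induction us with
      | nil => simp
      | cons u us ih =>
        simp only [List.map_cons, List.sum_cons, List.length_cons]
        rw [ih, hln]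
        ring
    rw [hb, h1]
    obtain ⟨c, hc⟩ := ha
    exact ⟨c + us.length, by omega⟩
  -- the list of the properties
  obtain ⟨As, hAs⟩ : ∃ As : List ((SS → PP → Prop) × ℝ), As = us.map fun u =>
    ((fun v p => p = ρ u.2 ∧ v.2 = u.1 ∧ R < nrm (pr v)), w u) := ⟨_, rfl⟩
  have hlen : As.length = us.length := by rw [hAs, List.length_map]
  have hprod : 0 < (As.map Prod.snd).prod := by
    refine List.prod_pos ?_
    rw [hAs, List.map_map]
    intro x hx
    obtain ⟨u, hu, rfl⟩ := List.mem_map.1 hx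
    exact hw0 u hu
  -- the identity
  have hid : ∀ k : ℕ, a ≤ 2 * k → ((sys M y z).sum (2 * k + b - a) fun x =>
      ((sys M y z).tup x.1.2.1 (As.map Prod.fst) ((sys M y z).pos x.1.1) : ℝ≥0∞)) =
      ww y z (us.map fun u => ρ u.2) * TQ M y z UH
        (us.map fun u => ((fun v => R < nrm (pr v) ∧ v.2 = u.1), u.2)) (2 * k - a) := by
    intro k hk
    have h1 := occ_id (M := M) (y := y) (z := z)
      (us.map fun u => ((fun v => R < nrm (pr v) ∧ v.2 = u.1), ρ u.2))
      (by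
        intro q hq v hqv
        obtain ⟨u, hu, rfl⟩ := List.mem_map.1 hq
        exact hus u hu v hqv.2 hqv.1) (2 * k - a)
    rw [List.map_map, List.map_map, List.map_map] at h1
    have e1 : 2 * k - a + (us.map ((fun q : (SS → Prop) × PP => ln q.2) ∘
        fun u => ((fun v => R < nrm (pr v) ∧ v.2 = u.1), ρ u.2))).sum = 2 * k + b - a := by
      have : (us.map ((fun q : (SS → Prop) × PP => ln q.2) ∘
        fun u => ((fun v => R < nrm (pr v) ∧ v.2 = u.1), ρ u.2))).sum = b := hb.symm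
      rw [this]
      omega
    rw [e1] at h1
    have e2 : (Prod.snd ∘ fun u : (ℤ × ℤ) × SS =>
        ((fun v : SS => R < nrm (pr v) ∧ v.2 = u.1), ρ u.2)) = fun u => ρ u.2 := rfl
    have e3 : ((fun q : (SS → Prop) × PP => (q.1, DD q.2)) ∘
        fun u : (ℤ × ℤ) × SS => ((fun v : SS => R < nrm (pr v) ∧ v.2 = u.1), ρ u.2)) =
        fun u => ((fun v => R < nrm (pr v) ∧ v.2 = u.1), u.2) := by
      funext u
      simp only [Function.comp_apply, hd]
    rw [e2, e3] at h1
    rw [← h1]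
    congr 1
    funext x
    unfold mkc
    rw [hAs, List.map_map, List.map_map]
    congr 3
    funext u v p
    simp only [Function.comp_apply]
    exact propext ⟨fun h => ⟨h.1, h.2.2, h.2.1⟩, fun h => ⟨h.1, h.2.2, h.2.1⟩⟩
  -- the limits
  have hk : Tendsto (fun k : ℕ => (2 * k + b - a) / 2) atTop atTop := by
    refine tendsto_atTop_mono (fun k => ?_) (tendsto_sub_atTop_nat a)
    omega
  have h1 := (Sy.tup_lim h.ok h.gr As (by
    intro x hx
    rw [hAs] at hx
    obtain ⟨u, hu, rfl⟩ := List.mem_map.1 hx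
    exact ⟨hw2 u hu, (hw0 u hu).le, hw1 u hu⟩)).comp hk
  rw [hlen] at h1
  have h2 := ratio_len a b
  have h3 := nT_shift h hab
  have h4 := (((h1.div_const (ww y z (us.map fun u => ρ u.2)).toReal).mul
    (h2.pow us.length)).mul h3).mul (h2.inv₀ one_ne_zero)
  rw [one_pow, inv_one, mul_one, mul_one, mul_one] at h4
  have hl : 0 < ℓ := lt_of_lt_of_le one_pos h.ok.one_le
  have hWp : 0 < (ww y z (us.map fun u => ρ u.2)).toReal :=
    lt_of_le_of_ne ENNReal.toReal_nonneg (Ne.symm hW0)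
  refine ⟨_, ?_, h4.congr' ?_⟩
  · exact div_pos (div_pos hprod (mul_pos (pow_pos hl _)
      (by exact_mod_cast Nat.factorial_pos _))) hWp
  have hne : ∀ᶠ k : ℕ in atTop, nT M y z (2 * k + b - a) / nT M y z (2 * k) ≠ 0 :=
    h3.eventually_ne one_ne_zero
  filter_upwards [hne, eventually_ge_atTop (a + 1)] with k hk1 hk2
  have e1 : 2 * ((2 * k + b - a) / 2) = 2 * k + b - a := by
    obtain ⟨c, hc⟩ := hab
    omega
  rw [div_ne_zero_iff] at hk1
  obtain ⟨hn1, hn2⟩ := hk1
  unfold nT at hn1 hn2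
  rw [mul_ne_zero_iff] at hn1 hn2
  obtain ⟨hA, hB⟩ := hn1
  obtain ⟨hC, hD⟩ := hn2
  have e2 : ((TQ M y z UH (us.map fun u => ((fun v => R < nrm (pr v) ∧ v.2 = u.1), u.2))
      (2 * k - a))).toReal = ((sys M y z).sum (2 * k + b - a) fun x =>
      ((sys M y z).tup x.1.2.1 (As.map Prod.fst) ((sys M y z).pos x.1.1) : ℝ≥0∞)).toReal /
      (ww y z (us.map fun u => ρ u.2)).toReal := by
    rw [hid k (by omega), ENNReal.toReal_mul, mul_div_cancel_left₀ _ hW0]
  rw [e2]
  simp only [Function.comp_apply]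
  rw [e1]
  unfold nT
  have hAq : ((2 * k + b - a : ℕ) : ℝ) ^ us.length ≠ 0 := pow_ne_zero _ hA
  have hCq : ((2 * k : ℕ) : ℝ) ^ us.length ≠ 0 := pow_ne_zero _ hC
  rw [div_pow]
  field_simp

end Pool.Agent.KSC
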