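import Pool.Agent.KSC.Basic

/-! SC26: the slab condition for a half composed of a half and a chain.

PROOF. One block: for `Geo (pr x) π`, `Lower 0 0 (pr x) l`:
`InS M (x + DD π).2.1 (glu (pr x) l π) ↔ InS M x.2.1 l ∧ Ins M x π`, by the definition
`glu v l π = (sdB v π ++ (l ++ sdA π)).map (· + (-(π.1.sum.1), -(π.1.sum.2.1), -(hgt π)))`, `sdA π = wk (0, 0, 1) π.1`,
`sdB v π = (wk (v.1, v.2, 1) π.2).reverse`, the translate by `(v.1, v.2, 0)` of `wk (0, 0, 1) π.2` (`map_wk`), reversed; and
`x.2.1 + (pr x).2 = x.2.2`. Then induction on `s` (`ed_cons`, `pr_add_DD`, `KTop.lower_glu`; for the empty list: a half with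
the state `x` contains a point of each of the columns `0` and `pr x` (`Lower.head`, `Lower.last`), so `Rg M x`; see `HS.al`). -/

set_option autoImplicit false

open Pool.Agent.LK
open scoped ENNReal

namespace Pool.Agent.KSC

open Pool.Agent.KTube Pool.Agent.KRing Pool.Agent.KLog

open Pool.Agent.KAmp (gl)

variable {M : ℕ}

/-- The slab condition for a translate. -/
private theorem ins_map {a : ℤ} {l : List P3} (t : P3) :
    InS M a (l.map (· + t)) ↔ InS M (a + t.2.1) l := by
  unfold InS
  constructor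
  · intro h p hp
    have h1 := h _ (List.mem_map_of_mem hp)
    have e : (p + t).2.1 = p.2.1 + t.2.1 := rfl
    rw [e] at h1
    constructor <;> linarith [h1.1, h1.2]
  · intro h p hp
    obtain ⟨q, hq, rfl⟩ := List.mem_map.1 hp
    have h1 := h q hq
    have e : (q + t).2.1 = q.2.1 + t.2.1 := rfl
    rw [e]
    constructor <;> linarith [h1.1, h1.2]

private theorem ins_append {a : ℤ} {l l' : List P3} :
    InS M a (l ++ l') ↔ InS M a l ∧ InS M a l' := by
  unfold InS
  constructor
  · intro h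
    exact ⟨fun p hp => h p (List.mem_append_left _ hp),
      fun p hp => h p (List.mem_append_right _ hp)⟩
  · rintro ⟨h1, h2⟩ p hp
    rcases List.mem_append.1 hp with h | h
    · exact h1 p h
    · exact h2 p h

private theorem ins_reverse {a : ℤ} {l : List P3} : InS M a l.reverse ↔ InS M a l := by
  unfold InS
  simp only [List.mem_reverse]

/-- One block. -/
private theorem ins_glu {x : SS} {l : List P3} {π : PP} :
    InS M (x + DD π).2.1 (glu (pr x) l π) ↔ InS M x.2.1 l ∧ Ins M x π := by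
  have e1 : (x + DD π).2.1 + -(π.1.sum.2.1) = x.2.1 := by
    simp only [DD, Prod.snd_add, Prod.fst_add]
    ring
  have e2 : InS M x.2.1 (sdB (pr x) π) ↔ InS M x.2.2 (wk (0, 0, 1) π.2) := by
    unfold sdB
    rw [ins_reverse]
    have e3 : wk ((pr x).1, (pr x).2, 1) π.2 =
        (wk (0, 0, 1) π.2).map (· + ((pr x).1, (pr x).2, 0)) := by
      rw [map_wk]
      congr 1
      simp
    rw [e3, ins_map]
    have e4 : x.2.1 + (((pr x).1, (pr x).2, 0) : P3).2.1 = x.2.2 := by
      simp only [pr]
      ring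
    rw [e4]
  unfold glu
  rw [ins_map]
  have e5 : (x + DD π).2.1 + ((-(π.1.sum.1), -(π.1.sum.2.1), -(hgt π)) : P3).2.1 = x.2.1 := e1
  rw [e5, ins_append, ins_append, e2]
  unfold Ins sdA
  tauto

/-- SC26. -/
theorem ins_gl {x : SS} {l : List P3} {s : List PP} (hs : KTop.GC (pr x) s)
    (hl : Lower 0 0 (pr x) l) :
    InS M (ed x s).2.1 (gl (pr x) l s) ↔ InS M x.2.1 l ∧ GC M x s := by
  induction s generalizing x l with
  | nil =>
    rw [ed_nil]
    change InS M x.2.1 l ↔ InS M x.2.1 l ∧ Al M x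
    constructor
    · intro h
      refine ⟨h, hs, ?_, ?_⟩
      · have h1 := h _ (List.mem_of_getLast? hl.last)
        simpa using h1
      · have h1 := h _ (List.mem_of_mem_head? (by rw [hl.head]; rfl))
        simpa [pr] using h1
    · exact fun h => h.1
  | cons π s ih =>
    have hs2 : KTop.GC (pr (x + DD π)) s := by
      rw [pr_add_DD]
      exact hs.2
    have hl2 : Lower 0 0 (pr (x + DD π)) (glu (pr x) l π) := by
      rw [pr_add_DD]
      exact KTop.lower_glu hs.1 hl
    have h1 := ih hs2 hl2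
    rw [pr_add_DD, ins_glu] at h1
    rw [ed_cons]
    change InS M (ed (x + DD π) s).2.1 (gl (pr x + dsp π) (glu (pr x) l π) s) ↔ _
    rw [h1]
    constructor
    · rintro ⟨⟨h2, h3⟩, h4⟩
      exact ⟨h2, ⟨hs.1, h3⟩, h4⟩
    · rintro ⟨h2, ⟨_, h3⟩, h4⟩
      exact ⟨⟨h2, h3⟩, h4⟩

end Pool.Agent.KSC
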