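import Pool.Agent.KSC.Path

/-! SC9: replacing gaps by paths.

PROOF. As `KComp/Kern.lean`, with `uc_append`, `ed_append` of `KSC/Basic.lean` and `KComp.ww_append`. -/

set_option autoImplicit false

open Pool.Agent.LK
open scoped ENNReal

namespace Pool.Agent.KSC

open Pool.Agent.KTube Pool.Agent.KRing Pool.Agent.KLog

open Pool.Agent.KAsym (ln)
open Pool.Agent.KComp (ww)

variable {M : ℕ} {y z : ℝ} {v w u : SS}

theorem kn_pre (h : Cr M y z) (hv : Al M v) (hu : Al M (v + u)) (n : ℕ) (w : SS) :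
    KN M y z n (v + u) w ≤ 40 ^ mm u * KN M y z (n + lam z u) v w := by
  sorry

theorem kn_app (h : Cr M y z) (hw : Al M w) (hu : Al M (w + u)) (n : ℕ) (v : SS) :
    KN M y z n v w ≤ 40 ^ mm u * KN M y z (n + lam z u) v (w + u) := by
  sorry

open Classical in
/-- SC9: **A gap at an arbitrary place.** -/
theorem kn_mark (h : Cr M y z) (u : SS) (n : ℕ) (v w : SS) :
    ∑' x : SS, (if Al M x ∧ Al M (x + u) then
      ∑ p ∈ Finset.HasAntidiagonal.antidiagonal n, KN M y z p.1 v x * KN M y z p.2 (x + u) w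
      else 0) ≤
      40 ^ mm u * ((n + lam z u + 1 : ℕ) : ℝ≥0∞) * KN M y z (n + lam z u) v w := by
  sorry

end Pool.Agent.KSC
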