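import Pool.Agent.KSC.Basic
import Pool.Agent.KComp.Marks

/-! The type of a polygon whose knotted blocks are far from the origin depends only on their words. -/

set_option autoImplicit false

open Pool.Agent.LK
open scoped ENNReal

namespace Pool.Agent.KSC

open Pool.Agent.KTube Pool.Agent.KRing Pool.Agent.KLog
open Pool.Agent.KTop (TypeN)

variable {M : ℕ} {v v' : SS} {π : PP}

/-- **The type of a polygon whose marks are far from the origin.** -/
theorem type_far {T : Finset (Sym2 P3) → Prop} (hT : TypeClosed T) (x : CS M) (h1 : UH x.1.1)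
    (h2 : UH x.1.2.2) (hf : ∀ m ∈ mkA x, nh m.2 < nrm (pr m.1)) :
    T (pol x) ↔ TypeN T ((mkA x).map Prod.snd) := by
  have h := KComp.type_far hT (fg x) h1 h2 (by
    intro m hm
    rw [mkA_fg] at hm
    obtain ⟨m', hm', rfl⟩ := List.mem_map.1 hm
    exact hf m' hm')
  rw [pol_fg, mkA_fg, List.map_map] at h
  exact h

/-- Far from the origin `KS` depends only on the heights. -/
theorem ks_far (h : nh π < nrm (pr v)) (h' : nh π < nrm (pr v')) (hv : v.2 = v'.2) :
    KS M v π ↔ KS M v' π := by
  have key : ∀ {v v' : SS}, nh π < nrm (pr v) → nh π < nrm (pr v') → v.2 = v'.2 →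
      KS M v π → KS M v' π := by
    intro v v' h h' hv hk
    have h1 := (KComp.kn_far h h').1 hk.kn
    exact ⟨⟨h1.1, (ins_congr hv).1 hk.1.2⟩, h1.2⟩
  exact ⟨key h h' hv, key h' h hv.symm⟩

end Pool.Agent.KSC
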