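import Pool.Agent.KSC.Sy
import Pool.Agent.KComp.Seqs

/-! SC5: combinatorics of tuples in a chain.

PROOF. As `KComp/TupC.lean` (`tup_le`, `tup_eq`, `occ_take`), with arbitrary properties. `tup_eq`: both sides satisfy the
same recursion in the first element of the list (`tq as (i + 1) (m + 1)` is `tq` at `i`, `m` of the shifted
sequences, private lemma `tq_shift` there; `sq A v (p :: s) (j + 1) = sq A (v + D p) s j`). -/

set_option autoImplicit false

namespace Pool.Agent.KSC

open Pool.Agent.KComp (tq)

namespace Sy

variable {S P H : Type} [AddCommGroup S] (Y : Sy S P H)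

open Classical in
/-- The indicators of the places of the chain with the property `A`. -/
noncomputable def sq (A : S → P → Prop) : S → List P → ℕ → ℝ
  | _, [], _ => 0
  | v, p :: _, 0 => if A v p then 1 else 0
  | v, p :: s, j + 1 => sq A (v + Y.D p) s j

theorem sq_mem (A : S → P → Prop) (v : S) (s : List P) (j : ℕ) :
    0 ≤ Y.sq A v s j ∧ Y.sq A v s j ≤ 1 := by
  induction s generalizing v j with
  | nil =>
    simp [sq]
  | cons p s ih =>
    cases j with
    | zero =>
      unfold sq
      split_ifs <;> norm_num
    | succ j =>
      unfold sq
      exact ih _ _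

theorem tup_le (s : List P) (As : List (S → P → Prop)) (v : S) :
    Y.tup s As v ≤ s.length ^ As.length := by
  classical
  induction s generalizing As v with
  | nil =>
    unfold tup
    split_ifs with h
    · rw [h]
      simp
    · exact Nat.zero_le _
  | cons p s ih =>
    cases As with
    | nil =>
      unfold tup
      simp
    | cons A As =>
      unfold tup
      have h1 : (if A v p then Y.tup s As (v + Y.D p) else 0) ≤ s.length ^ As.length := by
        split_ifs
        · exact ih _ _
        · exact Nat.zero_le _
      have h2 := ih (A :: As) (v + Y.D p)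
      have h3 : s.length ^ As.length ≤ (s.length + 1) ^ As.length :=
        Nat.pow_le_pow_left (Nat.le_succ _) _
      simp only [List.length_cons, pow_succ] at h2 ⊢
      nlinarith [Nat.mul_le_mul_right (s.length + 1) h3]

theorem tup_one (s : List P) (A : S → P → Prop) (v : S) : Y.tup s [A] v = Y.occ A v s := by
  classical
  have h0 : ∀ (t : List P) (w : S), Y.tup t [] w = 1 := by
    intro t w
    cases t with
    | nil => simp [tup]
    | cons p t => simp [tup]
  induction s generalizing v with
  | nil => simp [tup, occ]
  | cons p s ih =>
    unfold tup occ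
    rw [ih, h0]

/-- The number of tuples of a shifted sequence. -/
private theorem tq_shift (as : List (ℕ → ℝ)) (i m : ℕ) :
    tq as (i + 1) (m + 1) = tq (as.map fun a j => a (j + 1)) i m := by
  induction as generalizing i with
  | nil => rfl
  | cons a as ih =>
    simp only [List.map_cons, tq]
    rw [← Finset.sum_Ico_add' (fun j => a j * tq as (j + 1) (m + 1)) i m 1]
    exact Finset.sum_congr rfl fun j _ => by rw [ih]

private theorem tq_cons (a : ℕ → ℝ) (as : List (ℕ → ℝ)) (m : ℕ) :
    tq (a :: as) 0 (m + 1) = a 0 * tq (as.map fun a j => a (j + 1)) 0 m +
      tq ((a :: as).map fun a j => a (j + 1)) 0 m := by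
  rw [← tq_shift (a :: as) 0 m]
  simp only [tq]
  rw [Finset.sum_eq_sum_Ico_succ_bot (Nat.succ_pos m), tq_shift]

private theorem map_shift (p : P) (s : List P) (As : List (S → P → Prop)) (v : S) :
    (As.map fun A => Y.sq A v (p :: s)).map (fun a j => a (j + 1)) =
      As.map fun A => Y.sq A (v + Y.D p) s := by
  rw [List.map_map]
  refine List.map_congr_left fun A _ => ?_
  funext j
  simp [sq]

theorem tup_eq (s : List P) (As : List (S → P → Prop)) (v : S) :
    (Y.tup s As v : ℝ) = tq (As.map fun A => Y.sq A v s) 0 s.length := by
  classical
  induction s generalizing As v with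
  | nil =>
    cases As with
    | nil => simp [tup, tq]
    | cons A As => simp [tup, tq]
  | cons p s ih =>
    cases As with
    | nil => simp [tup, tq]
    | cons A As =>
      have h1 := ih As (v + Y.D p)
      have h2 := ih (A :: As) (v + Y.D p)
      have e3 := Y.map_shift p s (A :: As) v
      rw [List.map_cons] at e3
      rw [List.map_cons, List.length_cons, tq_cons, e3, map_shift]
      unfold tup
      rw [Nat.cast_add, h2]
      congr 1
      by_cases hp : A v p
      · rw [if_pos hp, h1]
        simp [sq, hp]
      · rw [if_neg hp]
        simp [sq, hp]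

/-- The number of places in an initial segment. -/
theorem occ_take (s : List P) (A : S → P → Prop) (v : S) {j : ℕ} (hj : j ≤ s.length) :
    (Y.occ A v (s.take j) : ℝ) = ∑ i ∈ Finset.range j, Y.sq A v s i := by
  classical
  induction s generalizing v j with
  | nil =>
    have : j = 0 := by simpa using hj
    subst this
    simp [occ]
  | cons p s ih =>
    cases j with
    | zero => simp [occ]
    | succ j =>
      rw [List.take_succ_cons, Finset.sum_range_succ']
      have h1 := ih (v + Y.D p) (j := j) (by simpa using hj)
      unfold occ
      rw [Nat.cast_add, h1, add_comm]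
      simp only [sq]
      congr 1
      by_cases hp : A v p
      · simp [hp]
      · simp [hp]

end Sy

end Pool.Agent.KSC
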