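import Pool.Agent.KSC.Sml
import Pool.Agent.KSC.TupC

/-! SC6: the number of tuples.

PROOF. Adapt `KComp/Tup.lean`. Let `q = As.length`. `q = 0`: `tup = 1`, and
`Y.sum (2k) 1 = Y.tot (2k)`, `≠ 0` for large `k`
(`hG`), `≠ ⊤` (`sum_fin`). Let `q ≥ 1`, `T x = tup x.1.2.1 (As.map Prod.fst) (pos x.1.1)`,
`X x = T x / (len x) ^ (q - 1)`.
`0 ≤ X x ≤ len x` by `tup_le` and `2 * length ≤ len`. On the chains with `len x = 2k` the function
`X` is `T / (2k) ^ (q - 1)`,
so it is enough to show that the mean of `X` divided by `2k` converges to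
`L = (∏ w) / (ℓ ^ q q!)`: `mean_lim`. For this we
show `Sml Y fun n x => ε n ≤ |X x - L n|` for every `ε > 0`. Let `0 < δ ≤ 1` be small and `n1`
large (depending on `ε`).
Outside `n < n1` (`sml_small`), `δ n ≤ |m - n / ℓ|` (`sml_len`) and the sets of `sml_pre` with `δ`
for the elements `a` of
`As` (`sml_union`, over `As.toFinset` or `Finset.univ : Finset (Fin As.length)`), where
`m = x.1.2.1.length ≤ n`: by `tup_eq`,
`occ_take` and `KComp.tq_lln` (with `δ n` instead of `δ`; `sq_mem`)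
`|T x - (∏ w) m ^ q / q!| ≤ C (δ n + 1) (n + 1) ^ (q - 1)`; and
`|m ^ q - (n / ℓ) ^ q| ≤ q n ^ (q - 1) |m - n / ℓ| ≤ q δ n ^ q` (`n / ℓ ≤ n`). Dividing by
`n ^ (q - 1)`:
`|X x - L n| ≤ C 2 ^ q (δ n + 1) + q δ n < ε n`, if `δ` is small and `n ≥ n1`. (The part of
`KComp/Tup.lean` about the
elements near the origin is not needed here.) -/

set_option autoImplicit false

open Filter Topology
open scoped ENNReal

namespace Pool.Agent.KSC

namespace Sy

variable {S P H : Type} [AddCommGroup S] {Y : Sy S P H} {ℓ : ℝ}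

private theorem tup_det (hS : Y.Ok ℓ) (As : List ((S → P → Prop) × ℝ))
    (hA : ∀ a ∈ As, 0 ≤ a.2 ∧ a.2 ≤ 1) (q : ℕ) (hq : As.length = q + 1) :
    ∃ K : ℝ, 0 ≤ K ∧ ∀ (δ : ℝ) (n : ℕ) (x : Y.Ch), 0 ≤ δ → 1 ≤ n → Y.len x = n →
      |(x.1.2.1.length : ℝ) - 1 / ℓ * n| ≤ δ * n →
      (∀ a ∈ As, ∀ j ≤ x.1.2.1.length,
        |(Y.occ a.1 (Y.pos x.1.1) (x.1.2.1.take j) : ℝ) - j * a.2| ≤ δ * n) →
      |(Y.tup x.1.2.1 (As.map Prod.fst) (Y.pos x.1.1) : ℝ) / (n : ℝ) ^ q -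
        (As.map Prod.snd).prod / (ℓ ^ (q + 1) * ((q + 1).factorial : ℝ)) * n| ≤
          K * (δ * n + 1) := by
  obtain ⟨C, hC, hlln⟩ := KComp.tq_lln (q + 1)
  refine ⟨C * 2 ^ q + (q + 1), by positivity, ?_⟩
  intro δ n x hδ hn hx hlen hpre
  have hell := hS.one_le
  have hell0 : (0 : ℝ) < ℓ := by linarith
  have hn1 : (1 : ℝ) ≤ (n : ℝ) := by exact_mod_cast hn
  have hn0 : (0 : ℝ) < (n : ℝ) := by linarith
  set s := x.1.2.1 with hs
  set v := Y.pos x.1.1 with hv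
  have hmn : s.length ≤ n := by
    have h0 : 2 * s.length ≤ Y.len x := two_length_le hS x
    rw [hx] at h0
    omega
  have hmn' : (s.length : ℝ) ≤ n := by exact_mod_cast hmn
  have hm0 : (0 : ℝ) ≤ (s.length : ℝ) := Nat.cast_nonneg _
  have hδn : 0 ≤ δ * n := mul_nonneg hδ hn0.le
  have h1 := hlln s.length (δ * n)
    (As.map fun a => Y.sq a.1 v s) (As.map Prod.snd) hδn
    (by rw [List.length_map, hq])
    (by
      rw [List.forall₂_map_left_iff, List.forall₂_map_right_iff, List.forall₂_same]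
      intro a ha
      refine ⟨fun j => Y.sq_mem a.1 v s j, (hA a ha).1, (hA a ha).2, fun i hi => ?_⟩
      have h2 := hpre a ha i hi
      rw [Y.occ_take s a.1 v hi] at h2
      rwa [mul_comm a.2 (i : ℝ)])
  have e0 : (As.map fun a => Y.sq a.1 v s) = (As.map Prod.fst).map fun A => Y.sq A v s := by
    rw [List.map_map]
    rfl
  rw [e0, ← Y.tup_eq s (As.map Prod.fst) v, Nat.add_sub_cancel] at h1
  set Pw := (As.map Prod.snd).prod with hPw
  have hP0 : 0 ≤ Pw := by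
    apply List.prod_nonneg
    intro a ha
    obtain ⟨b, hb, rfl⟩ := List.mem_map.mp ha
    exact (hA b hb).1
  have hP1 : Pw ≤ 1 := by
    rw [hPw]
    clear_value Pw
    clear hPw hP0 h1 hpre hq e0
    induction As with
    | nil => simp
    | cons b As ih =>
      rw [List.map_cons, List.prod_cons]
      have h3 : 0 ≤ (As.map Prod.snd).prod := by
        apply List.prod_nonneg
        intro a ha
        obtain ⟨c, hc, rfl⟩ := List.mem_map.mp ha
        exact (hA c (List.mem_cons_of_mem _ hc)).1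
      exact mul_le_one₀ (hA b List.mem_cons_self).2 h3
        (ih fun a ha => hA a (List.mem_cons_of_mem _ ha))
  have h4 : |(s.length : ℝ) ^ (q + 1) - (1 / ℓ * n) ^ (q + 1)| ≤
      ((q : ℝ) + 1) * (δ * n) * (n : ℝ) ^ q := by
    have h5 := abs_pow_sub_pow_le (s.length : ℝ) (1 / ℓ * n) (q + 1)
    rw [Nat.add_sub_cancel] at h5
    have h6 : max |(s.length : ℝ)| |1 / ℓ * n| ≤ n := by
      rw [abs_of_nonneg hm0, abs_of_nonneg (by positivity)]
      refine max_le hmn' ?_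
      have h7 : 1 / ℓ ≤ 1 := by
        rw [div_le_one hell0]
        linarith
      calc 1 / ℓ * n ≤ 1 * n := mul_le_mul_of_nonneg_right h7 hn0.le
        _ = n := one_mul _
    have h7 : (max |(s.length : ℝ)| |1 / ℓ * n|) ^ q ≤ (n : ℝ) ^ q :=
      pow_le_pow_left₀ (le_trans (abs_nonneg _) (le_max_left _ _)) h6 q
    have h8 : |(s.length : ℝ) - 1 / ℓ * n| * ((q + 1 : ℕ) : ℝ) ≤
        δ * n * ((q + 1 : ℕ) : ℝ) := mul_le_mul_of_nonneg_right hlen (Nat.cast_nonneg _)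
    have h9 := mul_le_mul h8 h7 (by positivity) (by positivity)
    refine h5.trans (h9.trans (le_of_eq ?_))
    push_cast
    ring
  have h5 : ((s.length : ℝ) + 1) ^ q ≤ 2 ^ q * (n : ℝ) ^ q := by
    rw [← mul_pow]
    exact pow_le_pow_left₀ (by positivity) (by linarith) q
  have hf : (1 : ℝ) ≤ ((q + 1).factorial : ℝ) := by
    exact_mod_cast Nat.factorial_pos (q + 1)
  have hf0 : (0 : ℝ) < ((q + 1).factorial : ℝ) := by linarith
  set T := (Y.tup s (As.map Prod.fst) v : ℝ) with hT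
  have hnq : (0 : ℝ) < (n : ℝ) ^ q := by positivity
  have e1 : T / (n : ℝ) ^ q - Pw / (ℓ ^ (q + 1) * ((q + 1).factorial : ℝ)) * n =
      (T - Pw * (1 / ℓ * n) ^ (q + 1) / ((q + 1).factorial : ℝ)) / (n : ℝ) ^ q := by
    rw [mul_pow, div_pow, one_pow]
    field_simp
    ring
  rw [e1, abs_div, abs_of_pos hnq, div_le_iff₀ hnq]
  have h6 : |Pw * (s.length : ℝ) ^ (q + 1) / ((q + 1).factorial : ℝ) -
      Pw * (1 / ℓ * n) ^ (q + 1) / ((q + 1).factorial : ℝ)| ≤
        ((q : ℝ) + 1) * (δ * n) * (n : ℝ) ^ q := by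
    have e2 : Pw * (s.length : ℝ) ^ (q + 1) / ((q + 1).factorial : ℝ) -
      Pw * (1 / ℓ * n) ^ (q + 1) / ((q + 1).factorial : ℝ) =
        Pw / ((q + 1).factorial : ℝ) * ((s.length : ℝ) ^ (q + 1) - (1 / ℓ * n) ^ (q + 1)) := by
      ring
    have h7 : 0 ≤ Pw / ((q + 1).factorial : ℝ) := by positivity
    have h8 : Pw / ((q + 1).factorial : ℝ) ≤ 1 := by
      rw [div_le_one hf0]
      linarith
    rw [e2, abs_mul, abs_of_nonneg h7]
    calc Pw / ((q + 1).factorial : ℝ) * |(s.length : ℝ) ^ (q + 1) - (1 / ℓ * n) ^ (q + 1)|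
        ≤ 1 * |(s.length : ℝ) ^ (q + 1) - (1 / ℓ * n) ^ (q + 1)| :=
          mul_le_mul_of_nonneg_right h8 (abs_nonneg _)
      _ ≤ _ := by rw [one_mul]; exact h4
  have h8 : |T - Pw * (s.length : ℝ) ^ (q + 1) / ((q + 1).factorial : ℝ)| ≤
      C * (δ * n + 1) * (2 ^ q * (n : ℝ) ^ q) :=
    h1.trans (mul_le_mul_of_nonneg_left h5 (by positivity))
  have e3 : T - Pw * (1 / ℓ * n) ^ (q + 1) / ((q + 1).factorial : ℝ) =
      (T - Pw * (s.length : ℝ) ^ (q + 1) / ((q + 1).factorial : ℝ)) +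
      (Pw * (s.length : ℝ) ^ (q + 1) / ((q + 1).factorial : ℝ) -
        Pw * (1 / ℓ * n) ^ (q + 1) / ((q + 1).factorial : ℝ)) := by ring
  rw [e3]
  refine (abs_add_le _ _).trans ?_
  have h9 : ((q : ℝ) + 1) * (δ * n) * (n : ℝ) ^ q ≤ ((q : ℝ) + 1) * (δ * n + 1) * (n : ℝ) ^ q := by
    refine mul_le_mul_of_nonneg_right ?_ hnq.le
    exact mul_le_mul_of_nonneg_left (by linarith) (by positivity)
  calc |T - Pw * (s.length : ℝ) ^ (q + 1) / ((q + 1).factorial : ℝ)| +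
      |Pw * (s.length : ℝ) ^ (q + 1) / ((q + 1).factorial : ℝ) -
        Pw * (1 / ℓ * n) ^ (q + 1) / ((q + 1).factorial : ℝ)| ≤
        C * (δ * n + 1) * (2 ^ q * (n : ℝ) ^ q) +
        ((q : ℝ) + 1) * (δ * n + 1) * (n : ℝ) ^ q := by
          linarith
    _ = (C * 2 ^ q + (q + 1)) * (δ * n + 1) * (n : ℝ) ^ q := by ring

private theorem tup_sml (hS : Y.Ok ℓ) (As : List ((S → P → Prop) × ℝ))
    (hA : ∀ a ∈ As, Y.Tlt (ind a.1) a.2 ∧ 0 ≤ a.2 ∧ a.2 ≤ 1) (q : ℕ) (hq : As.length = q + 1)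
    {ε : ℝ} (hε : 0 < ε) :
    Sml Y fun n x => ε * n ≤
      |(Y.tup x.1.2.1 (As.map Prod.fst) (Y.pos x.1.1) : ℝ) / (Y.len x : ℝ) ^ q -
        (As.map Prod.snd).prod / (ℓ ^ (q + 1) * ((q + 1).factorial : ℝ)) * n| := by
  classical
  obtain ⟨K, hK, hdet⟩ := tup_det hS As (fun a ha => (hA a ha).2) q hq
  set δ : ℝ := ε / (2 * (K + 1)) with hδ
  have hδ0 : 0 < δ := by positivity
  obtain ⟨n1, hn1⟩ := exists_nat_gt (2 * K / ε + 1)
  have hB := ((sml_small hS n1).or (sml_len hS hδ0)).or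
    (sml_union As.toFinset (B := fun a n x => ∃ j ≤ x.1.2.1.length, δ * n ≤
      |(Y.occ a.1 (Y.pos x.1.1) (x.1.2.1.take j) : ℝ) - j * a.2|)
      fun a ha => sml_pre hS (hA a (List.mem_toFinset.mp ha)).1 hδ0)
  refine hB.mono ?_
  intro n x hx hBx
  by_contra hcon
  push Not at hcon
  obtain ⟨⟨h1, h2⟩, h4⟩ := hcon
  have hn1' : (n1 : ℝ) ≤ n := by exact_mod_cast h1
  have hKε : 0 ≤ 2 * K / ε := by positivity
  have hn : 1 ≤ n := by
    have : (1 : ℝ) ≤ (n : ℝ) := by linarith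
    exact_mod_cast this
  have h5 := hdet δ n x hδ0.le hn hx h2.le (fun a ha j hj =>
    (h4 a (List.mem_toFinset.mpr ha) j hj).le)
  rw [← hx] at h5 hBx
  have h6 := hBx.trans h5
  rw [hx] at h6
  have h7 : K * (δ * n) ≤ ε / 2 * n := by
    have h8 : K * δ ≤ ε / 2 := by
      rw [hδ, ← mul_div_assoc, div_le_div_iff₀ (by positivity) (by positivity)]
      nlinarith
    have h9 : (0 : ℝ) ≤ n := Nat.cast_nonneg n
    nlinarith
  have h8 : K < ε / 2 * n := by
    have h9 : 2 * K / ε < n := by linarith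
    rw [div_lt_iff₀ hε] at h9
    linarith
  nlinarith

/-- **The number of tuples.** -/
theorem tup_lim (hS : Y.Ok ℓ) (hG : Y.Gr) (As : List ((S → P → Prop) × ℝ))
    (hA : ∀ a ∈ As, Y.Tlt (ind a.1) a.2 ∧ 0 ≤ a.2 ∧ a.2 ≤ 1) :
    Tendsto (fun k : ℕ => (Y.sum (2 * k) fun x =>
      (Y.tup x.1.2.1 (As.map Prod.fst) (Y.pos x.1.1) : ℝ≥0∞)).toReal /
      (((2 * k : ℕ) : ℝ) ^ As.length * (Y.tot (2 * k)).toReal)) atTop
      (𝓝 ((As.map Prod.snd).prod / (ℓ ^ As.length * (As.length.factorial : ℝ)))) := by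
  rcases hq : As.length with _ | q
  · have h0 : As = [] := List.length_eq_zero_iff.mp hq
    subst h0
    have ht : ∀ (s : List P) (v : S), Y.tup s ([] : List (S → P → Prop)) v = 1 := by
      intro s v
      cases s <;> simp [tup]
    have hlim : ((([] : List ((S → P → Prop) × ℝ)).map Prod.snd).prod /
        (ℓ ^ 0 * (Nat.factorial 0 : ℝ))) = 1 := by
      simp
    rw [hlim]
    refine (tendsto_const_nhds (x := (1 : ℝ))).congr' ?_
    filter_upwards [hG 1 one_pos] with k hk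
    have hT : Y.tot (2 * k) ≠ ⊤ := sum_fin hS (2 * k) (C := 1) (fun x => by simp)
    have hT0 : Y.tot (2 * k) ≠ 0 := by
      intro h
      rw [h] at hk
      have h1 : (0 : ℝ≥0∞) < ENNReal.ofReal (Real.exp (-1 * k)) :=
        ENNReal.ofReal_pos.mpr (Real.exp_pos _)
      exact absurd hk (not_le.mpr h1)
    have e : (Y.sum (2 * k) fun x => (Y.tup x.1.2.1
        (([] : List ((S → P → Prop) × ℝ)).map Prod.fst) (Y.pos x.1.1) : ℝ≥0∞)) =
        Y.tot (2 * k) := by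
      unfold Sy.tot
      congr 1
      funext x
      rw [List.map_nil, ht, Nat.cast_one]
    rw [e, pow_zero, one_mul]
    exact (div_self (ENNReal.toReal_ne_zero.mpr ⟨hT0, hT⟩)).symm
  · have h := mean_lim hS hG
      (X := fun x => (Y.tup x.1.2.1 (As.map Prod.fst) (Y.pos x.1.1) : ℝ) / (Y.len x : ℝ) ^ q)
      (L := (As.map Prod.snd).prod / (ℓ ^ (q + 1) * ((q + 1).factorial : ℝ)))
      (fun x => by positivity) (fun x => ?_) (fun ε hε => tup_sml hS As hA q hq hε)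
    · refine h.congr fun k => ?_
      have e : (Y.sum (2 * k) fun x => ENNReal.ofReal
          ((Y.tup x.1.2.1 (As.map Prod.fst) (Y.pos x.1.1) : ℝ) / (Y.len x : ℝ) ^ q)) =
          (Y.sum (2 * k) fun x => (Y.tup x.1.2.1 (As.map Prod.fst) (Y.pos x.1.1) : ℝ≥0∞)) *
            ENNReal.ofReal ((((2 * k : ℕ) : ℝ) ^ q)⁻¹) := by
        unfold Sy.sum
        rw [← ENNReal.tsum_mul_right]
        refine tsum_congr fun x => ?_
        beta_reduce
        rw [x.2, div_eq_mul_inv, ENNReal.ofReal_mul (Nat.cast_nonneg _), ENNReal.ofReal_natCast,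
          mul_assoc]
      rw [e, ENNReal.toReal_mul, ENNReal.toReal_ofReal (by positivity), div_eq_mul_inv,
        div_eq_mul_inv, mul_inv, mul_inv, pow_succ, mul_inv]
      ring
    · apply div_le_of_le_mul₀ (by positivity) (Nat.cast_nonneg _)
      have h1 := Y.tup_le x.1.2.1 (As.map Prod.fst) (Y.pos x.1.1)
      rw [List.length_map, hq] at h1
      have h3 : x.1.2.1.length ≤ Y.len x := by
        have := two_length_le hS x
        omega
      have h4 : Y.tup x.1.2.1 (As.map Prod.fst) (Y.pos x.1.1) ≤ Y.len x * Y.len x ^ q := by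
        refine h1.trans ?_
        rw [← pow_succ']
        exact Nat.pow_le_pow_left h3 _
      exact_mod_cast h4

end Sy

end Pool.Agent.KSC
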