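import Pool.Agent.KSC.NearOne
import Pool.Agent.KSC.Bound
import Pool.Agent.KSC.Tup

/-! SC21: gaps near the origin are negligible.

PROOF. As `KComp/NearL.lean`. The mean of `oc (fun v _ => nrm (pr v) ≤ R)` divided by `2k tot (2k)` converges to `0`: this is
`tup_lim` for the list `[((fun v _ => nrm (pr v) ≤ R), 0)]` with `h.near R` and `tup_one`; `tot (2k) / (2k tot (2k)) → 0`;
`nT_shift`, `h.odd`, `Bd.fin`, `nest_mid`, `near_one`. -/

set_option autoImplicit false

open Pool.Agent.LK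
open Filter Topology
open scoped ENNReal

namespace Pool.Agent.KSC

open Pool.Agent.KTube Pool.Agent.KRing Pool.Agent.KLog

variable {M : ℕ} {y z ℓ : ℝ}

/-- The number of elements near the origin, plus one. -/
private noncomputable def ocp (M : ℕ) (y z : ℝ) (R : ℕ) (x : (sys M y z).Ch) : ℝ≥0∞ :=
  (((sys M y z).oc (fun v _ => nrm (pr v) ≤ R) x + 1 : ℕ) : ℝ≥0∞)

private theorem sum_ocp_le (h : Bd M y z ℓ) (R n : ℕ) :
    (sys M y z).sum n (ocp M y z R) ≤ (sys M y z).tot n * ((n + 1 : ℕ) : ℝ≥0∞) := by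
  unfold Sy.tot Sy.sum
  rw [← ENNReal.tsum_mul_right]
  refine ENNReal.tsum_le_tsum fun x => ?_
  rw [mul_one]
  refine mul_le_mul_right ?_ _
  unfold ocp
  have h1 := Sy.occ_le (Y := sys M y z) (fun v _ => nrm (pr v) ≤ R) ((sys M y z).pos x.1.1.1)
    x.1.1.2.1
  have h2 := Sy.two_length_le h.ok x.1
  have h3 := x.2
  have h4 : (sys M y z).oc (fun v _ => nrm (pr v) ≤ R) x.1 + 1 ≤ n + 1 := by
    unfold Sy.oc
    omega
  exact_mod_cast h4

private theorem sum_ocp_fin (h : Bd M y z ℓ) (R n : ℕ) :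
    (sys M y z).sum n (ocp M y z R) ≠ ⊤ :=
  ne_top_of_le_ne_top (ENNReal.mul_ne_top (h.fin n) (ENNReal.natCast_ne_top _))
    (sum_ocp_le h R n)

private theorem sum_ocp_zero (h : Bd M y z ℓ) (R n : ℕ) (h0 : (sys M y z).tot n = 0) :
    (sys M y z).sum n (ocp M y z R) = 0 := by
  have h1 := sum_ocp_le h R n
  rw [h0, zero_mul] at h1
  exact le_antisymm h1 zero_le

private theorem sum_ocp_eq (R n : ℕ) : (sys M y z).sum n (ocp M y z R) =
    (sys M y z).sum n (fun x => ((sys M y z).oc (fun v _ => nrm (pr v) ≤ R) x : ℝ≥0∞)) +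
      (sys M y z).tot n := by
  unfold Sy.tot Sy.sum
  rw [← ENNReal.tsum_add]
  refine tsum_congr fun x => ?_
  unfold ocp
  push_cast
  rw [mul_add]

private theorem lln_near (h : Bd M y z ℓ) (R : ℕ) :
    Tendsto (fun k : ℕ => ((sys M y z).sum (2 * k)
      (fun x => ((sys M y z).oc (fun v _ => nrm (pr v) ≤ R) x : ℝ≥0∞))).toReal /
        nT M y z (2 * k)) atTop (𝓝 0) := by
  have h1 := Sy.tup_lim h.ok h.gr [((fun (v : SS) (_ : PP) => nrm (pr v) ≤ R), (0 : ℝ))]
    (by
      intro a ha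
      rw [List.mem_singleton.1 ha]
      exact ⟨h.near R, le_rfl, zero_le_one⟩)
  simp only [List.map_cons, List.map_nil, Sy.tup_one, List.length_cons, List.length_nil,
    zero_add, pow_one, List.prod_cons, List.prod_nil, mul_one, zero_div] at h1
  exact h1

private theorem ocp_lim (h : Bd M y z ℓ) (R : ℕ) :
    Tendsto (fun k : ℕ => ((sys M y z).sum (2 * k) (ocp M y z R)).toReal /
      nT M y z (2 * k)) atTop (𝓝 0) := by
  have h1 := lln_near h R
  have hinv : Tendsto (fun k : ℕ => 1 / ((2 * k : ℕ) : ℝ)) atTop (𝓝 0) := by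
    have h3 : Tendsto (fun k : ℕ => ((2 * k : ℕ) : ℝ)) atTop atTop :=
      tendsto_natCast_atTop_atTop.comp (tendsto_id.const_mul_atTop' (by norm_num))
    refine h3.inv_tendsto_atTop.congr fun k => ?_
    rw [Pi.inv_apply, one_div]
  have h2 := h1.add hinv
  rw [add_zero] at h2
  refine squeeze_zero (fun k => ?_) (fun k => ?_) h2
  · unfold nT
    positivity
  · have h3 := sum_ocp_fin h R (2 * k)
    rw [sum_ocp_eq] at h3 ⊢
    rw [ENNReal.add_ne_top] at h3
    rw [ENNReal.toReal_add h3.1 h3.2, add_div]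
    unfold nT
    refine add_le_add le_rfl ?_
    rcases eq_or_ne ((sys M y z).tot (2 * k)).toReal 0 with h0 | h0
    · rw [h0, mul_zero, div_zero]
      positivity
    · rw [mul_comm ((2 * k : ℕ) : ℝ), ← div_div, div_self h0]

private theorem pm_fin (qs : List ((SS → Prop) × SS)) : Pm qs ≠ ⊤ := by
  unfold Pm
  induction qs with
  | nil => simp
  | cons q qs ih =>
    rw [List.map_cons, List.prod_cons]
    exact ENNReal.mul_ne_top (ENNReal.pow_ne_top (by norm_num)) ih

/-- SC21. -/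
theorem near_l (h : Bd M y z ℓ) {qs1 qs2 : List ((SS → Prop) × SS)}
    {q0 : (SS → Prop) × SS} {R : ℕ} (hqs : GapOk M (qs1 ++ q0 :: qs2))
    (hR : ∀ v, q0.1 v → nrm (pr v) ≤ R) (a : ℕ) :
    Tendsto (fun k : ℕ => (TQ M y z UH (qs1 ++ q0 :: qs2) (2 * k - a)).toReal /
      (((2 * k : ℕ) : ℝ) ^ (qs1.length + qs2.length + 1) *
        ((sys M y z).tot (2 * k)).toReal)) atTop (𝓝 0) := by
  have hgap : GapOk M (qs1 ++ qs2) := fun p hp => hqs p (by
    rcases List.mem_append.1 hp with h1 | h1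
    · exact List.mem_append_left _ h1
    · exact List.mem_append_right _ (List.mem_cons_of_mem _ h1))
  have hgap0 : GapOk M [q0] := fun p hp => hqs p (by
    rw [List.mem_singleton.1 hp]
    exact List.mem_append_right _ List.mem_cons_self)
  set q : ℕ := qs1.length + qs2.length with hq
  set L : ℕ := La z (qs1 ++ qs2) with hL
  set A : ℕ := L + lam z q0.2 with hA
  set C : ℝ≥0∞ := Pm (qs1 ++ qs2) * 40 ^ mm q0.2 with hC
  have hCfin : C ≠ ⊤ := ENNReal.mul_ne_top (pm_fin _) (ENNReal.pow_ne_top (by norm_num))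
  have hb : ∀ k : ℕ, a ≤ 2 * k → TQ M y z UH (qs1 ++ q0 :: qs2) (2 * k - a) ≤
      C * ((2 * k - a + L + 1 : ℕ) : ℝ≥0∞) ^ q *
        (sys M y z).sum (2 * k + A - a) (ocp M y z R) := by
    intro k hk
    have h1 := nest_mid h.cr UH q0 hgap (2 * k - a)
    have h2 := near_one h.cr hgap0 hR (2 * k - a + L)
    have h3 : 2 * k - a + L + lam z q0.2 = 2 * k + A - a := by omega
    rw [h3] at h2
    refine (h1.trans (mul_le_mul_right h2 _)).trans (le_of_eq ?_)
    rw [hC]
    have h4 : (sys M y z).sum (2 * k + A - a) (ocp M y z R) = (sys M y z).sum (2 * k + A - a)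
      fun x => (((sys M y z).oc (fun v _ => nrm (pr v) ≤ R) x + 1 : ℕ) : ℝ≥0∞) := rfl
    rw [h4]
    ring
  rcases Nat.even_or_odd (A + a) with hev | hodd
  · have hr := nT_shift h hev
    have hφ : Tendsto (fun k : ℕ => (2 * k + A - a) / 2) atTop atTop := by
      refine tendsto_atTop_mono' _ ?_ (tendsto_sub_atTop_nat a)
      filter_upwards [eventually_ge_atTop a] with k hk
      omega
    have hu := (ocp_lim h R).comp hφ
    have hu' : Tendsto (fun k : ℕ => ((sys M y z).sum (2 * k + A - a) (ocp M y z R)).toReal /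
        nT M y z (2 * k + A - a)) atTop (𝓝 0) := by
      refine hu.congr' ?_
      filter_upwards [eventually_ge_atTop a] with k hk
      have h5 : 2 * ((2 * k + A - a) / 2) = 2 * k + A - a := by
        obtain ⟨r, hr⟩ := hev
        omega
      simp only [Function.comp]
      rw [h5]
    have hlim := (hu'.mul hr).const_mul (C.toReal * ((L : ℝ) + 2) ^ q)
    rw [zero_mul, mul_zero] at hlim
    refine squeeze_zero' (Eventually.of_forall fun k => by positivity) ?_ hlim
    filter_upwards [eventually_ge_atTop a, eventually_ge_atTop 1,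
      hr.eventually_ne one_ne_zero] with k hk hk1 hne
    rw [div_ne_zero_iff] at hne
    obtain ⟨hne1, hne2⟩ := hne
    have h6 := ENNReal.toReal_mono (ENNReal.mul_ne_top (ENNReal.mul_ne_top hCfin
      (ENNReal.pow_ne_top (ENNReal.natCast_ne_top _))) (sum_ocp_fin h R _)) (hb k (by omega))
    rw [ENNReal.toReal_mul, ENNReal.toReal_mul, ENNReal.toReal_pow, ENNReal.toReal_natCast] at h6
    set s : ℝ := ((sys M y z).sum (2 * k + A - a) (ocp M y z R)).toReal with hs
    set N : ℝ := nT M y z (2 * k + A - a) with hN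
    have hs0 : 0 ≤ s := ENNReal.toReal_nonneg
    have hnT : nT M y z (2 * k) = ((2 * k : ℕ) : ℝ) * ((sys M y z).tot (2 * k)).toReal := rfl
    have hk0 : ((2 * k : ℕ) : ℝ) ≠ 0 := by positivity
    have ht0 : ((sys M y z).tot (2 * k)).toReal ≠ 0 := by
      rw [hnT] at hne2
      exact (mul_ne_zero_iff.1 hne2).2
    have h7 : ((2 * k - a + L + 1 : ℕ) : ℝ) ≤ ((L : ℝ) + 2) * ((2 * k : ℕ) : ℝ) := by
      have h8 : 2 * k - a + L + 1 ≤ (L + 2) * (2 * k) := by
        have : 2 * k - a + L + 1 ≤ 2 * k + (L + 1) := by omega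
        nlinarith
      exact_mod_cast h8
    have h9 : ((2 * k - a + L + 1 : ℕ) : ℝ) ^ q ≤ ((L : ℝ) + 2) ^ q * ((2 * k : ℕ) : ℝ) ^ q := by
      rw [← mul_pow]
      exact pow_le_pow_left₀ (Nat.cast_nonneg _) h7 q
    have h10 : (TQ M y z UH (qs1 ++ q0 :: qs2) (2 * k - a)).toReal ≤
        C.toReal * (((L : ℝ) + 2) ^ q * ((2 * k : ℕ) : ℝ) ^ q) * s := by
      refine h6.trans ?_
      gcongr
    refine (div_le_div_of_nonneg_right h10 (by positivity)).trans (le_of_eq ?_)
    rw [hnT, pow_succ]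
    field_simp
  · have hz : (fun _ : ℕ => (0 : ℝ)) =ᶠ[atTop] fun k : ℕ =>
        (TQ M y z UH (qs1 ++ q0 :: qs2) (2 * k - a)).toReal /
      (((2 * k : ℕ) : ℝ) ^ (q + 1) * ((sys M y z).tot (2 * k)).toReal) := by
      filter_upwards [eventually_ge_atTop a] with k hk
      have h1 := hb k (by omega)
      have h2 : Odd (2 * k + A - a) := by
        obtain ⟨r, hr⟩ := hodd
        exact ⟨k + r - a, by omega⟩
      rw [sum_ocp_zero h R _ (h.odd _ h2), mul_zero] at h1
      rw [le_antisymm h1 zero_le, ENNReal.toReal_zero, zero_div]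
    exact tendsto_const_nhds.congr' hz

end Pool.Agent.KSC
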