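import Pool.Agent.KSC.MarkId
import Pool.Agent.KSC.Marks
import Pool.Agent.KSC.FarL
import Pool.Agent.KSC.NearL
import Pool.Agent.KComp.WordL

/-! SC23: the limit for the chains with given short marks.

PROOF. As `KComp/WordL.lean`, with one additional sum over the heights at which the marks stand.
`geo_parity`: `KComp.geo_parity` and `nr (DD π) ≡ nrm (dsp π) mod 2`, or directly: the parity of
the number of steps of each
strand is the parity of the sum of its three coordinates.
`word_lim`: fix `L`, `N = L.length`, and let `R` be at least `nh π` and `nr (DD π)` for all `π ∈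
L`. Put `a = ∑ ln π`. For `2k ≥ a`
split the chains `x` with the words `L` and unknotted caps: (near) some mark has `nrm (pr m.1) ≤
R`: at most the sum over
`i < N` of the weight of the chains with `Mat (mkA x) (L with the property nrm (pr v) ≤ R at the
place i, True at the others)`;
by `mark_id` and `near_l` (`gapOk_gaps`) divided by `(2k)^N tot (2k)` it converges to `0`. (far)
all marks have
`R < nrm (pr m.1)`: by `type_far`, `T (pol x) ↔ TypeN T L`. If not `TypeN T L` this part is `0`.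
Otherwise it is the sum over the
functions `σ : Fin N → II` (pairs of heights between `0` and `M`, finitely many: `Finset.Icc 0 M
×ˢ Finset.Icc 0 M`; every mark has
such heights since `KS M m.1 m.2`) of `SA (UH, UH, Mat (mkA x) (the list of (fun v => R < nrm (pr
v) ∧ v.2 = σ r, π_r)))`,
which by `mark_id` is `ww L * TQ UH (gaps ..) (2k - a)`, the gaps being `(fun v => (R < nrm (pr v)
∧ v.2 = σ r) ∧ KS M v π_r, DD π_r)`.
By `ks_far` for each `r` either `KS M v π_r` for all such `v` or for none. If for all `r`, the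
gaps are those of `far_l`
(`KS.al`, `KS.al'` give the conditions `Rg`; there are such `v`), and `far_l` gives a positive
limit. If for some `r`
none, then `TQ .. = 0`.
POSITIVITY. If `x0` is a chain as in the last hypothesis, with the marks `m_r`, then `TypeN T L`
by `type_far`, and for
`σ r = m_r.1.2` all `KS M v π_r` hold for `v.2 = σ r`, `R < nrm (pr v)` (`ks_far`; `nh π_r < nrm
(pr m_r.1)`), so one of the
summands has a positive limit; the others are nonnegative. -/

set_option autoImplicit false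

open Pool.Agent.LK
open Filter Topology
open scoped ENNReal

namespace Pool.Agent.KSC

open Pool.Agent.KTube Pool.Agent.KRing Pool.Agent.KLog

open Pool.Agent.KAsym (ln)
open Pool.Agent.KComp (ww ww_nil ww_cons)
open Pool.Agent.KTop (TypeN)

variable {M : ℕ} {y z ℓ : ℝ}

/-! ### Parity -/

private theorem steps_par {s : List P3} (h : Steps s) :
    ((s.length : ℤ) + s.sum.1 + s.sum.2.1 + s.sum.2.2) % 2 = 0 := by
  induction s with
  | nil => simp
  | cons d s ih =>
    obtain ⟨hd, hs⟩ := h.cons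
    have h1 := ih hs
    rw [List.sum_cons, List.length_cons]
    simp only [Prod.fst_add, Prod.snd_add]
    push_cast
    rcases step_cases hd with rfl | rfl | rfl | rfl | rfl | rfl <;> simp only <;> omega

theorem geo_parity {v : ℤ × ℤ} {π : PP} (h : Geo v π) : Even (ln π + nr (DD π)) := by
  have hA := steps_par h.stA
  have hB := steps_par h.stB
  have h1 : 1 + π.2.sum.2.2 = π.1.sum.2.2 + 1 := by
    have h2 := h.block.headB
    unfold sdB at h2
    rw [List.head?_reverse, last_wk, Option.some.injEq] at h2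
    have h3 := congrArg (fun p : P3 => p.2.2) h2
    simp only [Prod.snd_add] at h3
    exact h3
  rw [Nat.even_iff]
  unfold ln nr DD dsp hz
  simp only [Prod.fst_sub]
  omega

private theorem par_list (L : List (KW M)) :
    Even (((L.map Subtype.val).map ln).sum + (((L.map Subtype.val).map DD).map nr).sum) := by
  induction L with
  | nil => simp
  | cons π L ih =>
    obtain ⟨v, hv⟩ := π.2
    have h1 := geo_parity hv.1.1
    simp only [List.map_cons, List.sum_cons]
    have h2 := h1.add ih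
    rw [add_add_add_comm]
    exact h2

/-! ### Marks far from the origin and near it -/

/-- The possible heights. -/
private noncomputable def II (M : ℕ) : Finset (ℤ × ℤ) :=
  Finset.Icc 0 (M : ℤ) ×ˢ Finset.Icc 0 (M : ℤ)

private theorem mem_II {i : ℤ × ℤ} : i ∈ II M ↔ Rg M (0, i) := by
  unfold II Rg
  rw [Finset.mem_product, Finset.mem_Icc, Finset.mem_Icc]

open Classical in
/-- The words with heights. -/
private noncomputable def HL (M : ℕ) : List PP → Finset (List (PP × (ℤ × ℤ)))
  | [] => {[]}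
  | π :: L => (II M ×ˢ HL M L).image fun q => (π, q.1) :: q.2

private theorem mem_HL {L : List PP} {ps : List (PP × (ℤ × ℤ))} :
    ps ∈ HL M L ↔ ps.map Prod.fst = L ∧ ∀ p ∈ ps, p.2 ∈ II M := by
  classical
  induction L generalizing ps with
  | nil =>
    unfold HL
    rw [Finset.mem_singleton]
    constructor
    · rintro rfl
      simp
    · rintro ⟨h, -⟩
      exact List.map_eq_nil_iff.1 h
  | cons π L ih =>
    unfold HL
    rw [Finset.mem_image]
    constructor
    · rintro ⟨q, hq, rfl⟩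
      rw [Finset.mem_product, ih] at hq
      obtain ⟨h1, h2, h3⟩ := hq
      refine ⟨by rw [List.map_cons, h2], fun p hp => ?_⟩
      rcases List.mem_cons.1 hp with rfl | hp
      · exact h1
      · exact h3 p hp
    · rintro ⟨h1, h2⟩
      cases ps with
      | nil => simp at h1
      | cons p ps =>
        rw [List.map_cons, List.cons.injEq] at h1
        refine ⟨(p.2, ps), ?_, ?_⟩
        · rw [Finset.mem_product, ih]
          exact ⟨h2 p (List.mem_cons_self ..), h1.2,
            fun p' hp' => h2 p' (List.mem_cons_of_mem _ hp')⟩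
        · rw [← h1.1]

/-- All marks far from the origin, with the given heights. -/
private def farP (R : ℕ) (ps : List (PP × (ℤ × ℤ))) : List ((SS → Prop) × PP) :=
  ps.map fun p => ((fun v => R < nrm (pr v) ∧ v.2 = p.2), p.1)

/-- No condition on the marks. -/
private def truL (L : List PP) : List ((SS → Prop) × PP) :=
  L.map fun π => ((fun _ => True), π)

/-- The mark `i` near the origin. -/
private def nrL (R : ℕ) (L : List PP) (i : Fin L.length) : List ((SS → Prop) × PP) :=
  truL (L.take i) ++ ((fun v => nrm (pr v) ≤ R), L[i]) :: truL (L.drop (i + 1))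

private theorem mat_far {R : ℕ} (ms : List (SS × PP)) (ps : List (PP × (ℤ × ℤ))) :
    Mat ms (farP R ps) ↔ ms.map (fun m => (m.2, m.1.2)) = ps ∧ ∀ m ∈ ms, R < nrm (pr m.1) := by
  unfold Mat farP
  induction ms generalizing ps with
  | nil =>
    cases ps with
    | nil => simp
    | cons p ps => simp
  | cons m ms ih =>
    cases ps with
    | nil => simp
    | cons p ps =>
      rw [List.map_cons, List.forall₂_cons, ih ps]
      obtain ⟨p1, p2⟩ := p
      simp only [List.map_cons, List.cons.injEq, List.forall_mem_cons, Prod.mk.injEq]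
      tauto

private theorem mat_tru (ms : List (SS × PP)) : Mat ms (truL (ms.map Prod.snd)) := by
  unfold Mat truL
  induction ms with
  | nil => simp
  | cons m ms ih =>
    rw [List.map_cons, List.map_cons, List.forall₂_cons]
    exact ⟨⟨rfl, trivial⟩, ih⟩

private theorem mat_near {R : ℕ} (ms : List (SS × PP)) (L : List PP)
    (hL : ms.map Prod.snd = L) (hn : ¬ ∀ m ∈ ms, R < nrm (pr m.1)) :
    ∃ i : Fin L.length, Mat ms (nrL R L i) := by
  induction ms generalizing L with
  | nil => simp at hn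
  | cons m ms ih =>
    subst hL
    by_cases hm : R < nrm (pr m.1)
    · have h1 : ¬ ∀ m ∈ ms, R < nrm (pr m.1) := by
        intro h
        exact hn fun m' hm' => by
          rcases List.mem_cons.1 hm' with rfl | hm'
          · exact hm
          · exact h m' hm'
      obtain ⟨i, hi⟩ := ih _ rfl h1
      refine ⟨i.succ, ?_⟩
      unfold nrL Mat at hi ⊢
      exact List.Forall₂.cons ⟨rfl, trivial⟩ hi
    · refine ⟨⟨0, by simp⟩, ?_⟩
      unfold nrL Mat
      exact List.Forall₂.cons ⟨rfl, not_lt.1 hm⟩ (mat_tru ms)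

private theorem snd_far (R : ℕ) (ps : List (PP × (ℤ × ℤ))) :
    (farP R ps).map Prod.snd = ps.map Prod.fst := by
  unfold farP
  rw [List.map_map]
  rfl

private theorem snd_tru (L : List PP) : (truL L).map Prod.snd = L := by
  unfold truL
  rw [List.map_map]
  exact List.map_id' L

private theorem snd_nr (R : ℕ) (L : List PP) (i : Fin L.length) :
    (nrL R L i).map Prod.snd = L := by
  unfold nrL
  rw [List.map_append, List.map_cons, snd_tru, snd_tru]
  simp

private theorem ln_snd (K : List ((SS → Prop) × PP)) :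
    (K.map fun q => ln q.2).sum = ((K.map Prod.snd).map ln).sum := by
  rw [List.map_map]
  rfl

/-- The words of the marks with their heights. -/
private theorem heights_mem (x : CS M) : (mkA x).map (fun m => (m.2, m.1.2)) ∈
    HL M ((mkA x).map Prod.snd) := by
  rw [mem_HL, List.map_map]
  refine ⟨rfl, fun p hp => ?_⟩
  obtain ⟨m, hm, rfl⟩ := List.mem_map.1 hp
  exact mem_II.2 (kn_of_mem x hm).al.2

/-! ### Sums over chains -/

private theorem sa_split (Q P : CS M → Prop) (n : ℕ) :
    SA y z Q n = SA y z (fun x => Q x ∧ P x) n + SA y z (fun x => Q x ∧ ¬ P x) n := by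
  classical
  unfold SA
  rw [← ENNReal.tsum_add]
  refine tsum_congr fun x => ?_
  by_cases h1 : lenA x = n <;> by_cases h2 : Q x <;> by_cases h3 : P x <;> simp [h1, h2, h3]

private theorem sa_le {ι : Type} [Fintype ι] (Q : CS M → Prop) (P : ι → CS M → Prop)
    (hQ : ∀ x, Q x → ∃ i, P i x) (n : ℕ) : SA y z Q n ≤ ∑ i, SA y z (P i) n := by
  classical
  unfold SA
  rw [← Summable.tsum_finsetSum fun i _ => ENNReal.summable]
  refine ENNReal.tsum_le_tsum fun x => ?_
  split_ifs with h
  · obtain ⟨i, hi⟩ := hQ x h.2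
    calc WA y z x = if lenA x = n ∧ P i x then WA y z x else 0 := by rw [if_pos ⟨h.1, hi⟩]
      _ ≤ _ := Finset.single_le_sum
        (f := fun j => if lenA x = n ∧ P j x then WA y z x else 0) (fun _ _ => zero_le)
        (Finset.mem_univ i)
  · exact zero_le

private theorem sa_congr {Q P : CS M → Prop} (h : ∀ x, Q x ↔ P x) (n : ℕ) :
    SA y z Q n = SA y z P n := by
  have : Q = P := funext fun x => propext (h x)
  rw [this]

private theorem sa_false {Q : CS M → Prop} (h : ∀ x, ¬ Q x) (n : ℕ) : SA y z Q n = 0 := by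
  unfold SA
  simp [h]

/-- The chains with marks far from the origin, by the heights of the marks. -/
private theorem sa_heights (R : ℕ) (L : List PP) (n : ℕ) :
    SA y z (fun x : CS M => UH x.1.1 ∧ UH x.1.2.2 ∧ (mkA x).map Prod.snd = L ∧
      ∀ m ∈ mkA x, R < nrm (pr m.1)) n =
      ∑ ps ∈ HL M L,
        SA y z (fun x : CS M => UH x.1.1 ∧ UH x.1.2.2 ∧ Mat (mkA x) (farP R ps)) n := by
  classical
  unfold SA
  rw [← Summable.tsum_finsetSum fun i _ => ENNReal.summable]
  refine tsum_congr fun x => ?_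
  split_ifs with h
  · obtain ⟨h0, h1, h2, h3, h4⟩ := h
    rw [Finset.sum_eq_single ((mkA x).map fun m => (m.2, m.1.2))]
    · rw [if_pos ⟨h0, h1, h2, (mat_far _ _).2 ⟨rfl, h4⟩⟩]
    · intro ps _ hps
      rw [if_neg]
      rintro ⟨-, -, -, h5⟩
      exact hps ((mat_far _ _).1 h5).1.symm
    · intro h5
      refine absurd ?_ h5
      rw [← h3]
      exact heights_mem x
  · symm
    refine Finset.sum_eq_zero fun ps hps => ?_
    rw [if_neg]
    rintro ⟨h0, h1, h2, h3⟩
    obtain ⟨h4, h5⟩ := (mat_far _ _).1 h3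
    refine h ⟨h0, h1, h2, ?_, h5⟩
    rw [← (mem_HL.1 hps).1, ← h4, List.map_map]
    rfl

private theorem ww_ne_top (s : List PP) : ww y z s ≠ ⊤ := by
  induction s with
  | nil => rw [ww_nil]; exact ENNReal.one_ne_top
  | cons π s ih =>
    rw [ww_cons]
    refine ENNReal.mul_ne_top ?_ ih
    unfold wt
    exact ENNReal.mul_ne_top (ENNReal.pow_ne_top ENNReal.ofReal_ne_top)
      (ENNReal.pow_ne_top ENNReal.ofReal_ne_top)

private theorem ww_ne_zero (hy : 0 < y) (hz : 0 < z) (s : List PP) : ww y z s ≠ 0 := by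
  induction s with
  | nil => rw [ww_nil]; exact one_ne_zero
  | cons π s ih =>
    rw [ww_cons]
    refine mul_ne_zero ?_ ih
    unfold wt
    exact mul_ne_zero (pow_ne_zero _ (ENNReal.ofReal_pos.2 hy).ne')
      (pow_ne_zero _ (ENNReal.ofReal_pos.2 hz).ne')

/-! ### Empty gaps -/

private theorem fc_zero {c : ℕ → SS → ℝ≥0∞} (hc : ∀ n w, c n w = 0) (n : ℕ) (v : SS) :
    FC M y z c n v = 0 := by
  unfold FC
  simp [hc]

open Classical in
private theorem cN_zero (c : ℕ → SS → ℝ≥0∞) {qs : List ((SS → Prop) × SS)}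
    {q : (SS → Prop) × SS} (hq : q ∈ qs) (h : ∀ v, ¬ q.1 v) (n : ℕ) (w : SS) :
    cN M y z c qs n w = 0 := by
  induction qs generalizing n w with
  | nil => simp at hq
  | cons q' qs ih =>
    change (if q'.1 w then FC M y z (cN M y z c qs) n (w + q'.2) else 0) = 0
    rcases List.mem_cons.1 hq with rfl | hq
    · rw [if_neg (h w)]
    · rw [fc_zero (fun n w => ih hq n w), ite_self]

private theorem tq_zero {qs : List ((SS → Prop) × SS)}
    {q : (SS → Prop) × SS} (hq : q ∈ qs) (h : ∀ v, ¬ q.1 v) (n : ℕ) :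
    TQ M y z UH qs n = 0 := by
  unfold TQ
  simp [fc_zero (fun n w => cN_zero (y := y) (z := z) (cq M y z UH) hq h n w)]

/-! ### Finiteness -/

private theorem tq_fin (h : Bd M y z ℓ) {qs : List ((SS → Prop) × SS)} (hqs : GapOk M qs)
    (a : ℕ) : ∀ᶠ k : ℕ in atTop, TQ M y z UH qs (2 * k - a) ≠ ⊤ := by
  obtain ⟨C, hC, n0, hn⟩ := tq_bound h qs.length
  filter_upwards [eventually_ge_atTop (n0 + a)] with k hk
  have h1 := hn (2 * k) (by omega) (even_two_mul k) qs rfl hqs (2 * k - a) a (by omega)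
  have h2 : TQ M y z UH qs (2 * k - a) ≤ TQ M y z (fun _ => True) qs (2 * k - a) :=
    tq_mono (fun _ _ => trivial) (List.forall₂_same.2 fun q _ => ⟨fun _ h => h, rfl⟩) _
  refine ne_top_of_le_ne_top ?_ (h2.trans h1)
  refine ENNReal.mul_ne_top (ENNReal.mul_ne_top (ENNReal.mul_ne_top (ENNReal.mul_ne_top hC
    (ENNReal.pow_ne_top (ENNReal.natCast_ne_top _))) (h.fin _)) (ENNReal.pow_ne_top (by simp))) ?_
  have h3 : ∀ l : List ((SS → Prop) × SS),
      (l.map fun p => (80 : ℝ≥0∞) ^ nr p.2).prod ≠ ⊤ := by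
    intro l
    induction l with
    | nil => simp
    | cons p l ih =>
      rw [List.map_cons, List.prod_cons]
      exact ENNReal.mul_ne_top (ENNReal.pow_ne_top (by norm_num)) ih
  exact h3 qs

/-! ### The limits -/

private theorem sa_mat (K : List ((SS → Prop) × PP)) (L : List PP) (hK : K.map Prod.snd = L)
    {n : ℕ} (hn : (L.map ln).sum ≤ n) :
    SA y z (fun x : CS M => UH x.1.1 ∧ UH x.1.2.2 ∧ Mat (mkA x) K) n =
      ww y z L * TQ M y z UH (gaps M K) (n - (L.map ln).sum) := by
  have h1 := mark_id (M := M) (y := y) (z := z) UH K (n - (L.map ln).sum)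
  rw [ln_snd, hK, Nat.sub_add_cancel hn] at h1
  exact h1

private theorem near_lim (h : Bd M y z ℓ) (L : List PP) (R : ℕ) (i : Fin L.length) :
    Tendsto (fun k : ℕ => (SA y z (fun x : CS M => UH x.1.1 ∧ UH x.1.2.2 ∧
      Mat (mkA x) (nrL R L i)) (2 * k)).toReal /
      (((2 * k : ℕ) : ℝ) ^ L.length * ((sys M y z).tot (2 * k)).toReal)) atTop (𝓝 0) := by
  have hg : gaps M (nrL R L i) = gaps M (truL (L.take i)) ++
      ((fun v => nrm (pr v) ≤ R ∧ KS M v L[i]), DD L[i]) :: gaps M (truL (L.drop (i + 1))) := by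
    unfold gaps nrL
    rw [List.map_append, List.map_cons]
  have hlen : (gaps M (truL (L.take i))).length + (gaps M (truL (L.drop (i + 1)))).length + 1 =
      L.length := by
    unfold gaps truL
    simp only [List.length_map, List.length_take, List.length_drop]
    have := i.2
    omega
  have hok : GapOk M (gaps M (truL (L.take i)) ++
      ((fun v => nrm (pr v) ≤ R ∧ KS M v L[i]), DD L[i]) :: gaps M (truL (L.drop (i + 1)))) := by
    rw [← hg]
    exact gapOk_gaps _
  have h1 := near_l h hok (R := R) (fun v hv => hv.1) (L.map ln).sum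
  rw [hlen] at h1
  have h2 := h1.const_mul (ww y z L).toReal
  rw [mul_zero] at h2
  refine h2.congr' ?_
  filter_upwards [eventually_ge_atTop (L.map ln).sum] with k hk
  rw [sa_mat _ L (snd_nr R L i) (by omega), hg, ENNReal.toReal_mul, mul_div_assoc]

private theorem nrm_big (R : ℕ) (i : ℤ × ℤ) : R < nrm (pr (((R + 1 : ℕ) : ℤ), i)) := by
  simp only [nrm, pr]
  omega

private theorem far_lim (h : Bd M y z ℓ) (Lp : List PP)
    (hpar : Even ((Lp.map ln).sum + ((Lp.map DD).map nr).sum)) (R : ℕ)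
    (hR1 : ∀ π ∈ Lp, nh π ≤ R) (hR2 : ∀ π ∈ Lp, nr (DD π) ≤ R)
    (ps : List (PP × (ℤ × ℤ))) (hps : ps.map Prod.fst = Lp) :
    ∃ b : ℝ, (0 ≤ b ∧ ((∀ p ∈ ps, ∀ v : SS, R < nrm (pr v) → v.2 = p.2 → KS M v p.1) → 0 < b)) ∧
      Tendsto (fun k : ℕ => (SA y z (fun x : CS M => UH x.1.1 ∧ UH x.1.2.2 ∧
      Mat (mkA x) (farP R ps)) (2 * k)).toReal /
      (((2 * k : ℕ) : ℝ) ^ Lp.length * ((sys M y z).tot (2 * k)).toReal)) atTop (𝓝 b) := by
  have hmem : ∀ p ∈ ps, p.1 ∈ Lp := by
    intro p hp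
    rw [← hps]
    exact List.mem_map.2 ⟨p, hp, rfl⟩
  by_cases hK : ∀ p ∈ ps, ∀ v : SS, R < nrm (pr v) → v.2 = p.2 → KS M v p.1
  · have hg : gaps M (farP R ps) = (ps.map fun p => (p.2, DD p.1)).map
        fun u => ((fun v => R < nrm (pr v) ∧ v.2 = u.1), u.2) := by
      unfold gaps farP
      rw [List.map_map, List.map_map]
      refine List.map_congr_left fun p hp => ?_
      have : (fun v : SS => (R < nrm (pr v) ∧ v.2 = p.2) ∧ KS M v p.1) =
          fun v => R < nrm (pr v) ∧ v.2 = p.2 :=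
        funext fun v => propext ⟨fun h => h.1, fun h => ⟨h, hK p hp v h.1 h.2⟩⟩
      change ((fun v : SS => (R < nrm (pr v) ∧ v.2 = p.2) ∧ KS M v p.1), DD p.1) = _
      rw [this]
      rfl
    have hnr : ((ps.map fun p => (p.2, DD p.1)).map fun u => nr u.2) = (Lp.map DD).map nr := by
      rw [← hps, List.map_map, List.map_map, List.map_map]
      rfl
    obtain ⟨b, hb, h1⟩ := far_l h (ps.map fun p => (p.2, DD p.1)) R (Lp.map ln).sum (by
      intro u hu
      obtain ⟨p, hp, rfl⟩ := List.mem_map.1 hu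
      exact hR2 p.1 (hmem p hp)) (by
      intro u hu
      obtain ⟨p, hp, rfl⟩ := List.mem_map.1 hu
      have hk := hK p hp (((R + 1 : ℕ) : ℤ), p.2) (nrm_big R p.2) rfl
      exact ⟨hk.al.2, hk.al'.2⟩) (by rw [hnr]; exact hpar)
    have hl : (ps.map fun p => (p.2, DD p.1)).length = Lp.length := by
      rw [List.length_map, ← hps, List.length_map]
    rw [hl] at h1
    have hw : 0 < (ww y z Lp).toReal :=
      ENNReal.toReal_pos (ww_ne_zero h.cr.y_pos h.cr.z_pos _) (ww_ne_top _)
    refine ⟨(ww y z Lp).toReal * b, ⟨(mul_pos hw hb).le, fun _ => mul_pos hw hb⟩,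
      (h1.const_mul (ww y z Lp).toReal).congr' ?_⟩
    filter_upwards [eventually_ge_atTop (Lp.map ln).sum] with k hk
    rw [sa_mat _ Lp ((snd_far R ps).trans hps) (by omega), hg, ENNReal.toReal_mul, mul_div_assoc]
  · refine ⟨0, ⟨le_rfl, fun h => absurd h hK⟩, tendsto_const_nhds.congr' ?_⟩
    push Not at hK
    obtain ⟨p, hp, v, hv, hvp, hk⟩ := hK
    filter_upwards [eventually_ge_atTop (Lp.map ln).sum] with k hk'
    have h0 : TQ M y z UH (gaps M (farP R ps)) (2 * k - (Lp.map ln).sum) = 0 := by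
      refine tq_zero (q := ((fun v => (R < nrm (pr v) ∧ v.2 = p.2) ∧ KS M v p.1), DD p.1)) ?_ ?_ _
      · unfold gaps farP
        rw [List.map_map]
        exact List.mem_map.2 ⟨p, hp, rfl⟩
      · rintro v' ⟨⟨h1, h2⟩, h3⟩
        have hn := hR1 p.1 (hmem p hp)
        exact hk ((ks_far (hn.trans_lt h1) (hn.trans_lt hv) (h2.trans hvp.symm)).1 h3)
    rw [sa_mat _ Lp ((snd_far R ps).trans hps) (by omega), h0, mul_zero, ENNReal.toReal_zero,
      zero_div]

/-- SC23. -/
theorem word_lim (h : Bd M y z ℓ) {T : Finset (Sym2 P3) → Prop} (hT : TypeClosed T)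
    (L : List (KW M)) :
    ∃ b : ℝ, Tendsto (fun k : ℕ => (SA y z (fun x : CS M => T (pol x) ∧ UH x.1.1 ∧ UH x.1.2.2 ∧
      (mkA x).map Prod.snd = L.map Subtype.val) (2 * k)).toReal /
      (((2 * k : ℕ) : ℝ) ^ L.length * ((sys M y z).tot (2 * k)).toReal)) atTop (𝓝 b) ∧
      ((∃ x0 : CS M, T (pol x0) ∧ UH x0.1.1 ∧ UH x0.1.2.2 ∧
        (mkA x0).map Prod.snd = L.map Subtype.val ∧ ∀ m ∈ mkA x0, nh m.2 < nrm (pr m.1)) →
          0 < b) := by
  classical
  -- the radius
  obtain ⟨R, hR1, hR2⟩ : ∃ R : ℕ, (∀ π ∈ L.map Subtype.val, nh π ≤ R) ∧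
      ∀ π ∈ L.map Subtype.val, nr (DD π) ≤ R := by
    refine ⟨((L.map Subtype.val).map fun π => nh π + nr (DD π)).sum, fun π hπ => ?_,
      fun π hπ => ?_⟩
    · exact (Nat.le_add_right _ _).trans (List.single_le_sum (by simp) _
        (List.mem_map.2 ⟨π, hπ, rfl⟩))
    · exact (Nat.le_add_left _ _).trans (List.single_le_sum (by simp) _
        (List.mem_map.2 ⟨π, hπ, rfl⟩))
  have hpar := par_list L
  set D : ℕ → ℝ := fun k => ((2 * k : ℕ) : ℝ) ^ L.length * ((sys M y z).tot (2 * k)).toReal with hD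
  have hlen0 : (L.map Subtype.val).length = L.length := List.length_map _
  -- finiteness for given heights
  have hfin1 : ∀ᶠ k : ℕ in atTop, ∀ ps ∈ HL M (L.map Subtype.val),
      SA y z (fun x : CS M => UH x.1.1 ∧ UH x.1.2.2 ∧ Mat (mkA x) (farP R ps)) (2 * k) ≠ ⊤ := by
    rw [Filter.eventually_all_finset]
    intro ps hps
    filter_upwards [tq_fin h (gapOk_gaps (farP R ps)) ((L.map Subtype.val).map ln).sum,
      eventually_ge_atTop ((L.map Subtype.val).map ln).sum] with k hk1 hk2
    rw [sa_mat _ (L.map Subtype.val) ((snd_far R ps).trans (mem_HL.1 hps).1) (by omega)]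
    exact ENNReal.mul_ne_top (ww_ne_top _) hk1
  -- the chains with all marks far from the origin
  obtain ⟨b, hb, hb0⟩ : ∃ b : ℝ, Tendsto (fun k : ℕ => (SA y z (fun x : CS M => (T (pol x) ∧
      UH x.1.1 ∧ UH x.1.2.2 ∧ (mkA x).map Prod.snd = L.map Subtype.val) ∧
      ∀ m ∈ mkA x, R < nrm (pr m.1)) (2 * k)).toReal / D k) atTop (𝓝 b) ∧
      ((∃ x0 : CS M, T (pol x0) ∧ UH x0.1.1 ∧ UH x0.1.2.2 ∧
        (mkA x0).map Prod.snd = L.map Subtype.val ∧ ∀ m ∈ mkA x0, nh m.2 < nrm (pr m.1)) →
          0 < b) := by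
    by_cases hTN : TypeN T (L.map Subtype.val)
    · have hex : ∀ ps : List (PP × (ℤ × ℤ)), ∃ b : ℝ, ps ∈ HL M (L.map Subtype.val) →
          (0 ≤ b ∧ ((∀ p ∈ ps, ∀ v : SS, R < nrm (pr v) → v.2 = p.2 → KS M v p.1) → 0 < b)) ∧
          Tendsto (fun k : ℕ => (SA y z (fun x : CS M => UH x.1.1 ∧ UH x.1.2.2 ∧
          Mat (mkA x) (farP R ps)) (2 * k)).toReal / D k) atTop (𝓝 b) := by
        intro ps
        by_cases hps : ps ∈ HL M (L.map Subtype.val)
        · obtain ⟨b, hb1, hb2⟩ := far_lim h (L.map Subtype.val) hpar R hR1 hR2 ps (mem_HL.1 hps).1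
          rw [hlen0] at hb2
          exact ⟨b, fun _ => ⟨hb1, hb2⟩⟩
        · exact ⟨0, fun h => absurd h hps⟩
      choose β hβ using hex
      refine ⟨∑ ps ∈ HL M (L.map Subtype.val), β ps, ?_, ?_⟩
      · have h1 : Tendsto (fun k : ℕ => ∑ ps ∈ HL M (L.map Subtype.val),
            (SA y z (fun x : CS M => UH x.1.1 ∧ UH x.1.2.2 ∧
            Mat (mkA x) (farP R ps)) (2 * k)).toReal / D k) atTop
            (𝓝 (∑ ps ∈ HL M (L.map Subtype.val), β ps)) :=
          tendsto_finsetSum _ fun ps hps => (hβ ps hps).2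
        refine h1.congr' ?_
        filter_upwards [hfin1] with k hk
        rw [← Finset.sum_div, ← ENNReal.toReal_sum fun ps hps => hk ps hps, ← sa_heights]
        congr 2
        refine sa_congr (fun x => ?_) _
        constructor
        · rintro ⟨h1, h2, h3, h4⟩
          refine ⟨⟨?_, h1, h2, h3⟩, h4⟩
          rw [type_far hT x h1 h2 fun m hm => ?_, h3]
          · exact hTN
          · refine (hR1 m.2 ?_).trans_lt (h4 m hm)
            rw [← h3]
            exact List.mem_map.2 ⟨m, hm, rfl⟩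
        · rintro ⟨⟨-, h1, h2, h3⟩, h4⟩
          exact ⟨h1, h2, h3, h4⟩
      · rintro ⟨x0, h0, h1, h2, h3, h4⟩
        have hm0 : (mkA x0).map (fun m => (m.2, m.1.2)) ∈ HL M (L.map Subtype.val) := by
          rw [← h3]
          exact heights_mem x0
        refine lt_of_lt_of_le ((hβ _ hm0).1.2 ?_)
          (Finset.single_le_sum (fun ps hps => (hβ ps hps).1.1) hm0)
        intro p hp v hv hvp
        obtain ⟨m, hm, rfl⟩ := List.mem_map.1 hp
        have hn : nh m.2 ≤ R := hR1 m.2 (by
          rw [← h3]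
          exact List.mem_map.2 ⟨m, hm, rfl⟩)
        exact (ks_far (h4 m hm) (hn.trans_lt hv) hvp.symm).1 (kn_of_mem x0 hm)
    · refine ⟨0, tendsto_const_nhds.congr fun k => ?_, ?_⟩
      · rw [sa_false, ENNReal.toReal_zero, zero_div]
        rintro x ⟨⟨h0, h1, h2, h3⟩, h4⟩
        rw [type_far hT x h1 h2 fun m hm => ?_, h3] at h0
        · exact hTN h0
        · refine (hR1 m.2 ?_).trans_lt (h4 m hm)
          rw [← h3]
          exact List.mem_map.2 ⟨m, hm, rfl⟩
      · rintro ⟨x0, h0, h1, h2, h3, h4⟩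
        rw [type_far hT x0 h1 h2 h4, h3] at h0
        exact absurd h0 hTN
  -- the chains with a mark near the origin
  set Lp : List PP := L.map Subtype.val with hLp
  have hlen : Lp.length = L.length := List.length_map _
  have hfin : ∀ᶠ k : ℕ in atTop, ∀ i : Fin Lp.length, SA y z (fun x : CS M => UH x.1.1 ∧
      UH x.1.2.2 ∧ Mat (mkA x) (nrL R Lp i)) (2 * k) ≠ ⊤ := by
    rw [eventually_all]
    intro i
    filter_upwards [tq_fin h (gapOk_gaps (nrL R Lp i)) (Lp.map ln).sum,
      eventually_ge_atTop (Lp.map ln).sum] with k hk1 hk2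
    rw [sa_mat _ Lp (snd_nr R Lp i) (by omega)]
    exact ENNReal.mul_ne_top (ww_ne_top _) hk1
  have hbd : ∀ k : ℕ, SA y z (fun x : CS M => (T (pol x) ∧ UH x.1.1 ∧
      UH x.1.2.2 ∧ (mkA x).map Prod.snd = Lp) ∧ ¬ ∀ m ∈ mkA x, R < nrm (pr m.1)) (2 * k) ≤
      ∑ i : Fin Lp.length, SA y z (fun x : CS M => UH x.1.1 ∧ UH x.1.2.2 ∧
      Mat (mkA x) (nrL R Lp i)) (2 * k) := by
    intro k
    refine sa_le _ (fun (i : Fin Lp.length) x => UH x.1.1 ∧ UH x.1.2.2 ∧
      Mat (mkA x) (nrL R Lp i)) ?_ _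
    rintro x ⟨⟨-, h1, h2, h3⟩, h4⟩
    obtain ⟨i, hi⟩ := mat_near (mkA x) Lp h3 h4
    exact ⟨i, h1, h2, hi⟩
  have hsum : Tendsto (fun k : ℕ => (∑ i : Fin Lp.length, SA y z (fun x : CS M => UH x.1.1 ∧
      UH x.1.2.2 ∧ Mat (mkA x) (nrL R Lp i)) (2 * k)).toReal / D k) atTop (𝓝 0) := by
    have h1 : Tendsto (fun k : ℕ => ∑ i : Fin Lp.length, (SA y z (fun x : CS M => UH x.1.1 ∧
        UH x.1.2.2 ∧ Mat (mkA x) (nrL R Lp i)) (2 * k)).toReal /
        (((2 * k : ℕ) : ℝ) ^ Lp.length * ((sys M y z).tot (2 * k)).toReal)) atTop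
        (𝓝 (∑ _i : Fin Lp.length, (0 : ℝ))) :=
      tendsto_finsetSum _ fun i _ => near_lim h Lp R i
    rw [Finset.sum_const_zero] at h1
    refine h1.congr' ?_
    filter_upwards [hfin] with k hk
    rw [ENNReal.toReal_sum fun i _ => hk i, Finset.sum_div, hD]
    simp only [hlen]
  have hnear : Tendsto (fun k : ℕ => (SA y z (fun x : CS M => (T (pol x) ∧ UH x.1.1 ∧
      UH x.1.2.2 ∧ (mkA x).map Prod.snd = Lp) ∧ ¬ ∀ m ∈ mkA x, R < nrm (pr m.1))
      (2 * k)).toReal / D k) atTop (𝓝 0) := by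
    refine tendsto_of_tendsto_of_tendsto_of_le_of_le' tendsto_const_nhds hsum
      (Eventually.of_forall fun k => ?_) ?_
    · exact div_nonneg ENNReal.toReal_nonneg (by positivity)
    · filter_upwards [hfin] with k hk
      refine div_le_div_of_nonneg_right ?_ (by positivity)
      exact ENNReal.toReal_mono (ENNReal.sum_ne_top.2 fun i _ => hk i) (hbd k)
  -- the far part is finite
  have hfar : ∀ᶠ k : ℕ in atTop, SA y z (fun x : CS M => (T (pol x) ∧ UH x.1.1 ∧
      UH x.1.2.2 ∧ (mkA x).map Prod.snd = Lp) ∧ ∀ m ∈ mkA x, R < nrm (pr m.1)) (2 * k) ≠ ⊤ := by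
    filter_upwards [hfin1] with k hk1
    have h2 : SA y z (fun x : CS M => (T (pol x) ∧ UH x.1.1 ∧
        UH x.1.2.2 ∧ (mkA x).map Prod.snd = Lp) ∧ ∀ m ∈ mkA x, R < nrm (pr m.1)) (2 * k) ≤
        ∑ _i : Fin 1, SA y z (fun x : CS M => UH x.1.1 ∧ UH x.1.2.2 ∧
          (mkA x).map Prod.snd = Lp ∧ ∀ m ∈ mkA x, R < nrm (pr m.1)) (2 * k) := by
      refine sa_le _ (fun (_ : Fin 1) x => UH x.1.1 ∧ UH x.1.2.2 ∧
        (mkA x).map Prod.snd = Lp ∧ ∀ m ∈ mkA x, R < nrm (pr m.1)) ?_ _
      rintro x ⟨⟨-, h1, h2, h3⟩, h4⟩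
      exact ⟨0, h1, h2, h3, h4⟩
    rw [Finset.sum_const, Finset.card_univ, Fintype.card_fin, one_smul, sa_heights] at h2
    exact ne_top_of_le_ne_top (ENNReal.sum_ne_top.2 hk1) h2
  refine ⟨b + 0, (hb.add hnear).congr' ?_, fun hx => by rw [add_zero]; exact hb0 hx⟩
  filter_upwards [hfar, hfin] with k hk1 hk2
  rw [sa_split (fun x : CS M => T (pol x) ∧ UH x.1.1 ∧ UH x.1.2.2 ∧ (mkA x).map Prod.snd = Lp)
    (fun x => ∀ m ∈ mkA x, R < nrm (pr m.1)), ENNReal.toReal_add hk1
    (ne_top_of_le_ne_top (ENNReal.sum_ne_top.2 fun i _ => hk2 i) (hbd k)), add_div]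

end Pool.Agent.KSC
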