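import Pool.Agent.KSC.Tail
import Pool.Agent.KSC.WordL

/-! SC25: the limit for the chains with `N` short marks.

PROOF. `main_l`: as `KComp/MainL.lean`: the chains with `Good j N` and `T (pol x)` are the disjoint union over the lists `L` of
length `N` of words in the finite set `{π : KW M | ln π.1 ≤ j}` (`short_fin`, `kn_of_mem`) of those with the words `L`:
finite sum of the limits of `word_lim` (all sums of weights are finite for large `k`: the limits of the quotients of the
`toReal`s alone do not show this, so use `few_marks` and `Bd.fin` for finiteness: `SA (T ∧ Good j N) n ≤ SA (length = N) n`).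
`low_l`: the words `L` of the marks of `x0` are in `KW M` (`kn_of_mem`); `word_lim` for this list has a positive limit `b`, and the
chains with these words are some of the chains with `T (pol x)`; `δ = b / 2`. -/

set_option autoImplicit false

open Pool.Agent.LK
open Filter Topology
open scoped ENNReal

namespace Pool.Agent.KSC

open Pool.Agent.KTube Pool.Agent.KRing Pool.Agent.KLog

open Pool.Agent.KAsym (ln)

variable {M : ℕ} {y z ℓ : ℝ}

/-- SC25. -/
theorem main_l (h : Bd M y z ℓ) {T : Finset (Sym2 P3) → Prop} (hT : TypeClosed T) (j N : ℕ) :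
    ∃ b : ℝ, Tendsto (fun k : ℕ =>
      (SA y z (fun x : CS M => T (pol x) ∧ Good j N x) (2 * k)).toReal /
      (((2 * k : ℕ) : ℝ) ^ N * ((sys M y z).tot (2 * k)).toReal)) atTop (𝓝 b) := by
  sorry

/-- A far chain of class `T` with `N` marks gives a lower bound. -/
theorem low_l (h : Bd M y z ℓ) {T : Finset (Sym2 P3) → Prop} (hT : TypeClosed T) (x0 : CS M)
    (h1 : UH x0.1.1) (h2 : UH x0.1.2.2) (hT0 : T (pol x0))
    (hf : ∀ m ∈ mkA x0, nh m.2 < nrm (pr m.1)) : ∃ δ : ℝ, 0 < δ ∧ ∀ᶠ k : ℕ in atTop,
    ENNReal.ofReal δ * ((2 * k : ℕ) : ℝ≥0∞) ^ (mkA x0).length * (sys M y z).tot (2 * k) ≤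
      SA y z (fun x : CS M => T (pol x)) (2 * k) := by
  sorry

end Pool.Agent.KSC
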