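import Pool.Agent.KSC.Basic

/-! SC16: the chains with given marks.

PROOF. As `KComp/MarkId.lean`, with the states instead of the displacements (`GS`, `KS`, `Unk (pr v)` instead of `Geo`, `Kn`,
`Unk v`; `us_iff`, `uc_iff`, `UC.gc`, `gapOk_gaps` of `KSC/Basic.lean`). -/

set_option autoImplicit false

open Pool.Agent.LK
open scoped ENNReal

namespace Pool.Agent.KSC

open Pool.Agent.KTube Pool.Agent.KRing Pool.Agent.KLog

open Pool.Agent.KAsym (ln)
open Pool.Agent.KComp (ww ww_nil ww_cons ww_append)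

variable {M : ℕ} {y z : ℝ}

/-- The marks are the words of the list, at states with the given properties. -/
def Mat (ms : List (SS × PP)) (L : List ((SS → Prop) × PP)) : Prop :=
  List.Forall₂ (fun m q => m.2 = q.2 ∧ q.1 m.1) ms L

/-! ### Convolutions -/

private theorem conv {S T W : Type} (A : S → Prop) (a : S → W) (la : S → ℕ) (f : S → ℝ≥0∞)
    (B : W → T → Prop) (lb : T → ℕ) (g : T → ℝ≥0∞) (n : ℕ) [DecidableEq W] [DecidablePred A]
    [∀ w t, Decidable (B w t)] :
    (∑' w : W, ∑ p ∈ Finset.HasAntidiagonal.antidiagonal n,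
      (∑' s : S, if A s ∧ a s = w ∧ la s = p.1 then f s else 0) *
        (∑' t : T, if B w t ∧ lb t = p.2 then g t else 0)) =
      ∑' x : S × T, if A x.1 ∧ B (a x.1) x.2 ∧ la x.1 + lb x.2 = n then f x.1 * g x.2 else 0 := by
  have h1 : ∀ w : W, (∑ p ∈ Finset.HasAntidiagonal.antidiagonal n,
      (∑' s : S, if A s ∧ a s = w ∧ la s = p.1 then f s else 0) *
        (∑' t : T, if B w t ∧ lb t = p.2 then g t else 0)) =
      ∑' x : S × T, ∑ p ∈ Finset.HasAntidiagonal.antidiagonal n,
        (if A x.1 ∧ a x.1 = w ∧ la x.1 = p.1 then f x.1 else 0) *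
          (if B w x.2 ∧ lb x.2 = p.2 then g x.2 else 0) := by
    intro w
    rw [Summable.tsum_finsetSum (fun _ _ => ENNReal.summable)]
    refine Finset.sum_congr rfl fun p _ => ?_
    rw [ENNReal.tsum_prod (f := fun s t => (if A s ∧ a s = w ∧ la s = p.1 then f s else 0) *
          (if B w t ∧ lb t = p.2 then g t else 0)), ← ENNReal.tsum_mul_right]
    refine tsum_congr fun s => ?_
    rw [ENNReal.tsum_mul_left]
  rw [tsum_congr h1, ENNReal.tsum_comm]
  refine tsum_congr fun x => ?_
  obtain ⟨s, t⟩ := x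
  simp only
  rw [tsum_eq_single (a s)]
  · by_cases h : A s ∧ B (a s) t ∧ la s + lb t = n
    · rw [if_pos h, Finset.sum_eq_single (la s, lb t)]
      · rw [if_pos ⟨h.1, rfl, rfl⟩, if_pos ⟨h.2.1, rfl⟩]
      · intro p _ hp
        by_cases h2 : la s = p.1
        · by_cases h3 : lb t = p.2
          · exact absurd (Prod.ext h2.symm h3.symm) hp
          · rw [if_neg (fun h4 => h3 h4.2) (c := B (a s) t ∧ lb t = p.2), mul_zero]
        · rw [if_neg (fun h4 => h2 h4.2.2) (c := A s ∧ a s = a s ∧ la s = p.1), zero_mul]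
      · intro h2
        exact absurd (Finset.HasAntidiagonal.mem_antidiagonal.2 h.2.2) h2
    · rw [if_neg h]
      refine Finset.sum_eq_zero fun p hp => ?_
      rw [Finset.HasAntidiagonal.mem_antidiagonal] at hp
      by_cases h2 : A s ∧ a s = a s ∧ la s = p.1
      · by_cases h3 : B (a s) t ∧ lb t = p.2
        · exact absurd ⟨h2.1, h3.1, by rw [h2.2.2, h3.2, hp]⟩ h
        · rw [if_neg h3, mul_zero]
      · rw [if_neg h2, zero_mul]
  · intro w hw
    refine Finset.sum_eq_zero fun p _ => ?_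
    rw [if_neg (fun h4 => hw h4.2.1.symm) (c := A s ∧ a s = w ∧ la s = p.1), zero_mul]

/-! ### Splitting at the first knotted block -/

private theorem split_inj {π : PP} {v : SS} {s0 t0 s1 t1 : List PP} (h1 : UC M v s0)
    (h2 : UC M v t0) (k1 : KS M (ed v s0) π) (k2 : KS M (ed v t0) π)
    (h : s0 ++ π :: s1 = t0 ++ π :: t1) : s0 = t0 ∧ s1 = t1 := by
  induction s0 generalizing v t0 with
  | nil =>
    cases t0 with
    | nil =>
      rw [List.nil_append, List.nil_append, List.cons.injEq] at h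
      exact ⟨rfl, h.2⟩
    | cons ρ t0 =>
      rw [List.nil_append, List.cons_append, List.cons.injEq] at h
      rw [ed_nil, h.1] at k1
      exact absurd h2.1.1.2 k1.2
  | cons σ s0 ih =>
    cases t0 with
    | nil =>
      rw [List.nil_append, List.cons_append, List.cons.injEq] at h
      rw [ed_nil, ← h.1] at k2
      exact absurd h1.1.1.2 k2.2
    | cons ρ t0 =>
      rw [List.cons_append, List.cons_append, List.cons.injEq] at h
      obtain ⟨h3, h4⟩ := h
      subst h3
      rw [ed_cons] at k1 k2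
      obtain ⟨h5, h6⟩ := ih h1.2 h2.2 k1 k2 h4
      exact ⟨by rw [h5], h6⟩

private theorem exists_split {v : SS} {s : List PP} {q : (SS → Prop) × PP}
    {L : List ((SS → Prop) × PP)} (h : GC M v s) (hm : Mat (mk v s) (q :: L)) :
    ∃ s0 s1 : List PP, s0 ++ q.2 :: s1 = s ∧ UC M v s0 ∧ KS M (ed v s0) q.2 := by
  induction s generalizing v with
  | nil => exact absurd hm (by unfold Mat mk; exact fun h => nomatch h)
  | cons π s ih =>
    rw [mk_cons] at hm
    by_cases hu : Unk (pr v) π
    · rw [if_pos hu] at hm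
      obtain ⟨s0, s1, h1, h2, h3⟩ := ih h.2 hm
      refine ⟨π :: s0, s1, ?_, ⟨us_iff.2 ⟨h.1, hu⟩, h2⟩, ?_⟩
      · rw [List.cons_append, h1]
      · rw [ed_cons]
        exact h3
    · rw [if_neg hu] at hm
      unfold Mat at hm
      rw [List.forall₂_cons] at hm
      obtain ⟨⟨h1, -⟩, -⟩ := hm
      simp only at h1
      refine ⟨[], s, ?_, h.1.al, ?_⟩
      · rw [List.nil_append, h1]
      · rw [ed_nil, ← h1]
        exact ⟨h.1, hu⟩

private theorem split_iff {v : SS} {s0 s1 : List PP} {q : (SS → Prop) × PP}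
    {L : List ((SS → Prop) × PP)} (h0 : UC M v s0) (hk : KS M (ed v s0) q.2) :
    (GC M v (s0 ++ q.2 :: s1) ∧ Mat (mk v (s0 ++ q.2 :: s1)) (q :: L)) ↔
      (q.1 (ed v s0) ∧ GC M (ed v s0 + DD q.2) s1 ∧ Mat (mk (ed v s0 + DD q.2) s1) L) := by
  have e1 : mk v (s0 ++ q.2 :: s1) = (ed v s0, q.2) :: mk (ed v s0 + DD q.2) s1 := by
    rw [mk_append, (uc_iff h0.gc).1 h0, List.nil_append, mk_cons, if_neg hk.2]
  rw [e1, gc_append]
  unfold Mat
  rw [List.forall₂_cons]
  constructor
  · rintro ⟨⟨-, -, h1⟩, ⟨-, h2⟩, h3⟩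
    exact ⟨h2, h1, h3⟩
  · rintro ⟨h1, h2, h3⟩
    exact ⟨⟨h0.gc, hk.1, h2⟩, ⟨rfl, h1⟩, h3⟩

/-! ### Lengths -/

private def lnL (L : List ((SS → Prop) × PP)) : ℕ := (L.map fun q => ln q.2).sum

private theorem mk_len (v : SS) (s : List PP) :
    ((mk v s).map fun m => ln m.2).sum ≤ (s.map ln).sum := by
  induction s generalizing v with
  | nil => simp [mk]
  | cons π s ih =>
    rw [mk_cons]
    have h := ih (v + DD π)
    split_ifs with hu
    · simp only [List.map_cons, List.sum_cons]
      omega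
    · simp only [List.map_cons, List.sum_cons]
      omega

private theorem mat_len {ms : List (SS × PP)} {L : List ((SS → Prop) × PP)}
    (h : Mat ms L) : (ms.map fun m => ln m.2).sum = lnL L := by
  unfold Mat at h
  induction h with
  | nil => rfl
  | cons h1 _ ih =>
    unfold lnL at ih ⊢
    rw [List.map_cons, List.map_cons, List.sum_cons, List.sum_cons, ih, h1.1]

/-! ### The claim -/

private def EE (Q : HS M → Prop) (L : List ((SS → Prop) × PP)) (v : SS)
    (x : List PP × HS M) : Prop :=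
  GC M v x.1 ∧ ed v x.1 = x.2.1 ∧ Q x.2 ∧ Mat (mk v x.1) L

private def le (x : List PP × HS M) : ℕ := (x.1.map ln).sum + x.2.2.1.length

private theorem EE.le {Q : HS M → Prop} {L : List ((SS → Prop) × PP)} {v : SS}
    {x : List PP × HS M} (h : EE Q L v x) : lnL L ≤ le x := by
  have h1 := mat_len h.2.2.2
  have h2 := mk_len v x.1
  unfold KSC.le
  omega

open Classical in
private noncomputable def GG (y z : ℝ) (Q : HS M → Prop) (L : List ((SS → Prop) × PP)) (n : ℕ)
    (v : SS) : ℝ≥0∞ :=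
  ∑' x : List PP × HS M, if EE Q L v x ∧ le x - lnL L = n then ww y z x.1 * wc y z x.2 else 0

private theorem claim (Q : HS M → Prop) (L : List ((SS → Prop) × PP)) (n : ℕ) (v : SS) :
    GG y z Q L n v = ww y z (L.map Prod.snd) * FC M y z (cN M y z (cq M y z Q) (gaps M L)) n v := by
  classical
  induction L generalizing n v with
  | nil =>
    have h1 : FC M y z (cN M y z (cq M y z Q) (gaps M [])) n v =
        ∑' w : SS, ∑ p ∈ Finset.HasAntidiagonal.antidiagonal n,
          (∑' s : List PP, if UC M v s ∧ ed v s = w ∧ (s.map ln).sum = p.1 then ww y z s else 0) *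
          (∑' r : HS M, if (r.1 = w ∧ Q r) ∧ r.2.1.length = p.2 then wc y z r else 0) := by
      change FC M y z (cq M y z Q) n v = _
      unfold FC KN cq
      refine tsum_congr fun w => Finset.sum_congr rfl fun p _ => ?_
      congr 1
      refine tsum_congr fun r => if_congr ?_ rfl rfl
      tauto
    rw [h1, conv (A := UC M v) (a := ed v) (la := fun s => (s.map ln).sum)
      (B := fun w (r : HS M) => r.1 = w ∧ Q r) (lb := fun r : HS M => r.2.1.length)]
    rw [List.map_nil, ww_nil, one_mul]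
    unfold GG
    refine tsum_congr fun x => if_congr ?_ rfl rfl
    obtain ⟨s, r⟩ := x
    have e1 : lnL [] = 0 := rfl
    rw [e1, Nat.sub_zero]
    unfold EE Mat le
    simp only [List.forall₂_nil_right_iff]
    constructor
    · rintro ⟨⟨h2, h3, h4, h5⟩, h6⟩
      exact ⟨(uc_iff h2).2 h5, ⟨h3.symm, h4⟩, h6⟩
    · rintro ⟨h2, ⟨h3, h4⟩, h5⟩
      exact ⟨⟨h2.gc, h3.symm, h4, (uc_iff h2.gc).1 h2⟩, h5⟩
  | cons q L ih =>
    -- the right side
    have h1 : ww y z ((q :: L).map Prod.snd) *
        FC M y z (cN M y z (cq M y z Q) (gaps M (q :: L))) n v =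
        ∑' w : SS, ∑ p ∈ Finset.HasAntidiagonal.antidiagonal n,
          (∑' s : List PP, if UC M v s ∧ ed v s = w ∧ (s.map ln).sum = p.1 then ww y z s else 0) *
          (∑' t : List PP × HS M, if ((q.1 w ∧ KS M w q.2) ∧ EE Q L (w + DD q.2) t) ∧
            le t - lnL L = p.2 then
            wt (ENNReal.ofReal y) (ENNReal.ofReal z) q.2 * (ww y z t.1 * wc y z t.2) else 0) := by
      rw [FC, ← ENNReal.tsum_mul_left]
      refine tsum_congr fun w => ?_
      rw [Finset.mul_sum]
      refine Finset.sum_congr rfl fun p _ => ?_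
      rw [mul_left_comm, KN]
      congr 1
      rw [List.map_cons, ww_cons]
      by_cases hq : q.1 w ∧ KS M w q.2
      · have e1 : cN M y z (cq M y z Q) (gaps M (q :: L)) p.2 w =
            FC M y z (cN M y z (cq M y z Q) (gaps M L)) p.2 (w + DD q.2) := if_pos hq
        rw [e1, mul_assoc, ← ih, GG, ← ENNReal.tsum_mul_left]
        refine tsum_congr fun t => ?_
        by_cases h2 : EE Q L (w + DD q.2) t ∧ le t - lnL L = p.2
        · rw [if_pos h2, if_pos ⟨⟨hq, h2.1⟩, h2.2⟩]
        · rw [if_neg h2, if_neg (fun h3 => h2 ⟨h3.1.2, h3.2⟩), mul_zero]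
      · have e1 : cN M y z (cq M y z Q) (gaps M (q :: L)) p.2 w = 0 := if_neg hq
        rw [e1, mul_zero, eq_comm, ENNReal.tsum_eq_zero]
        intro t
        exact if_neg fun h3 => hq h3.1.1
    rw [h1, conv (A := UC M v) (a := ed v) (la := fun s => (s.map ln).sum)
      (B := fun w (t : List PP × HS M) => (q.1 w ∧ KS M w q.2) ∧ EE Q L (w + DD q.2) t)
      (lb := fun t => le t - lnL L)
      (g := fun t => wt (ENNReal.ofReal y) (ENNReal.ofReal z) q.2 * (ww y z t.1 * wc y z t.2))]
    -- both sides are sums over the splittings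
    let X : Type := {x : List PP × List PP × HS M // UC M v x.1 ∧ KS M (ed v x.1) q.2}
    let i : X → List PP × HS M := fun x => (x.1.1 ++ q.2 :: x.1.2.1, x.1.2.2)
    have hi : Function.Injective i := by
      rintro ⟨⟨a, b, c⟩, ha, hb⟩ ⟨⟨a', b', c'⟩, ha', hb'⟩ h
      simp only [i, Prod.mk.injEq] at h
      obtain ⟨h2, h3⟩ := split_inj ha ha' hb hb' h.1
      have h4 := h.2
      subst h2 h3 h4
      rfl
    have hs : Function.support (fun x : List PP × HS M => if EE Q (q :: L) v x ∧
        le x - lnL (q :: L) = n then ww y z x.1 * wc y z x.2 else 0) ⊆ Set.range i := by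
      rintro ⟨s, r⟩ h
      rw [Function.mem_support] at h
      split_ifs at h with h2
      · obtain ⟨s0, s1, h3, h4, h5⟩ := exists_split h2.1.1 h2.1.2.2.2
        exact ⟨⟨(s0, s1, r), h4, h5⟩, by simp only [i, h3]⟩
      · exact absurd rfl h
    let j : X → List PP × List PP × HS M := fun x => x.1
    have hj : Function.Injective j := Subtype.val_injective
    have hs' : Function.support (fun x : List PP × List PP × HS M => if UC M v x.1 ∧
        ((q.1 (ed v x.1) ∧ KS M (ed v x.1) q.2) ∧ EE Q L (ed v x.1 + DD q.2) x.2) ∧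
        (x.1.map ln).sum + (le x.2 - lnL L) = n then ww y z x.1 *
        (wt (ENNReal.ofReal y) (ENNReal.ofReal z) q.2 * (ww y z x.2.1 * wc y z x.2.2)) else 0) ⊆
          Set.range j := by
      rintro x h
      rw [Function.mem_support] at h
      split_ifs at h with h2
      · exact ⟨⟨x, h2.1, h2.2.1.1.2⟩, rfl⟩
      · exact absurd rfl h
    rw [GG, ← hi.tsum_eq hs, ← hj.tsum_eq hs']
    refine tsum_congr fun x => ?_
    obtain ⟨⟨s0, s1, r⟩, h0, hk⟩ := x
    simp only [i, j]
    have e1 := split_iff (s1 := s1) (L := L) h0 hk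
    have e2 : ed v (s0 ++ q.2 :: s1) = ed (ed v s0 + DD q.2) s1 := by
      rw [ed_append, ed_cons]
    have e3 : le (s0 ++ q.2 :: s1, r) = (s0.map ln).sum + ln q.2 + le (s1, r) := by
      unfold le
      simp only [List.map_append, List.map_cons, List.sum_append, List.sum_cons]
      omega
    have e4 : lnL (q :: L) = ln q.2 + lnL L := by
      unfold lnL
      rw [List.map_cons, List.sum_cons]
    have e5 : ww y z (s0 ++ q.2 :: s1) * wc y z r = ww y z s0 *
        (wt (ENNReal.ofReal y) (ENNReal.ofReal z) q.2 * (ww y z s1 * wc y z r)) := by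
      rw [ww_append, ww_cons]
      ring
    rw [e5]
    refine if_congr ?_ rfl rfl
    constructor
    · rintro ⟨⟨h2, h3, h4, h5⟩, h6⟩
      obtain ⟨h7, h8, h9⟩ := e1.1 ⟨h2, h5⟩
      have h10 : EE Q L (ed v s0 + DD q.2) (s1, r) := ⟨h8, by rw [← e2]; exact h3, h4, h9⟩
      refine ⟨h0, ⟨⟨h7, hk⟩, h10⟩, ?_⟩
      have h11 := h10.le
      rw [e3, e4] at h6
      omega
    · rintro ⟨-, ⟨⟨h2, -⟩, h3⟩, h4⟩
      obtain ⟨h7, h8⟩ := e1.2 ⟨h2, h3.1, h3.2.2.2⟩
      have h11 := h3.le
      refine ⟨⟨h7, by simp only [e2]; exact h3.2.1, h3.2.2.1, h8⟩, ?_⟩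
      rw [e3, e4]
      omega

/-- SC16. -/
theorem mark_id (Q : HS M → Prop) (L : List ((SS → Prop) × PP)) (n : ℕ) :
    SA y z (fun x : CS M => Q x.1.1 ∧ Q x.1.2.2 ∧ Mat (mkA x) L)
        (n + (L.map fun q => ln q.2).sum) =
      ww y z (L.map Prod.snd) * TQ M y z Q (gaps M L) n := by
  classical
  have h1 : ww y z (L.map Prod.snd) * TQ M y z Q (gaps M L) n =
      ∑' w : SS, ∑ p ∈ Finset.HasAntidiagonal.antidiagonal n,
        (∑' r : HS M, if Q r ∧ r.1 = w ∧ r.2.1.length = p.1 then wc y z r else 0) *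
        (∑' x : List PP × HS M, if EE Q L w x ∧ le x - lnL L = p.2 then
          ww y z x.1 * wc y z x.2 else 0) := by
    rw [TQ, ← ENNReal.tsum_mul_left]
    refine tsum_congr fun w => ?_
    rw [Finset.mul_sum]
    refine Finset.sum_congr rfl fun p _ => ?_
    rw [mul_left_comm, ← claim, GG, cq]
  rw [h1, conv (A := Q) (a := fun r : HS M => r.1) (la := fun r : HS M => r.2.1.length)
    (B := fun w (x : List PP × HS M) => EE Q L w x) (lb := fun x => le x - lnL L)
    (g := fun x => ww y z x.1 * wc y z x.2)]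
  let i : CS M → HS M × List PP × HS M := fun x => x.1
  have hi : Function.Injective i := Subtype.val_injective
  have hs : Function.support (fun x : HS M × List PP × HS M => if Q x.1 ∧ EE Q L x.1.1 x.2 ∧
      x.1.2.1.length + (le x.2 - lnL L) = n then
      wc y z x.1 * (ww y z x.2.1 * wc y z x.2.2) else 0) ⊆ Set.range i := by
    rintro x h
    rw [Function.mem_support] at h
    split_ifs at h with h2
    · exact ⟨⟨x, h2.2.1.1, h2.2.1.2.1⟩, rfl⟩
    · exact absurd rfl h
  rw [← hi.tsum_eq hs, SA]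
  refine tsum_congr fun x => ?_
  obtain ⟨⟨h, s, r⟩, h2, h3⟩ := x
  simp only [i]
  have e1 : WA (M := M) y z ⟨(h, s, r), h2, h3⟩ = wc y z h * (ww y z s * wc y z r) := by
    rw [WA, mul_assoc]
  have e2 : lenA (M := M) ⟨(h, s, r), h2, h3⟩ = h.2.1.length + le (s, r) := by
    unfold lenA le
    simp only
    omega
  rw [e1, e2]
  have key : (h.2.1.length + le (s, r) = n + (L.map fun q => ln q.2).sum ∧
      Q h ∧ Q r ∧ Mat (mk h.1 s) L) ↔
      (Q h ∧ EE Q L h.1 (s, r) ∧ h.2.1.length + (le (s, r) - lnL L) = n) := by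
    change _ = n + lnL L ∧ _ ↔ _
    constructor
    · rintro ⟨h4, h5, h6, h7⟩
      have h8 : EE Q L h.1 (s, r) := ⟨h2, h3, h6, h7⟩
      have h9 := h8.le
      exact ⟨h5, h8, by omega⟩
    · rintro ⟨h4, h5, h6⟩
      have h9 := h5.le
      exact ⟨by omega, h4, h5.2.2.1, h5.2.2.2⟩
  by_cases hc : Q h ∧ EE Q L h.1 (s, r) ∧ h.2.1.length + (le (s, r) - lnL L) = n
  · rw [if_pos hc]
    exact if_pos (key.2 hc)
  · rw [if_neg hc]
    exact if_neg (fun h4 => hc (key.1 h4))

/-- The words of the marks are elements of the chain. -/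
theorem ln_marks_le (x : CS M) : ((mkA x).map fun m => ln m.2).sum ≤ lenA x := by
  have h := mk_len x.1.1.1 x.1.2.1
  unfold mkA lenA
  omega

end Pool.Agent.KSC
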