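import Pool.Agent.KSC.Kern
import Pool.Agent.KSC.Occ

/-! SC20: one gap near the origin.

PROOF. As `KComp/NearOne.lean`, with the paths of `exists_paths` in the slab, `nrm (pr v) ≤ R` instead of `nrm v ≤ R`, and
`(sys M y z).Ch` instead of `(sys y z).Ch` (`uc_vc`). -/

set_option autoImplicit false

open Pool.Agent.LK
open scoped ENNReal

namespace Pool.Agent.KSC

open Pool.Agent.KTube Pool.Agent.KRing Pool.Agent.KLog

variable {M : ℕ} {y z : ℝ}

/-- SC20. -/
theorem near_one (h : Cr M y z) {q0 : (SS → Prop) × SS} {R : ℕ} (hq0 : GapOk M [q0])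
    (hR : ∀ v, q0.1 v → nrm (pr v) ≤ R) (n : ℕ) :
    TQ M y z UH [q0] n ≤ 40 ^ mm q0.2 * (sys M y z).sum (n + lam z q0.2)
      fun x => (((sys M y z).oc (fun v _ => nrm (pr v) ≤ R) x + 1 : ℕ) : ℝ≥0∞) := by
  sorry

end Pool.Agent.KSC
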