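import Pool.Agent.KSC.FCl

/-! SC11: removing the gaps one after the other.

PROOF. As `KComp/Nest.lean`, with `fc_mono`, `fc_mark` of this folder; `GapOk M` instead of `GapOk`. -/

set_option autoImplicit false

open Pool.Agent.LK
open scoped ENNReal

namespace Pool.Agent.KSC

open Pool.Agent.KTube Pool.Agent.KRing Pool.Agent.KLog

variable {M : ℕ} {y z : ℝ}

/-- The cost of the paths in the gaps. -/
noncomputable def Pm (qs : List ((SS → Prop) × SS)) : ℝ≥0∞ :=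
  (qs.map fun q => (40 : ℝ≥0∞) ^ mm q.2).prod

/-- The number of points of the paths in the gaps. -/
noncomputable def La (z : ℝ) (qs : List ((SS → Prop) × SS)) : ℕ :=
  (qs.map fun q => lam z q.2).sum

theorem nest (h : Cr M y z) (c : ℕ → SS → ℝ≥0∞) {qs : List ((SS → Prop) × SS)}
    (hqs : GapOk M qs) (n : ℕ) (v : SS) :
    FC M y z (cN M y z c qs) n v ≤
      Pm qs * ((n + La z qs + 1 : ℕ) : ℝ≥0∞) ^ qs.length * FC M y z c (n + La z qs) v := by
  sorry

theorem nest_tq (h : Cr M y z) (Q : HS M → Prop) {qs1 : List ((SS → Prop) × SS)}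
    (hqs : GapOk M qs1) (qs : List ((SS → Prop) × SS)) (n : ℕ) :
    TQ M y z Q (qs1 ++ qs) n ≤
      Pm qs1 * ((n + La z qs1 + 1 : ℕ) : ℝ≥0∞) ^ qs1.length *
        TQ M y z Q qs (n + La z qs1) := by
  sorry

theorem nest_end (h : Cr M y z) (Q : HS M → Prop) (q0 : (SS → Prop) × SS)
    {qs : List ((SS → Prop) × SS)} (hqs : GapOk M qs) (n : ℕ) :
    TQ M y z Q (q0 :: qs) n ≤
      Pm qs * ((n + La z qs + 1 : ℕ) : ℝ≥0∞) ^ qs.length * TQ M y z Q [q0] (n + La z qs) := by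
  sorry

/-- **All gaps but one.** -/
theorem nest_mid (h : Cr M y z) (Q : HS M → Prop) {qs1 qs2 : List ((SS → Prop) × SS)}
    (q0 : (SS → Prop) × SS) (hqs : GapOk M (qs1 ++ qs2)) (n : ℕ) :
    TQ M y z Q (qs1 ++ q0 :: qs2) n ≤
      Pm (qs1 ++ qs2) * ((n + La z (qs1 ++ qs2) + 1 : ℕ) : ℝ≥0∞) ^ (qs1.length + qs2.length) *
        TQ M y z Q [q0] (n + La z (qs1 ++ qs2)) := by
  sorry

end Pool.Agent.KSC
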