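import Pool.Agent.KSC.Basic
import Pool.Agent.KComp.UnitW

/-! SC8a: the weight of a unit.

PROOF. As `KComp/UnitW.lean` (`M0 z = ⌈1 / (20 z)⌉₊` is the same number); here `1 - q ≤ 17/2 z` is a hypothesis
(`h.q_ge`), so the private lemmas `cr_q`, `cr_pow` there hold. Both weights are `q z` (`hgt = 1`, `ln = 3`). -/

set_option autoImplicit false

open Pool.Agent.LK
open scoped ENNReal

namespace Pool.Agent.KSC

open Pool.Agent.KTube Pool.Agent.KRing Pool.Agent.KLog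

open Pool.Agent.KComp (M0)

variable {M : ℕ} {y z : ℝ}

theorem M0_pos (h : Cr M y z) : 1 ≤ M0 z := by
  have hz := h.z_pos
  rw [M0, Nat.one_le_iff_ne_zero, Nat.ne_zero_iff_zero_lt, Nat.ceil_pos]
  positivity

private theorem cr_q (h : Cr M y z) : 1 - 9 * z ≤ y * z ^ 2 := by
  have hz := h.z_pos
  have h1 := h.q_ge
  linarith

private theorem cr_pow (h : Cr M y z) : 1 / 2 ≤ (y * z ^ 2) ^ M0 z := by
  have hz := h.z_pos
  have h1 := cr_q h
  have h3 : (M0 z : ℝ) ≤ 1 / (20 * z) + 1 := (Nat.ceil_lt_add_one (by positivity)).le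
  have h4 := one_add_mul_le_pow (a := y * z ^ 2 - 1) (by
    have := mul_pos h.y_pos (pow_pos hz 2)
    linarith) (M0 z)
  rw [add_sub_cancel] at h4
  refine le_trans ?_ h4
  have h5 : (M0 z : ℝ) * (9 * z) ≤ 9 / 20 + 9 * z := by
    calc (M0 z : ℝ) * (9 * z) ≤ (1 / (20 * z) + 1) * (9 * z) :=
          mul_le_mul_of_nonneg_right h3 (by positivity)
      _ = 9 / 20 + 9 * z := by
          field_simp
  have h6 : (M0 z : ℝ) * (1 - y * z ^ 2) ≤ (M0 z : ℝ) * (9 * z) :=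
    mul_le_mul_of_nonneg_left (by linarith) (Nat.cast_nonneg _)
  have h7 : z ≤ 1 / 1000 := h.z_le.trans (by norm_num)
  linarith

/-- SC8a. -/
theorem unit_weight (h : Cr M y z) {π : PP} (e : ℤ × ℤ)
    (hπ : π = ([], [(e.1, e.2, 0)]) ∨ π = ([(e.1, e.2, 0)], [])) : 1 ≤ 40 * ((M0 z : ℝ≥0∞) *
    (wt (ENNReal.ofReal y) (ENNReal.ofReal z) ([], []) ^ (M0 z - 1) *
      wt (ENNReal.ofReal y) (ENNReal.ofReal z) π)) := by
  have hz := h.z_pos
  have hy := h.y_pos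
  have hq : 0 ≤ y * z ^ 2 := by positivity
  have e1 : wt (ENNReal.ofReal y) (ENNReal.ofReal z) ([], []) = ENNReal.ofReal (y * z ^ 2) := by
    rw [ENNReal.ofReal_mul hy.le, ENNReal.ofReal_pow hz.le]
    simp [wt, KLog.hgt]
  have e2 : wt (ENNReal.ofReal y) (ENNReal.ofReal z) π = ENNReal.ofReal (y * z ^ 2 * z) := by
    rw [ENNReal.ofReal_mul hq, ENNReal.ofReal_mul hy.le, ENNReal.ofReal_pow hz.le]
    rcases hπ with rfl | rfl
    · have e5 : (KLog.hgt ([], [(e.1, e.2, 0)])).toNat = 1 := rfl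
      simp only [wt, e5, List.length_nil, List.length_cons, zero_add, pow_one]
      rw [mul_assoc, ← pow_succ, add_comm 1 2]
    · have e5 : (KLog.hgt ([(e.1, e.2, 0)], [])).toNat = 1 := rfl
      simp only [wt, e5, List.length_nil, List.length_cons, zero_add, add_zero, pow_one]
      rw [mul_assoc, ← pow_succ, add_comm 1 2]
  have e3 : (40 : ℝ≥0∞) = ENNReal.ofReal 40 := by norm_num
  have e4 : (M0 z : ℝ≥0∞) = ENNReal.ofReal (M0 z : ℝ) := by
    rw [ENNReal.ofReal_natCast]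
  rw [e1, e2, e3, e4, ← ENNReal.ofReal_pow hq, ← ENNReal.ofReal_mul (by positivity),
    ← ENNReal.ofReal_mul (by positivity), ← ENNReal.ofReal_mul (by positivity),
    ENNReal.one_le_ofReal]
  have h1 := cr_pow h
  have h2 : 1 / 20 ≤ (M0 z : ℝ) * z := by
    have h3 : 1 / (20 * z) ≤ (M0 z : ℝ) := Nat.le_ceil _
    calc 1 / 20 = 1 / (20 * z) * z := by field_simp
      _ ≤ _ := mul_le_mul_of_nonneg_right h3 hz.le
  have h3 : (y * z ^ 2) ^ (M0 z - 1) * (y * z ^ 2 * z) = (y * z ^ 2) ^ M0 z * z := by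
    rw [← mul_assoc, ← pow_succ, Nat.sub_add_cancel (M0_pos h)]
  rw [h3]
  have h4 : (1 / 20) * (1 / 2) ≤ ((M0 z : ℝ) * z) * (y * z ^ 2) ^ M0 z :=
    mul_le_mul h2 h1 (by norm_num) (by positivity)
  calc (1 : ℝ) = 40 * ((1 / 20) * (1 / 2)) := by norm_num
    _ ≤ 40 * (((M0 z : ℝ) * z) * (y * z ^ 2) ^ M0 z) := by linarith
    _ = _ := by ring

end Pool.Agent.KSC
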