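import Pool.Agent.KSC.Pth
import Pool.Agent.KSC.UnitW
import Pool.Agent.KTop.ShearAll

/-! SC8b: paths with entropy.

A unit for a step `e : SS` with `nr e = 1` is a list of `M0 z` blocks, `M0 z - 1` empty ones and one block `stp e` at the
place `i < M0 z`: `stp (±1, 0, 0) = ([], [(±1, 0, 0)])`, `stp (0, ±1, 0) = ([(0, ±1, 0)], [])`,
`stp (0, 0, ±1) = ([], [(0, ±1, 0)])`; `DD (stp e) = e`, `ln (stp e) = 3`, `DD ([], []) = 0`, `ln ([], []) = 2`. These blocks are
allowed (`US`) at `v` if `v` and `v + e` are possible: they are basic (`Bas`), for `Valid` see `KLog.bas_valid_iff` or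
`KComp/Path.lean` (`unt_uc`); the walks are in the slab since the heights of `v` and `v + e` are. The sum of the
weights over `i` is at least `1 / 40` (`unit_weight`).
PROOF. As `KComp/Path.lean`. By induction on `Pth M v w k` there is a finite set `D` of lists with `UC M v s`, `ed v s = w`,
`s.length = k * M0 z`, `(s.map ln).sum = k * (2 * M0 z + 1)` and `1 ≤ 40 ^ k * ∑ s ∈ D, ww y z s`: `D = {[]}` for `k = 0`; for a
further step at the beginning take the image of `(i, s) ↦ unit i ++ s`, injective since all units have the same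
length and the place `i` of the step can be seen. Then `exists_pth` with `w = v + u`, `k = nr u + 4 = mm u`. -/

set_option autoImplicit false

open Pool.Agent.LK
open scoped ENNReal

namespace Pool.Agent.KSC

open Pool.Agent.KTube Pool.Agent.KRing Pool.Agent.KLog

open Pool.Agent.KAsym (ln)
open Pool.Agent.KComp (M0 ww ww_nil ww_cons ww_append)

variable {M : ℕ} {y z : ℝ} {v u : SS}

/-- The number of steps of a path with the displacement `u`. -/
def mm (u : SS) : ℕ := nr u + 4

/-- Its number of points. -/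
noncomputable def lam (z : ℝ) (u : SS) : ℕ := mm u * (2 * M0 z + 1)

/-- The block of the step `e`. -/
private def stB (e : SS) : PP :=
  if e.2.1 = 0 then ([], [(e.1, e.2.2, 0)]) else ([(0, e.2.1, 0)], [])

private theorem nr_cases {e : SS} (he : nr e = 1) :
    (e.2.1 = 0 ∧ ∃ i : Fin 4, e4 i = (e.1, e.2.2)) ∨
      (e.2.1 ≠ 0 ∧ e.1 = 0 ∧ e.2.2 = 0 ∧ ∃ i : Fin 4, e4 i = (0, e.2.1)) := by
  obtain ⟨a, b, c⟩ := e
  simp only [nr] at he ⊢
  have h : (b = 0 ∧ a = 1 ∧ c = 0) ∨ (b = 0 ∧ a = -1 ∧ c = 0) ∨ (b = 0 ∧ a = 0 ∧ c = 1) ∨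
      (b = 0 ∧ a = 0 ∧ c = -1) ∨ (b = 1 ∧ a = 0 ∧ c = 0) ∨ (b = -1 ∧ a = 0 ∧ c = 0) := by
    omega
  rcases h with ⟨rfl, rfl, rfl⟩ | ⟨rfl, rfl, rfl⟩ | ⟨rfl, rfl, rfl⟩ | ⟨rfl, rfl, rfl⟩ |
    ⟨rfl, rfl, rfl⟩ | ⟨rfl, rfl, rfl⟩
  · exact Or.inl ⟨rfl, 0, rfl⟩
  · exact Or.inl ⟨rfl, 1, rfl⟩
  · exact Or.inl ⟨rfl, 2, rfl⟩
  · exact Or.inl ⟨rfl, 3, rfl⟩
  · exact Or.inr ⟨by norm_num, rfl, rfl, 2, rfl⟩
  · exact Or.inr ⟨by norm_num, rfl, rfl, 3, rfl⟩

private theorem stB_ln (e : SS) : ln (stB e) = 3 := by
  unfold stB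
  split_ifs
  · rfl
  · rfl

private theorem stB_ne (e : SS) : stB e ≠ ([], []) := by
  unfold stB
  split_ifs
  · simp
  · simp

private theorem DD_nil : DD (([], []) : PP) = 0 := by
  simp [DD, dsp, hz]

private theorem stB_DD {e : SS} (he : nr e = 1) : DD (stB e) = e := by
  rcases nr_cases he with ⟨h1, -⟩ | ⟨h1, h2, h3, -⟩
  · obtain ⟨a, b, c⟩ := e
    simp only at h1
    subst h1
    simp [stB, DD, dsp, hz]
  · obtain ⟨a, b, c⟩ := e
    simp only at h1 h2 h3
    subst h2 h3
    simp [stB, h1, DD, dsp, hz]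

private theorem stB_form (e : SS) : ∃ d : ℤ × ℤ,
    stB e = ([], [(d.1, d.2, 0)]) ∨ stB e = ([(d.1, d.2, 0)], []) := by
  unfold stB
  split_ifs
  · exact ⟨(e.1, e.2.2), Or.inl rfl⟩
  · exact ⟨(0, e.2.1), Or.inr rfl⟩

private theorem us_nil (hv : Al M v) : US M v ([], []) := by
  refine ⟨valid_nil.2 hv.1, ?_, ?_⟩
  · intro p hp
    simp only [wk_nil, List.mem_singleton] at hp
    subst hp
    simpa using hv.2.1
  · intro p hp
    simp only [wk_nil, List.mem_singleton] at hp
    subst hp
    simpa using hv.2.2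

private theorem us_stB {e : SS} (he : nr e = 1) (hv : Al M v) (hve : Al M (v + e)) :
    US M v (stB e) := by
  rcases nr_cases he with ⟨h1, i, hi⟩ | ⟨h1, h2, h3, i, hi⟩
  · obtain ⟨a, b, c⟩ := e
    simp only at h1 hi
    subst h1
    have hs : stB (a, 0, c) = ([], [st4 i]) := by
      simp [stB, st4, hi]
    have hpr : pr (v + (a, 0, c)) = pr v + e4 i := by
      rw [pr_add, hi]
      simp [pr]
    have hh := hve.2.2
    simp only [Prod.snd_add] at hh
    rw [hs]
    refine ⟨(valid_right i).2 ⟨hv.1, ?_⟩, ?_, ?_⟩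
    · rw [← hpr]
      exact hve.1
    · intro p hp
      simp only [wk_nil, List.mem_singleton] at hp
      subst hp
      simpa using hv.2.1
    · intro p hp
      simp only [wk_nil, wk_cons, List.mem_cons, List.not_mem_nil, or_false] at hp
      rcases hp with rfl | rfl
      · simpa using hv.2.2
      · simp only [st4, hi, Prod.mk_add_mk]
        constructor <;> linarith [hh.1, hh.2]
  · obtain ⟨a, b, c⟩ := e
    simp only at h1 h2 h3 hi
    subst h2 h3
    have hs : stB (0, b, 0) = ([st4 i], []) := by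
      simp [stB, st4, hi, h1]
    have hpr : pr (v + (0, b, 0)) = pr v - e4 i := by
      rw [pr_add, hi]
      simp [pr, sub_eq_add_neg]
    have hh := hve.2.1
    simp only [Prod.snd_add, Prod.fst_add] at hh
    rw [hs]
    refine ⟨(valid_left i).2 ⟨hv.1, ?_⟩, ?_, ?_⟩
    · intro h
      refine hve.1 ?_
      rw [hpr, h, sub_self]
    · intro p hp
      simp only [wk_nil, wk_cons, List.mem_cons, List.not_mem_nil, or_false] at hp
      rcases hp with rfl | rfl
      · simpa using hv.2.1
      · simp only [st4, hi, Prod.mk_add_mk]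
        constructor <;> linarith [hh.1, hh.2]
    · intro p hp
      simp only [wk_nil, List.mem_singleton] at hp
      subst hp
      simpa using hv.2.2

/-- The unit with the step `e` at the place `i`. -/
private noncomputable def unt (z : ℝ) (e : SS) (i : ℕ) : List PP :=
  List.replicate i ([], []) ++ stB e :: List.replicate (M0 z - 1 - i) ([], [])

private theorem unt_length {e : SS} {i : ℕ} (hi : i < M0 z) : (unt z e i).length = M0 z := by
  simp only [unt, List.length_append, List.length_cons, List.length_replicate]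
  omega

private theorem unt_ln {e : SS} {i : ℕ} (hi : i < M0 z) :
    ((unt z e i).map ln).sum = 2 * M0 z + 1 := by
  have h1 : ln (([], []) : PP) = 2 := rfl
  simp only [unt, List.map_append, List.map_cons, List.map_replicate, List.sum_append,
    List.sum_cons, List.sum_replicate, h1, stB_ln, smul_eq_mul]
  omega

private theorem unt_ed (v : SS) {e : SS} (he : nr e = 1) (i : ℕ) :
    ed v (unt z e i) = v + e := by
  simp only [ed, unt, List.map_append, List.map_cons, List.map_replicate, List.sum_append,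
    List.sum_cons, List.sum_replicate, DD_nil, stB_DD he, smul_zero, zero_add, add_zero]

private theorem unt_ww (e : SS) {i : ℕ} (hi : i < M0 z) : ww y z (unt z e i) =
    wt (ENNReal.ofReal y) (ENNReal.ofReal z) ([], []) ^ (M0 z - 1) *
      wt (ENNReal.ofReal y) (ENNReal.ofReal z) (stB e) := by
  have h1 : M0 z - 1 = i + (M0 z - 1 - i) := by omega
  simp only [unt, ww_append, ww_cons]
  have h2 : ∀ j : ℕ, ww y z (List.replicate j (([], []) : PP)) =
      wt (ENNReal.ofReal y) (ENNReal.ofReal z) ([], []) ^ j := by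
    intro j
    simp [ww]
  rw [h2, h2]
  conv_rhs => rw [h1, pow_add]
  ring

private theorem uc_replicate {v : SS} (hv : Al M v) (j : ℕ) :
    UC M v (List.replicate j (([], []) : PP)) := by
  induction j with
  | zero => exact hv
  | succ j ih =>
    refine ⟨us_nil hv, ?_⟩
    rw [DD_nil, add_zero]
    exact ih

private theorem unt_uc {v e : SS} (hv : Al M v) (he : nr e = 1) (hve : Al M (v + e)) (i : ℕ) :
    UC M v (unt z e i) := by
  unfold unt
  rw [uc_append]
  have h1 : ed v (List.replicate i (([], []) : PP)) = v := by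
    simp only [ed, List.map_replicate, List.sum_replicate, DD_nil, smul_zero, add_zero]
  rw [h1]
  refine ⟨uc_replicate hv i, us_stB he hv hve, ?_⟩
  rw [stB_DD he]
  exact uc_replicate hve _

private theorem unt_inj {e : SS} {i j : ℕ} (hi : i < M0 z) (hj : j < M0 z)
    (h : unt z e i = unt z e j) : i = j := by
  have key : ∀ i j : ℕ, i < M0 z → j < M0 z → i < j → unt z e i ≠ unt z e j := by
    intro i j hi hj hij h
    have h1 : (unt z e i)[i]? = some (stB e) := by
      unfold unt
      rw [List.getElem?_append_right (by rw [List.length_replicate])]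
      simp
    have h2 : (unt z e j)[i]? = some ([], []) := by
      unfold unt
      rw [List.getElem?_append_left (by rw [List.length_replicate]; exact hij)]
      simp [hij]
    rw [h, h2] at h1
    exact stB_ne e (Option.some.inj h1).symm
  rcases Nat.lt_trichotomy i j with hlt | heq | hgt
  · exact absurd h (key i j hi hj hlt)
  · exact heq
  · exact absurd h.symm (key j i hj hi hgt)

private theorem Pth.al {v w : SS} {k : ℕ} (h : Pth M v w k) : Al M v := by
  cases h with
  | nil hv => exact hv
  | cons hv _ _ => exact hv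

private theorem exists_lists (h : Cr M y z) {v w : SS} {k : ℕ} (hp : Pth M v w k) :
    ∃ D : Finset (List PP),
      (∀ s ∈ D, UC M v s ∧ ed v s = w ∧ s.length = k * M0 z ∧
        (s.map ln).sum = k * (2 * M0 z + 1)) ∧
      1 ≤ 40 ^ k * ∑ s ∈ D, ww y z s := by
  classical
  induction hp with
  | nil hv =>
    refine ⟨{[]}, ?_, ?_⟩
    · intro s hs
      rw [Finset.mem_singleton] at hs
      subst hs
      exact ⟨hv, ed_nil _, by simp, by simp⟩
    · rw [Finset.sum_singleton, ww_nil, pow_zero, one_mul]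
  | @cons v w e k hv he hp ih =>
    obtain ⟨D, hD, hs⟩ := ih
    have hve : Al M (v + e) := hp.al
    refine ⟨(Finset.range (M0 z) ×ˢ D).image (fun p => unt z e p.1 ++ p.2), ?_, ?_⟩
    · intro s hs
      obtain ⟨⟨i, t⟩, hit, rfl⟩ := Finset.mem_image.1 hs
      obtain ⟨hi, ht⟩ := Finset.mem_product.1 hit
      rw [Finset.mem_range] at hi
      simp only at hi ht
      obtain ⟨h1, h2, h3, h4⟩ := hD t ht
      simp only
      refine ⟨?_, ?_, ?_, ?_⟩
      · rw [uc_append, unt_ed v he]
        exact ⟨unt_uc hv he hve i, h1⟩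
      · rw [ed_append, unt_ed v he, h2]
      · rw [List.length_append, unt_length hi, h3]
        ring
      · rw [List.map_append, List.sum_append, unt_ln hi, h4]
        ring
    · have hinj : Set.InjOn (fun p : ℕ × List PP => unt z e p.1 ++ p.2)
          ((Finset.range (M0 z) ×ˢ D : Finset (ℕ × List PP)) : Set (ℕ × List PP)) := by
        rintro ⟨i, s⟩ his ⟨j, t⟩ hjt hst
        rw [Finset.mem_coe, Finset.mem_product] at his hjt
        have hi : i < M0 z := Finset.mem_range.1 his.1
        have hj : j < M0 z := Finset.mem_range.1 hjt.1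
        simp only at hst
        obtain ⟨h1, h2⟩ := List.append_inj hst (by rw [unt_length hi, unt_length hj])
        rw [unt_inj hi hj h1, h2]
      have hsum : ∑ s ∈ (Finset.range (M0 z) ×ˢ D).image (fun p => unt z e p.1 ++ p.2),
          ww y z s = ((M0 z : ℝ≥0∞) *
          (wt (ENNReal.ofReal y) (ENNReal.ofReal z) ([], []) ^ (M0 z - 1) *
            wt (ENNReal.ofReal y) (ENNReal.ofReal z) (stB e))) *
          ∑ s ∈ D, ww y z s := by
        rw [Finset.sum_image hinj, Finset.sum_product]
        have h1 : ∀ i ∈ Finset.range (M0 z), ∑ s ∈ D, ww y z (unt z e i ++ s) =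
            (wt (ENNReal.ofReal y) (ENNReal.ofReal z) ([], []) ^ (M0 z - 1) *
            wt (ENNReal.ofReal y) (ENNReal.ofReal z) (stB e)) *
            ∑ s ∈ D, ww y z s := by
          intro i hi
          rw [Finset.mul_sum]
          refine Finset.sum_congr rfl fun s _ => ?_
          rw [ww_append, unt_ww e (Finset.mem_range.1 hi)]
        rw [Finset.sum_congr rfl h1, Finset.sum_const, Finset.card_range, nsmul_eq_mul, mul_assoc,
          mul_assoc, mul_assoc]
      rw [hsum]
      obtain ⟨d, hd⟩ := stB_form e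
      calc (1 : ℝ≥0∞) = 1 * 1 := (one_mul 1).symm
        _ ≤ (40 * ((M0 z : ℝ≥0∞) *
          (wt (ENNReal.ofReal y) (ENNReal.ofReal z) ([], []) ^ (M0 z - 1) *
            wt (ENNReal.ofReal y) (ENNReal.ofReal z) (stB e)))) *
          (40 ^ k * ∑ s ∈ D, ww y z s) := mul_le_mul' (unit_weight h d hd) hs
        _ = _ := by rw [pow_succ]; ring

/-- SC8b: **Paths with entropy.** -/
theorem exists_paths (h : Cr M y z) (hv : Al M v) (hu : Al M (v + u)) : ∃ D : Finset (List PP),
    (∀ s ∈ D, UC M v s ∧ ed v s = v + u ∧ s.length = mm u * M0 z ∧ (s.map ln).sum = lam z u) ∧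
    1 ≤ 40 ^ mm u * ∑ s ∈ D, ww y z s := by
  have hp := exists_pth h.M_pos hv hu
  rw [add_sub_cancel_left] at hp
  exact exists_lists h hp

end Pool.Agent.KSC
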