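import Pool.Agent.KSC.Basic

/-! SC7: paths of a given length through possible states.

PROOF. `Al M (u, a, b)`: `0 ≤ a ≤ M`, `0 ≤ b ≤ M`, and `u ≠ 0 ∨ a ≠ b`. First the concatenation
`Pth M v x k → Pth M x w l → Pth M v w (k + l)`, `Pth M v v 2` for possible `v` (a step `(±1, 0, 0)` with `v + e` possible, and
back), and monotone straight paths in the three directions (if all the intermediate states are possible). Then
there is a path from `v = (u, a, b)` to `w = (u', a', b')` with `nr (w - v)` or `nr (w - v) + 2` steps: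
* `u ≠ 0`, `u' ≠ 0`: if `u`, `u'` have the same sign, or `a ≠ b`: first move `u` to `u'` (at the heights `a`, `b`; if the signs
  differ then `a ≠ b`, so all states are possible), then the heights (at `u' ≠ 0` all states are possible). If the
  signs differ, `a = b` and `a' ≠ b'`: first the heights, then `u`. If the signs differ, `a = b`, `a' = b'`, `a ≠ a'`: first the
  second coordinate to `a'`, then `u` to `u'`, then the third coordinate. If `a = b = a' = b'`: a step of the height `a` (up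
  or down, `1 ≤ M`), `u` to `u'`, and the step back: two additional steps.
* `u = 0` (so `a ≠ b`), `u' ≠ 0`: first `u`, then the heights. `u ≠ 0`, `u' = 0`: first the heights, then `u`.
* `u = u' = 0`: a step `(1, 0, 0)`, the heights, a step `(-1, 0, 0)`: two additional steps.
Now add one or two pairs of steps: `nr (w - v) + 4` steps. -/

set_option autoImplicit false

open Pool.Agent.LK
open scoped ENNReal

namespace Pool.Agent.KSC

open Pool.Agent.KTube Pool.Agent.KRing Pool.Agent.KLog

variable {M : ℕ} {v w : SS}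

/-- `Pth M v w k`: there is a path of `k` steps from `v` to `w` through possible states. -/
inductive Pth (M : ℕ) : SS → SS → ℕ → Prop
  | nil {v : SS} : Al M v → Pth M v v 0
  | cons {v w e : SS} {k : ℕ} : Al M v → nr e = 1 → Pth M (v + e) w k → Pth M v w (k + 1)

private theorem al_mk {u a b : ℤ} : Al M (u, a, b) ↔
    (u ≠ 0 ∨ a ≠ b) ∧ (0 ≤ a ∧ a ≤ M) ∧ 0 ≤ b ∧ b ≤ M := by
  unfold Al Rg pr
  refine and_congr_left fun _ => ?_
  rw [Ne, Prod.mk_eq_zero, not_and_or]
  refine or_congr Iff.rfl (not_congr ?_)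
  change b - a = 0 ↔ a = b
  omega

private theorem pth_trans {v x w : SS} {k l : ℕ} (h : Pth M v x k) (h' : Pth M x w l) :
    Pth M v w (k + l) := by
  induction h with
  | nil _ => rwa [Nat.zero_add]
  | cons h1 h2 _ ih =>
    have h3 := Pth.cons h1 h2 (ih h')
    rwa [Nat.add_right_comm] at h3

private theorem pth_up (f : ℤ → SS) (d : SS) (hd : nr d = 1) (hf : ∀ t, f (t + 1) = f t + d)
    (n : ℕ) : ∀ x : ℤ, (∀ t, x ≤ t → t ≤ x + n → Al M (f t)) → Pth M (f x) (f (x + n)) n := by
  induction n with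
  | zero =>
    intro x h
    rw [Nat.cast_zero, add_zero]
    exact Pth.nil (h x le_rfl (by omega))
  | succ n ih =>
    intro x h
    refine Pth.cons (h x le_rfl (by omega)) hd ?_
    rw [← hf]
    have h1 := ih (x + 1) fun t h1 h2 => h t (by omega) (by push_cast; omega)
    have h2 : x + 1 + (n : ℤ) = x + ((n + 1 : ℕ) : ℤ) := by push_cast; ring
    rwa [h2] at h1

private theorem pth_down (f : ℤ → SS) (d : SS) (hd : nr (-d) = 1) (hf : ∀ t, f (t + 1) = f t + d)
    (n : ℕ) : ∀ x : ℤ, (∀ t, x - n ≤ t → t ≤ x → Al M (f t)) → Pth M (f x) (f (x - n)) n := by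
  induction n with
  | zero =>
    intro x h
    rw [Nat.cast_zero, sub_zero]
    exact Pth.nil (h x (by omega) le_rfl)
  | succ n ih =>
    intro x h
    refine Pth.cons (h x (by omega) le_rfl) hd ?_
    have h3 : f x + -d = f (x - 1) := by
      have h4 := hf (x - 1)
      rw [sub_add_cancel] at h4
      rw [h4, add_neg_cancel_right]
    rw [h3]
    have h1 := ih (x - 1) fun t h1 h2 => h t (by push_cast; omega) (by omega)
    have h2 : x - 1 - (n : ℤ) = x - ((n + 1 : ℕ) : ℤ) := by push_cast; ring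
    rwa [h2] at h1

private theorem pth_dir (f : ℤ → SS) (d : SS) (hd : nr d = 1) (hd' : nr (-d) = 1)
    (hf : ∀ t, f (t + 1) = f t + d) (x y : ℤ)
    (h : ∀ t, (x ≤ t ∧ t ≤ y) ∨ (y ≤ t ∧ t ≤ x) → Al M (f t)) :
    Pth M (f x) (f y) (y - x).natAbs := by
  rcases le_total x y with hxy | hxy
  · have h1 := pth_up f d hd hf (y - x).natAbs x fun t h1 h2 => h t (Or.inl ⟨h1, by omega⟩)
    have h2 : x + (((y - x).natAbs : ℕ) : ℤ) = y := by omega
    rwa [h2] at h1
  · have h1 := pth_down f d hd' hf (y - x).natAbs x fun t h1 h2 => h t (Or.inr ⟨by omega, h2⟩)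
    have h2 : x - (((y - x).natAbs : ℕ) : ℤ) = y := by omega
    rwa [h2] at h1

private theorem pth_U {a b : ℤ} (x y : ℤ) (ha : 0 ≤ a ∧ a ≤ M) (hb : 0 ≤ b ∧ b ≤ M)
    (h : a ≠ b ∨ (0 < x ∧ 0 < y) ∨ (x < 0 ∧ y < 0)) :
    Pth M (x, a, b) (y, a, b) (y - x).natAbs := by
  refine pth_dir (fun t => ((t, a, b) : SS)) (1, 0, 0) rfl rfl (fun t => ?_) x y fun t ht => ?_
  · change ((t + 1, a, b) : SS) = (t + 1, a + 0, b + 0)
    rw [add_zero, add_zero]
  · refine al_mk.2 ⟨?_, ha, hb⟩
    omega

private theorem pth_A {u b : ℤ} (x y : ℤ) (hx : 0 ≤ x ∧ x ≤ M) (hy : 0 ≤ y ∧ y ≤ M)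
    (hb : 0 ≤ b ∧ b ≤ M) (h : u ≠ 0) : Pth M (u, x, b) (u, y, b) (y - x).natAbs := by
  refine pth_dir (fun t => ((u, t, b) : SS)) (0, 1, 0) rfl rfl (fun t => ?_) x y fun t ht => ?_
  · change ((u, t + 1, b) : SS) = (u + 0, t + 1, b + 0)
    rw [add_zero, add_zero]
  · refine al_mk.2 ⟨Or.inl h, ?_, hb⟩
    omega

private theorem pth_B {u a : ℤ} (x y : ℤ) (hx : 0 ≤ x ∧ x ≤ M) (hy : 0 ≤ y ∧ y ≤ M)
    (ha : 0 ≤ a ∧ a ≤ M) (h : u ≠ 0) : Pth M (u, a, x) (u, a, y) (y - x).natAbs := by
  refine pth_dir (fun t => ((u, a, t) : SS)) (0, 0, 1) rfl rfl (fun t => ?_) x y fun t ht => ?_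
  · change ((u, a, t + 1) : SS) = (u + 0, a + 0, t + 1)
    rw [add_zero, add_zero]
  · refine al_mk.2 ⟨Or.inl h, ha, ?_⟩
    omega

private theorem pth_two (hv : Al M v) : Pth M v v 2 := by
  obtain ⟨u, a, b⟩ := v
  obtain ⟨h1, h2, h3⟩ := al_mk.1 hv
  have key : ∃ y : ℤ, (y - u).natAbs = 1 ∧ (a ≠ b ∨ (0 < u ∧ 0 < y) ∨ (u < 0 ∧ y < 0)) := by
    by_cases h : 0 < u
    · exact ⟨u + 1, by omega, by omega⟩
    · exact ⟨u - 1, by omega, by omega⟩
  obtain ⟨y, h4, h5⟩ := key
  have h6 := pth_U u y h2 h3 h5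
  have h7 := pth_U y u h2 h3 (by omega)
  have h8 : (u - y).natAbs = 1 := by omega
  rw [h4] at h6
  rw [h8] at h7
  exact pth_trans h6 h7

private theorem pth_len {v w : SS} {k l : ℕ} (h : Pth M v w k) (hkl : k = l) : Pth M v w l :=
  hkl ▸ h

private theorem pth_pos (hM : 1 ≤ M) (hv : Al M v) (hw : Al M w) :
    Pth M v w (nr (w - v)) ∨ Pth M v w (nr (w - v) + 2) := by
  obtain ⟨u, a, b⟩ := v
  obtain ⟨u', a', b'⟩ := w
  have hn : nr ((u', a', b') - (u, a, b)) = (u' - u).natAbs + (a' - a).natAbs + (b' - b).natAbs :=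
    rfl
  rw [hn]
  obtain ⟨h1, ha, hb⟩ := al_mk.1 hv
  obtain ⟨h1', ha', hb'⟩ := al_mk.1 hw
  by_cases hu' : u' = 0
  · by_cases hu : u = 0
    · -- both zero
      right
      subst hu
      subst hu'
      have e1 := pth_U (a := a) (b := b) 0 1 ha hb (by omega)
      have e2 := pth_A (u := 1) (b := b) a a' ha ha' hb (by omega)
      have e3 := pth_B (u := 1) (a := a') b b' hb hb' ha' (by omega)
      have e4 := pth_U (a := a') (b := b') 1 0 ha' hb' (by omega)
      exact pth_len (pth_trans (pth_trans (pth_trans e1 e2) e3) e4) (by omega)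
    · left
      have e2 := pth_A (u := u) (b := b) a a' ha ha' hb hu
      have e3 := pth_B (u := u) (a := a') b b' hb hb' ha' hu
      have e4 := pth_U (a := a') (b := b') u u' ha' hb' (by omega)
      exact pth_len (pth_trans (pth_trans e2 e3) e4) (by omega)
  by_cases hu : u = 0
  · left
    have e1 := pth_U (a := a) (b := b) u u' ha hb (by omega)
    have e2 := pth_A (u := u') (b := b) a a' ha ha' hb hu'
    have e3 := pth_B (u := u') (a := a') b b' hb hb' ha' hu'
    exact pth_len (pth_trans (pth_trans e1 e2) e3) (by omega)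
  by_cases h2 : a ≠ b ∨ (0 < u ∧ 0 < u') ∨ (u < 0 ∧ u' < 0)
  · left
    have e1 := pth_U (a := a) (b := b) u u' ha hb h2
    have e2 := pth_A (u := u') (b := b) a a' ha ha' hb hu'
    have e3 := pth_B (u := u') (a := a') b b' hb hb' ha' hu'
    exact pth_len (pth_trans (pth_trans e1 e2) e3) (by omega)
  by_cases h3 : a' = b'
  · by_cases h4 : a = a'
    · right
      have key : ∃ y : ℤ, (y - a).natAbs = 1 ∧ 0 ≤ y ∧ y ≤ M := by
        by_cases h : a + 1 ≤ M
        · exact ⟨a + 1, by omega, by omega, by omega⟩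
        · exact ⟨a - 1, by omega, by omega, by omega⟩
      obtain ⟨y, hy, hy0⟩ := key
      have e1 := pth_A (u := u) (b := b) a y ha hy0 hb hu
      have e2 := pth_U (a := y) (b := b) u u' hy0 hb (by omega)
      have e3 := pth_A (u := u') (b := b) y a' hy0 ha' hb hu'
      have e4 : b = b' := by omega
      rw [← e4]
      exact pth_len (pth_trans (pth_trans e1 e2) e3) (by omega)
    · left
      have e1 := pth_A (u := u) (b := b) a a' ha ha' hb hu
      have e2 := pth_U (a := a') (b := b) u u' ha' hb (by omega)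
      have e3 := pth_B (u := u') (a := a') b b' hb hb' ha' hu'
      exact pth_len (pth_trans (pth_trans e1 e2) e3) (by omega)
  · left
    have e2 := pth_A (u := u) (b := b) a a' ha ha' hb hu
    have e3 := pth_B (u := u) (a := a') b b' hb hb' ha' hu
    have e4 := pth_U (a := a') (b := b') u u' ha' hb' (by omega)
    exact pth_len (pth_trans (pth_trans e2 e3) e4) (by omega)

/-- SC7. -/
theorem exists_pth (hM : 1 ≤ M) (hv : Al M v) (hw : Al M w) : Pth M v w (nr (w - v) + 4) := by
  rcases pth_pos hM hv hw with h | h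
  · exact pth_len (pth_trans h (pth_trans (pth_two hw) (pth_two hw))) (by omega)
  · exact pth_len (pth_trans h (pth_two hw)) (by omega)

end Pool.Agent.KSC
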