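import Pool.Agent.KSC.Words
import Pool.Agent.KComp.Count

/-! SC24: only the chains with `N` short marks and unknotted caps matter.

PROOF. As `KComp/Tail.lean`: `KComp.count_le` for the chain `fg x` in space (`pol_fg`, `mkA_fg`, `UH_fh`). -/

set_option autoImplicit false

open Pool.Agent.LK
open scoped ENNReal

namespace Pool.Agent.KSC

open Pool.Agent.KTube Pool.Agent.KRing Pool.Agent.KLog

open Pool.Agent.KAsym (ln)

variable {M : ℕ} {y z ℓ : ℝ}

/-- The chain has unknotted caps and `N` marks, with at most `j` points each. -/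
def Good (j N : ℕ) (x : CS M) : Prop :=
  UH x.1.1 ∧ UH x.1.2.2 ∧ (mkA x).length = N ∧ ∀ m ∈ mkA x, ln m.2 ≤ j

theorem count_le {N : ℕ} (x : CS M) (h : KTen.Few N (pol x)) : (mkA x).length ≤ N ∧
    ((mkA x).length = N → UH x.1.1 ∧ UH x.1.2.2) := by
  sorry

/-- SC24. -/
theorem tail (h : Bd M y z ℓ) {N : ℕ} {T : Finset (Sym2 P3) → Prop}
    (hT : ∀ E, T E → KTen.Few N E) {ε : ℝ≥0∞} (hε : ε ≠ 0) :
    ∃ n0 j0 : ℕ, ∀ j ≥ j0, ∀ n ≥ n0, Even n → SA y z (fun x : CS M => T (pol x)) n ≤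
      SA y z (fun x : CS M => T (pol x) ∧ Good j N x) n +
        ε * (n : ℝ≥0∞) ^ N * (sys M y z).tot n := by
  sorry

end Pool.Agent.KSC
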