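import Pool.Agent.KSC.CutS
import Pool.Agent.KSC.ChainS

/-! SC29: the polygons in the slab as chains of blocks.

PROOF. As `KComp/TotA.lean`. `ZS C M y n * z ^ n` is the sum over the polygons `E` in `PSl C M` with `n` edges of
`y ^ span E * z ^ n` (finitely many: all vertices have coordinates between `0` and `n`; see `ta_zt_tsum` there and `psl_finite` in
`KSlab/MGen.lean`). Split them into those with a section with two edges (`PSt C M n`) and those without (`ZS0`). For the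
first ones `cut_s` (the sum over `Bool` gives the factor `2`; `y ^ span E = y * y ^ lspan l * y ^ lspan r`,
`z ^ n = z ^ length l * z ^ length r`), and `chain_s w` for each `w`: the triples `(h, s, r)` are the elements of `CS M`. -/

set_option autoImplicit false

open Pool.Agent.LK
open scoped ENNReal

namespace Pool.Agent.KSC

open Pool.Agent.KTube Pool.Agent.KRing Pool.Agent.KLog
open Pool.Agent.KCls (Flat)
open Pool.Agent.KAsym (ln)

variable {M : ℕ} {y z : ℝ}

/-- The normed translate of a polygon in the slab. -/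
private theorem sa_norm {T : Finset (Sym2 P3) → Prop} {E : Finset (Sym2 P3)} (hE : E ∈ PSl T M) :
    ∃ b : ℕ, b ≤ M ∧ Normed (shift (0, -(b : ℤ), 0) E) := by
  obtain ⟨hp, -, h1, ⟨u1, hu1, hu1'⟩, ⟨u2, hu2, hu2'⟩⟩ := hE
  obtain ⟨v, hv, hmin⟩ := Set.exists_min_image (verts E) (fun u : P3 => u.2.1) (verts_finite E)
    hp.verts_nonempty
  have hv0 := (h1 v hv).2.1
  have hvM := (h1 v hv).2.2.1
  have hb : ((v.2.1.toNat : ℕ) : ℤ) = v.2.1 := Int.toNat_of_nonneg hv0
  have hadd : ∀ u ∈ verts E, u + (0, -((v.2.1.toNat : ℕ) : ℤ), 0) ∈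
      verts (shift (0, -((v.2.1.toNat : ℕ) : ℤ), 0) E) := by
    intro u hu
    rw [mem_verts_shift, add_sub_cancel_right]
    exact hu
  refine ⟨v.2.1.toNat, by omega, ?_, ?_, ?_, ?_⟩
  · intro u hu
    rw [mem_verts_shift] at hu
    have h2 := h1 _ hu
    have h3 := hmin _ hu
    simp only [Prod.fst_sub, Prod.snd_sub] at h2 h3
    omega
  · exact ⟨_, hadd u1 hu1, by simp [hu1']⟩
  · refine ⟨_, hadd v hv, ?_⟩
    simp only [Prod.snd_add, Prod.fst_add]
    omega
  · exact ⟨_, hadd u2 hu2, by simp [hu2']⟩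

private theorem sa_back (b : ℤ) (E : Finset (Sym2 P3)) :
    shift (0, b, 0) (shift (0, -b, 0) E) = E := by
  rw [shift_shift]
  have e : ((0, b, 0) : P3) + (0, -b, 0) = 0 := by
    ext <;> simp
  rw [e, shift_zero]

/-- There are finitely many polygons with `n` edges. -/
private theorem sa_finite (T : Finset (Sym2 P3) → Prop) (M n : ℕ) :
    {E | E ∈ PSl T M ∧ E.card = n}.Finite := by
  have h1 : (⋃ b ∈ Finset.range (M + 1), (fun E => shift (0, ((b : ℕ) : ℤ), 0) E) ''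
      KTen.NSet (fun _ => True) n).Finite := by
    refine Set.Finite.biUnion (Finset.finite_toSet _) fun b _ => ?_
    exact (KTen.nset_finite _ n).image _
  refine h1.subset ?_
  rintro E ⟨hE, hn⟩
  obtain ⟨b, hb, hN⟩ := sa_norm hE
  rw [Set.mem_iUnion₂]
  refine ⟨b, Finset.mem_range.2 (by omega), shift (0, -(b : ℤ), 0) E, ?_, sa_back _ _⟩
  exact ⟨isPolygon_shift hE.1 _, trivial, hN, by rw [card_shift, hn]⟩

private theorem sa_sum (hy : 0 ≤ y) (hz : 0 ≤ z) {X : Set (Finset (Sym2 P3))} (hX : X.Finite)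
    (n : ℕ) (hn : ∀ E ∈ X, E.card = n) :
    ENNReal.ofReal ((∑ᶠ E ∈ X, y ^ span E) * z ^ n) =
      ∑' E : X, ENNReal.ofReal y ^ span E.1 * ENNReal.ofReal z ^ E.1.card := by
  classical
  set Y := hX.toFinset with hY
  have hset : X = ↑Y := by rw [hY, Set.Finite.coe_toFinset]
  rw [finsum_mem_eq_finite_toFinset_sum _ hX, ← hY, Finset.sum_mul,
    ENNReal.ofReal_sum_of_nonneg fun E _ => mul_nonneg (pow_nonneg hy _) (pow_nonneg hz _)]
  rw [tsum_congr_set_coe (fun E : Finset (Sym2 P3) => ENNReal.ofReal y ^ span E *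
    ENNReal.ofReal z ^ E.card) hset]
  refine Eq.trans ?_ (Finset.tsum_subtype Y (fun E : Finset (Sym2 P3) => ENNReal.ofReal y ^ span E *
    ENNReal.ofReal z ^ E.card)).symm
  refine Finset.sum_congr rfl fun E hE => ?_
  have hE' : E ∈ X := by
    rw [hY, Set.Finite.mem_toFinset] at hE
    exact hE
  rw [ENNReal.ofReal_mul (pow_nonneg hy _), ENNReal.ofReal_pow hy, ENNReal.ofReal_pow hz,
    hn E hE']

open Classical in
/-- The weight of a pair of a lower half and a cap. -/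
private noncomputable def sa_w (C : Finset (Sym2 P3) → Prop) (y z : ℝ) (n : ℕ)
    (l r : List P3) : ℝ≥0∞ :=
  if l.length + r.length = n ∧ C (ring (flp r ++ l)) then
    wl (ENNReal.ofReal y) (ENNReal.ofReal z) l * wl (ENNReal.ofReal y) (ENNReal.ofReal z) r else 0

/-- The chains, regrouped. -/
private theorem sa_chains (C : Finset (Sym2 P3) → Prop) (M : ℕ) (y z : ℝ) (n : ℕ) :
    SA y z (fun x : CS M => C (pol x)) n = ∑' w : SS, ∑' r : {r // Flat (pr w) r ∧ InS M w.2.1 r},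
      ∑' l : {l : List P3 // (0 : ℤ × ℤ) ≠ pr w ∧ Lower 0 0 (pr w) l ∧ InS M w.2.1 l},
        sa_w C y z n l.1 r.1 := by
  classical
  choose e he using chain_s M
  let E : (Σ h : HS M, {x : HS M × List PP // GC M x.1.1 x.2 ∧ ed x.1.1 x.2 = h.1}) ≃ CS M :=
    { toFun := fun q => ⟨(q.2.1.1, q.2.1.2, q.1), q.2.2⟩
      invFun := fun x => ⟨x.1.2.2, ⟨(x.1.1, x.1.2.1), x.2⟩⟩
      left_inv := fun x => rfl
      right_inv := fun x => rfl }
  unfold SA
  rw [← E.tsum_eq, ENNReal.tsum_sigma', ENNReal.tsum_sigma']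
  refine tsum_congr fun v => tsum_congr fun r => ?_
  rw [← (e v).tsum_eq]
  refine tsum_congr fun x => ?_
  obtain ⟨h1, h2, h3⟩ := he v x
  have hl : lenA (E ⟨⟨v, r⟩, x⟩) = ((e v) x).1.length + r.1.length := by
    rw [h2]
    rfl
  have hp : pol (E ⟨⟨v, r⟩, x⟩) = ring (flp r.1 ++ ((e v) x).1) := by
    rw [h1]
    rfl
  have hw : WA y z (E ⟨⟨v, r⟩, x⟩) = wl (ENNReal.ofReal y) (ENNReal.ofReal z) ((e v) x).1 *
      wl (ENNReal.ofReal y) (ENNReal.ofReal z) r.1 := by
    rw [h3]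
    rfl
  have hQ : (fun x : CS M => C (pol x)) (E ⟨⟨v, r⟩, x⟩) = C (ring (flp r.1 ++ ((e v) x).1)) :=
    congrArg C hp
  unfold sa_w
  rw [hl, hQ, hw]

/-- The polygons, regrouped. -/
private theorem sa_poly {C : Finset (Sym2 P3) → Prop} (hC : TypeClosed C) (M : ℕ) (y z : ℝ)
    (n : ℕ) :
    2 * (∑' E : PSt C M n, ENNReal.ofReal y ^ span E.1 * ENNReal.ofReal z ^ E.1.card) =
      ENNReal.ofReal y * ∑' w : SS, ∑' r : {r // Flat (pr w) r ∧ InS M w.2.1 r},
      ∑' l : {l : List P3 // (0 : ℤ × ℤ) ≠ pr w ∧ Lower 0 0 (pr w) l ∧ InS M w.2.1 l},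
        sa_w C y z n l.1 r.1 := by
  classical
  obtain ⟨e, hs⟩ := cut_s hC M n
  set F : PSt C M n → ℝ≥0∞ := fun E =>
        ENNReal.ofReal y ^ span E.1 * ENNReal.ofReal z ^ E.1.card with hF
  have h1 : 2 * ∑' E, F E = ∑' x : PSt C M n × Bool, F x.1 := by
    rw [ENNReal.tsum_prod', ← ENNReal.tsum_mul_left]
    refine tsum_congr fun E => ?_
    rw [tsum_fintype, Fintype.sum_bool, two_mul]
  set G : (Σ w : SS, {l : List P3 // (0 : ℤ × ℤ) ≠ pr w ∧ Lower 0 0 (pr w) l ∧ InS M w.2.1 l} ×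
      {r : List P3 // Flat (pr w) r ∧ InS M w.2.1 r}) → ℝ≥0∞ :=
    fun p => ENNReal.ofReal y * sa_w C y z n p.2.1.1 p.2.2.1 with hG
  have h2 : ∀ x : PSt C M n × Bool, F x.1 = G (e x).1 := by
    intro x
    have hn := (e x).2.1
    simp only [hF, hG]
    unfold sa_w
    rw [if_pos (e x).2, hs, x.1.2.2.1]
    unfold wl
    have hZn : ENNReal.ofReal z ^ n = ENNReal.ofReal z ^ (e x).1.2.1.1.length *
        ENNReal.ofReal z ^ (e x).1.2.2.1.length := by
      rw [← pow_add, hn]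
    rw [hZn, pow_succ, pow_add]
    ring
  have h3 : ∑' x : PSt C M n × Bool, F x.1 = ∑' t : TSt C M n, G t.1 := by
    rw [tsum_congr h2]
    exact e.tsum_eq (fun t : TSt C M n => G t.1)
  have h4 : ∑' t : TSt C M n, G t.1 = ∑' p, G p := by
    have h5 : ∑' t : TSt C M n, G t.1 = ∑' p, Set.indicator {p : Σ w : SS,
        {l : List P3 // (0 : ℤ × ℤ) ≠ pr w ∧ Lower 0 0 (pr w) l ∧ InS M w.2.1 l} ×
        {r : List P3 // Flat (pr w) r ∧ InS M w.2.1 r} |
        p.2.1.1.length + p.2.2.1.length = n ∧ C (ring (flp p.2.2.1 ++ p.2.1.1))} G p :=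
      tsum_subtype {p : Σ w : SS,
        {l : List P3 // (0 : ℤ × ℤ) ≠ pr w ∧ Lower 0 0 (pr w) l ∧ InS M w.2.1 l} ×
        {r : List P3 // Flat (pr w) r ∧ InS M w.2.1 r} |
        p.2.1.1.length + p.2.2.1.length = n ∧ C (ring (flp p.2.2.1 ++ p.2.1.1))} G
    rw [h5]
    refine tsum_congr fun p => ?_
    by_cases h : p.2.1.1.length + p.2.2.1.length = n ∧ C (ring (flp p.2.2.1 ++ p.2.1.1))
    · exact Set.indicator_of_mem (by exact h) G
    · rw [Set.indicator_of_notMem (by exact h) G]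
      simp only [hG]
      unfold sa_w
      rw [if_neg h, mul_zero]
  rw [h1, h3, h4, ENNReal.tsum_sigma', ← ENNReal.tsum_mul_left]
  refine tsum_congr fun v => ?_
  rw [ENNReal.tsum_prod', ENNReal.tsum_comm, ← ENNReal.tsum_mul_left]
  refine tsum_congr fun r => ?_
  rw [← ENNReal.tsum_mul_left]

/-- SC29. -/
theorem tot_a {C : Finset (Sym2 P3) → Prop} (hC : TypeClosed C) (M : ℕ) (hy : 0 < y) (hz : 0 < z)
    (n : ℕ) : 2 * ENNReal.ofReal (ZS C M y n * z ^ n) =
      ENNReal.ofReal y * SA y z (fun x : CS M => C (pol x)) n +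
        2 * ENNReal.ofReal (ZS0 C M y n * z ^ n) := by
  classical
  set f : Finset (Sym2 P3) → ℝ≥0∞ := fun E =>
    ENNReal.ofReal y ^ span E * ENNReal.ofReal z ^ E.card with hf
  set X : Set (Finset (Sym2 P3)) := {E | E ∈ PSl C M ∧ E.card = n} with hX
  set X0 : Set (Finset (Sym2 P3)) := {E | E ∈ PSl C M ∧ (∀ k, ¬ IsTwo E k) ∧ E.card = n} with hX0
  set X1 : Set (Finset (Sym2 P3)) := {E | E ∈ PSl C M ∧ E.card = n ∧ ∃ k, IsTwo E k} with hX1
  have hXf : X.Finite := sa_finite C M n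
  have hX0f : X0.Finite := hXf.subset fun E hE => ⟨hE.1, hE.2.2⟩
  have e1 : ENNReal.ofReal (ZS C M y n * z ^ n) = ∑' E : X, f E.1 :=
    sa_sum hy.le hz.le hXf n fun E hE => hE.2
  have e0 : ENNReal.ofReal (ZS0 C M y n * z ^ n) = ∑' E : X0, f E.1 :=
    sa_sum hy.le hz.le hX0f n fun E hE => hE.2.2
  have hsplit : ∑' E : X, f E.1 = (∑' E : PSt C M n, f E.1) + ∑' E : X0, f E.1 := by
    have h1 : ∑' E : X, f E.1 = ∑' E, Set.indicator X f E := tsum_subtype X f
    have h2 : ∑' E : PSt C M n, f E.1 = ∑' E, Set.indicator X1 f E := tsum_subtype X1 f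
    have h3 : ∑' E : X0, f E.1 = ∑' E, Set.indicator X0 f E := tsum_subtype X0 f
    rw [h1, h2, h3, ← ENNReal.tsum_add]
    refine tsum_congr fun E => ?_
    by_cases hE : E ∈ X
    · rw [Set.indicator_of_mem hE]
      by_cases hk : ∃ k, IsTwo E k
      · rw [Set.indicator_of_mem (show E ∈ X1 from ⟨hE.1, hE.2, hk⟩),
          Set.indicator_of_notMem (fun h : E ∈ X0 => hk.elim fun k hk => h.2.1 k hk), add_zero]
      · rw [Set.indicator_of_notMem (fun h : E ∈ X1 => hk h.2.2),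
          Set.indicator_of_mem (show E ∈ X0 from ⟨hE.1, fun k h => hk ⟨k, h⟩, hE.2⟩), zero_add]
    · rw [Set.indicator_of_notMem hE, Set.indicator_of_notMem (fun h : E ∈ X1 => hE ⟨h.1, h.2.1⟩),
        Set.indicator_of_notMem (fun h : E ∈ X0 => hE ⟨h.1, h.2.2⟩), add_zero]
  rw [e1, e0, hsplit, mul_add]
  congr 1
  rw [sa_poly hC M y z n, sa_chains C M y z n]

end Pool.Agent.KSC
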