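import Pool.Agent.KSC.MarkId
import Pool.Agent.KSC.Occ
import Pool.Agent.KSC.Tail

/-! SC30: the unknotted polygons are the chains of unknotted blocks between unknotted caps.

PROOF. `pol x` is unknotted iff both caps are unknotted and there are no marks: `→` is `count_le` with `N = 0`
(`KTen.Few 0 E` is `Unknotted E`); `←`: `uc_iff` gives `UC`, so `gl ..` is an unknotted lower half (`KTop.lu_gl` with `UC.uc`,
`pr_ed`), `flp r` is an unknotted upper half (`UU_flp`), and `unknotted_halves` (or `unk_iff`-type lemmas, see the proof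
of `count_le` in `KComp/Count.lean`). So the left side is `SA (fun x => UH x.1.1 ∧ UH x.1.2.2 ∧ Mat (mkA x) []) n`
(`Mat ms [] ↔ ms = []`), by `mark_id` with `L = []` it is `TQ UH [] n`, and `tot_tq`. -/

set_option autoImplicit false

open Pool.Agent.LK
open scoped ENNReal

namespace Pool.Agent.KSC

open Pool.Agent.KTube Pool.Agent.KRing Pool.Agent.KLog

variable {M : ℕ} {y z : ℝ}

theorem unk_pol (x : CS M) : Unknotted (pol x) ↔ UH x.1.1 ∧ UH x.1.2.2 ∧ mkA x = [] := by
  constructor
  · intro h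
    have hF : KTen.Few 0 (pol x) := h
    obtain ⟨h1, h2⟩ := count_le x hF
    have h3 : (mkA x).length = 0 := Nat.le_zero.1 h1
    obtain ⟨h4, h5⟩ := h2 h3
    exact ⟨h4, h5, List.eq_nil_of_length_eq_zero h3⟩
  · rintro ⟨h1, h2, h3⟩
    have hu : UC M x.1.1.1 x.1.2.1 := (uc_iff x.2.1).2 h3
    have h4 : LU 0 0 (KTop.ed (pr x.1.1.1) x.1.2.1) (KAmp.gl (pr x.1.1.1) x.1.1.2.1 x.1.2.1) :=
      KTop.lu_gl hu.uc h1
    rw [← pr_ed, x.2.2] at h4
    exact unknotted_halves (UU_flp h2) h4

/-- SC30. -/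
theorem tot_unk (n : ℕ) :
    SA y z (fun x : CS M => Unknotted (pol x)) n = (sys M y z).tot n := by
  rw [tot_tq]
  have h1 := mark_id (M := M) (y := y) (z := z) UH [] n
  rw [List.map_nil, List.sum_nil, add_zero, List.map_nil, KComp.ww_nil, one_mul] at h1
  have h2 : gaps M [] = [] := rfl
  rw [h2] at h1
  rw [← h1]
  congr 1
  funext x
  refine propext ((unk_pol x).trans (and_congr_right fun _ => and_congr_right fun _ => ?_))
  unfold Mat
  rw [List.forall₂_nil_right_iff]

end Pool.Agent.KSC
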