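import Pool.Agent.KSC.Bound
import Pool.Agent.KSC.CapA
import Pool.Agent.KSC.MarkId

/-! SC22: chains with few marks, and with long marks.

PROOF. As `KComp/Words.lean`, with `mark_id`, `ln_marks_le`, `tq_bound`, `knot_big`, `knot_tail`, `gapOk_gaps`, `kn_of_mem` of this
folder. -/

set_option autoImplicit false

open Pool.Agent.LK
open scoped ENNReal

namespace Pool.Agent.KSC

open Pool.Agent.KTube Pool.Agent.KRing Pool.Agent.KLog

open Pool.Agent.KAsym (ln)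

variable {M : ℕ} {y z ℓ : ℝ}

theorem few_marks (h : Bd M y z ℓ) (q : ℕ) : ∃ C : ℝ≥0∞, C ≠ ⊤ ∧ ∃ n0 : ℕ, ∀ n ≥ n0, Even n →
    SA y z (fun x : CS M => (mkA x).length = q) n ≤
      C * (n : ℝ≥0∞) ^ q * (sys M y z).tot n := by
  sorry

theorem long_marks (h : Bd M y z ℓ) (q : ℕ) {ε : ℝ≥0∞} (hε : ε ≠ 0) : ∃ n0 j0 : ℕ, ∀ j ≥ j0,
    ∀ n ≥ n0, Even n →
      SA y z (fun x : CS M => (mkA x).length = q ∧ ∃ m ∈ mkA x, j < ln m.2) n ≤
        ε * (n : ℝ≥0∞) ^ q * (sys M y z).tot n := by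
  sorry

end Pool.Agent.KSC
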