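import Pool.Agent.KSlab.XDefs
import Pool.Agent.KSC.TotA

/-! Y1: the two descriptions of the chains in the slab (states `ℤ × ℤ × ℤ` in `KSC`, states
`XX (II M)` in `KSlab`) agree.

PROOF. The map `CS M → CAS M`: a chain `x : CS M` has caps `h = x.1.1`, `r = x.1.2.2` with states `h.1`, `r.1` with
`Rg M h.1`, `Rg M r.1` (`HS.al`), so `h.1 = st x0`, `r.1 = st x1` for unique `x0 x1 : XX (II M)`, where
`st x0 = (x0.1, x0.2.1, x0.2.2)` (`pr (st x0) = vv x0`, `InS` of `KSC` and `KSlab` are the same by definition). And for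
all `x0 x1 : XX (II M)` and lists `s`: `GC M (st x0) s ∧ ed (st x0) s = st x1` (of `KSC`) iff
`KTop.GC (vv x0) s ∧ CC x0 s x1` (induction on `s`: `GS M (st x0) π` is `Geo (vv x0) π ∧ Ins M (st x0) π`; by `Ins.rg'` the
state `st x0 + DD π` is `st w` for a unique `w`, and `CX x0 w π` iff `Ins M (st x0) π` and `st x0 + DD π = st w`; `GC.gc`).
So the chains are in bijection by an equivalence `e : CS M ≃ CAS M` with `toA (e x) = fg x`, and `lenA`, `WA` of `x` are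
those of `fg x` (by definition). -/

set_option autoImplicit false

open Pool.Agent.LK
open scoped ENNReal

namespace Pool.Agent.KSC

open Pool.Agent.KTube Pool.Agent.KRing Pool.Agent.KLog
open Pool.Agent.KSlab (CAS SAS toA)
open Pool.Agent.KComp (CA)

variable {M : ℕ} {y z : ℝ}

/-- The state with integral coordinates. -/
private def st (x : KSlab.XX (KSlab.II M)) : SS := (x.1, ((x.2.1 : ℕ) : ℤ), ((x.2.2 : ℕ) : ℤ))

private theorem pr_st (x : KSlab.XX (KSlab.II M)) : pr (st x) = KSlab.vv x := rfl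

private theorem st_inj {x x' : KSlab.XX (KSlab.II M)} (h : st x = st x') : x = x' := by
  obtain ⟨a, b, c⟩ := x
  obtain ⟨a', b', c'⟩ := x'
  simp only [st, Prod.mk.injEq, Nat.cast_inj] at h
  obtain ⟨h1, h2, h3⟩ := h
  rw [h1, Fin.ext h2, Fin.ext h3]

private theorem rg_st (x : KSlab.XX (KSlab.II M)) : Rg M (st x) := by
  obtain ⟨a, b, c⟩ := x
  have hb := b.2
  have hc := c.2
  simp only [Rg, st]
  omega

private theorem exists_st {x : SS} (h : Rg M x) : ∃ w : KSlab.XX (KSlab.II M), st w = x := by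
  obtain ⟨a, b, c⟩ := x
  obtain ⟨⟨h1, h2⟩, h3, h4⟩ := h
  simp only at h1 h2 h3 h4
  refine ⟨(a, ⟨b.toNat, by omega⟩, ⟨c.toNat, by omega⟩), ?_⟩
  simp only [st, Prod.mk.injEq, true_and]
  exact ⟨Int.toNat_of_nonneg h1, Int.toNat_of_nonneg h3⟩

private theorem cx_iff {x w : KSlab.XX (KSlab.II M)} {π : PP} :
    KSlab.CX x w π ↔ Ins M (st x) π ∧ st x + DD π = st w := by
  constructor
  · rintro ⟨⟨h1, h2, h3, h4⟩, h5⟩
    refine ⟨⟨h1, h2⟩, ?_⟩
    exact Prod.ext h5 (Prod.ext h3 h4)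
  · rintro ⟨⟨h1, h2⟩, h3⟩
    refine ⟨⟨h1, h2, ?_, ?_⟩, ?_⟩
    · exact congrArg (fun u : SS => u.2.1) h3
    · exact congrArg (fun u : SS => u.2.2) h3
    · exact congrArg (fun u : SS => u.1) h3

private theorem cc_iff {x0 x1 : KSlab.XX (KSlab.II M)} {s : List PP} :
    (GC M (st x0) s ∧ ed (st x0) s = st x1) ↔
      (KTop.GC (KSlab.vv x0) s ∧ KSlab.CC x0 s x1) := by
  induction s generalizing x0 with
  | nil =>
    rw [ed_nil]
    constructor
    · rintro ⟨h1, h2⟩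
      exact ⟨h1.1, st_inj h2⟩
    · rintro ⟨h1, h2⟩
      exact ⟨⟨h1, rg_st x0⟩, congrArg st h2⟩
  | cons π s ih =>
    rw [ed_cons]
    constructor
    · rintro ⟨⟨h1, h2⟩, h3⟩
      obtain ⟨w, hw⟩ := exists_st h1.2.rg'
      rw [← hw] at h2 h3
      obtain ⟨h4, h5⟩ := ih.1 ⟨h2, h3⟩
      have h6 : KSlab.vv w = KSlab.vv x0 + dsp π := by
        rw [← pr_st, hw, pr_add_DD, pr_st]
      refine ⟨⟨h1.1, ?_⟩, w, cx_iff.2 ⟨h1.2, hw.symm⟩, h5⟩
      rw [← h6]
      exact h4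
    · rintro ⟨⟨h1, h2⟩, w, h3, h4⟩
      obtain ⟨h5, h6⟩ := cx_iff.1 h3
      have h7 : KSlab.vv w = KSlab.vv x0 + dsp π := h3.vv_eq
      rw [← h7] at h2
      obtain ⟨h8, h9⟩ := ih.2 ⟨h2, h4⟩
      rw [← h6] at h8 h9
      exact ⟨⟨⟨h1, h5⟩, h8⟩, h9⟩

/-- The cap with an integral state. -/
private def gH (h : KSlab.HAS M) : HS M := ⟨st h.1, h.2.1, h.2.2.1, h.2.2.2⟩

private theorem gH_inj : Function.Injective (gH (M := M)) := by
  rintro ⟨x, l, hl⟩ ⟨x', l', hl'⟩ h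
  have h1 : st x = st x' := congrArg Sigma.fst h
  have h2 := st_inj h1
  subst h2
  have h3 : (⟨l, hl.1, hl.2⟩ : {l // KCls.Flat (pr (st x)) l ∧ InS M (st x).2.1 l}) =
      ⟨l', hl'.1, hl'.2⟩ := by
    have h4 := (Sigma.ext_iff.1 h).2
    exact eq_of_heq h4
  have h5 : l = l' := congrArg Subtype.val h3
  subst h5
  rfl

private theorem gH_surj : Function.Surjective (gH (M := M)) := by
  intro h
  obtain ⟨w, hw⟩ := exists_st (HS.al h).2
  obtain ⟨x, l, hl⟩ := h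
  change st w = x at hw
  subst hw
  exact ⟨⟨w, l, hl.1, hl.2⟩, rfl⟩

/-- The chain with integral states. -/
private def gC (p : CAS M) : CS M :=
  ⟨(gH p.1.1, p.1.2.1, gH p.1.2.2), cc_iff.2 p.2⟩

private theorem fg_gC (p : CAS M) : fg (gC p) = toA p := rfl

private theorem gC_inj : Function.Injective (gC (M := M)) := by
  rintro ⟨⟨h, s, r⟩, hp⟩ ⟨⟨h', s', r'⟩, hp'⟩ he
  have h1 : (gH h, s, gH r) = (gH h', s', gH r') := congrArg Subtype.val he
  simp only [Prod.mk.injEq] at h1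
  obtain ⟨h2, h3, h4⟩ := h1
  have h5 := gH_inj h2
  have h6 := gH_inj h4
  subst h5 h3 h6
  rfl

private theorem gC_surj : Function.Surjective (gC (M := M)) := by
  rintro ⟨⟨h, s, r⟩, hx⟩
  obtain ⟨h0, rfl⟩ := gH_surj h
  obtain ⟨r0, rfl⟩ := gH_surj r
  exact ⟨⟨(h0, s, r0), cc_iff.1 hx⟩, rfl⟩

/-- Y1a. -/
theorem exists_conv (M : ℕ) : ∃ e : CS M ≃ CAS M, ∀ x, toA (e x) = fg x := by
  refine ⟨(Equiv.ofBijective (gC (M := M)) ⟨gC_inj, gC_surj⟩).symm, fun x => ?_⟩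
  rw [← fg_gC]
  congr 1
  exact (Equiv.ofBijective (gC (M := M)) ⟨gC_inj, gC_surj⟩).apply_symm_apply x

/-- Y1b. `exists_conv` and `Equiv.tsum_eq`. -/
theorem sa_sas (Q : CA → Prop) (n : ℕ) :
    SA y z (fun x : CS M => Q (fg x)) n = SAS M y z (fun p => Q (toA p)) n := by
  classical
  obtain ⟨e, he⟩ := exists_conv M
  unfold SA SAS
  rw [← e.tsum_eq]
  refine tsum_congr fun x => ?_
  simp only [he x]
  rfl

/-- Y1c. `tot_a`, `sa_sas`, `pol_fg`; the functions `ZS` and `ZS0` of `KSC/ZDefs.lean` and of `KSlab/SDefs.lean` have the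
same definition (`rfl` after unfolding). -/
theorem tot_s {C : Finset (Sym2 P3) → Prop} (hC : TypeClosed C) (M : ℕ) (hy : 0 < y) (hz : 0 < z)
    (n : ℕ) : 2 * ENNReal.ofReal (KSlab.ZS C M y n * z ^ n) =
      ENNReal.ofReal y * SAS M y z (fun p => C (KComp.pol (toA p))) n +
        2 * ENNReal.ofReal (KSlab.ZS0 C M y n * z ^ n) := by
  rw [← sa_sas (fun a => C (KComp.pol a)) n]
  exact tot_a hC M hy hz n

/-- Y1d. The left side of `tot_s` is finite, `0 < y`. -/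
theorem sas_ne_top {C : Finset (Sym2 P3) → Prop} (hC : TypeClosed C) (M : ℕ) (hy : 0 < y)
    (hz : 0 < z) (n : ℕ) : SAS M y z (fun p => C (KComp.pol (toA p))) n ≠ ⊤ := by
  intro h
  have h1 := tot_s hC M hy hz n
  rw [h, ENNReal.mul_top (ENNReal.ofReal_pos.2 hy).ne', top_add] at h1
  exact ENNReal.mul_ne_top ENNReal.ofNat_ne_top ENNReal.ofReal_ne_top h1

end Pool.Agent.KSC
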