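import Pool.Agent.KSC.YWord
import Pool.Agent.KSC.YConv
import Pool.Agent.KSlab.MGen
import Pool.Agent.KTen.FinalT

/-! Y4: the amplitudes of composite knots in slabs.

PROOF of `y_lim`. As `KComp/Final.lean` (`comp_lim`), but simpler. `T = SameType K` is `TypeClosed`
(`typeClosed_type`), `∀ E, T E → Few N E` by `KTen.hinv_few`; finiteness by `sas_ne_top`. Let
`s k = (SAS (T (pol)) (2 k)).toReal * (2 k) ^ (3/2 - N)`. It is close to constants: for `ε > 0` take `j = j0` as in `y_tail`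
(with `ε / 2`) and the limit `b` of `y_word`; `SAS (T (pol) ∧ GoodF) ≤ SAS (T (pol))`. It is bounded from below by
`y_low` (`L.length = N`). So it converges to a positive number (`fin_cauchy` in `KComp/Final.lean`, private, copy). By `tot_s`
`2 a = y s' + 2 p` with `a = ZS T M y (2 k) * z ^ (2 k)`, `p = ZS0 T M y (2 k) * z ^ (2 k)` (`0 ≤ ZS`, `0 ≤ ZS0`: `finsum`
of nonnegative numbers), `s' = (SAS ..).toReal`; `p * (2 k) ^ (3/2 - N) → 0` since `2 ^ n * (ZS0 n * z ^ n)` is summable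
(`KSlab.u_sum`), so bounded. -/

set_option autoImplicit false

open Pool.Agent.LK Filter Topology
open scoped ENNReal

namespace Pool.Agent.KSC

open Pool.Agent.KTube Pool.Agent.KRing Pool.Agent.KLog
open Pool.Agent.KSlab (II CritS)
open Pool.Agent.KTop (TypeN)

variable {M : ℕ} {y z : ℝ} {h : II M → ℝ}

/-- Y4. -/
theorem y_lim (hC : CritS Unknotted y z h) {K : Finset (Sym2 P3)} {L : List PP}
    (hF : KTen.Few L.length K) (hL : ∀ π ∈ L, InK M π) (hTL : TypeN (SameType K) L) :
    ∃ A : ℝ, 0 < A ∧ Tendsto (fun k : ℕ => KSlab.ZS (SameType K) M y (2 * k) * z ^ (2 * k) *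
      ((2 * k : ℕ) : ℝ) ^ (3 / 2 - L.length : ℝ)) atTop (𝓝 A) := by
  sorry

end Pool.Agent.KSC
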