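import Pool.Agent.KSlab.XMain
import Pool.Agent.KComp.Count

/-! Y2: in the slab only the chains with `N` short marks far from the dead states and with unknotted caps matter.

NOTATION. `S Q k = SAS M y z Q (2 * k)`. All sets below are sets of chains `p : CAS M`; the conditions are written for
`toA p`.

PROOF of `lk_tail`. `lk_sum` for `B = fun _ => True`: the family `π ↦ LK (ρ = π)` over all words is summable with
nonnegative terms, and by `lk_sum` for `B = fun π => j < ln π` the number `LK (j < ln)` is the sum over `{π // j < ln π}`: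
the tail of a summable family (the sets `{π | j < ln π}` decrease to the empty set: for a finite set `F` of words with
sum of the complement `< ε`, `j ≥ max ln` over `F`; `Summable.tsum_subtype_le`-type lemmas or
`tendsto_tsum_compl_atTop_zero`).

PROOF of `few_s`. `chains hC (Tc := fun _ => True)` (`Cls (fun _ => True)`: see `KAsym`/`KCls`, e.g. `cls_true`, used in
`KSlab`), with the list `L` of `q` copies of `(fun _ _ => True, fun _ => True)`: `MatP p (L.map Prod.fst)` iff
`(mkA (toA p)).length = q` (`List.forall₂` with `True`), `qc_all`. A convergent sequence is bounded.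

PROOF of `y_tail`. By `KComp.count_le` a chain with `T (pol)` has at most `N` marks, and exactly `N` only if both caps are
unknotted. So a chain with `T (pol)` which is not `GoodF j N` has `q < N` marks, or `N` marks one of which is long
(`j < ln`), or `N` marks one of which is near (`¬ nh < nrm`). (1) `q < N` marks: by `few_s` the weight times
`n ^ (3/2 - N)` is at most `C * n ^ (q - N) → 0`. (2) `N` marks, the `i`-th (for some `i < N`) is long: `chains` with `True`
in all places but the `i`-th, which is `(fun _ π => j < ln π, fun π => j < ln π)` (the list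
`(List.replicate N (True, True)).set i (..)`, or `replicate i .. ++ [..] ++ replicate (N - 1 - i) ..`): the weight times
`n ^ (3/2 - N)` tends to `A / N! * ν ^ N * LK True ^ (N - 1) * LK (j < ln)`, which is small for `j ≥ j0` by `lk_tail`;
for every `j ≥ j0` this holds for all large `k`, the sum over `i < N`. (3) near: the same with
`(fun v π => ¬ nh π < nrm v, fun _ => False)` (`FarEq` holds) and `LK False = 0` (empty sum): the limit is `0`. The sum over
`SAS` of a union is at most the sum (see `sa_or`, `sa_lt` in `KComp/Tail.lean`). -/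

set_option autoImplicit false

open Pool.Agent.LK Filter Topology
open scoped ENNReal

namespace Pool.Agent.KSC

open Pool.Agent.KTube Pool.Agent.KRing Pool.Agent.KLog
open Pool.Agent.KAsym (ln)
open Pool.Agent.KSlab (CAS SAS toA II XX LK CritS)
open Pool.Agent.KComp (CA)

variable {M : ℕ} {y z : ℝ} {h : II M → ℝ}

/-- The chain has unknotted caps and `N` marks with at most `j` points each, far from the dead states. -/
def GoodF (j N : ℕ) (x : CA) : Prop :=
  KComp.UH x.1.1 ∧ KComp.UH x.1.2.2 ∧ (KComp.mkA x).length = N ∧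
    ∀ m ∈ KComp.mkA x, ln m.2 ≤ j ∧ nh m.2 < nrm m.1

/-- Y2a. -/
theorem lk_tail (hy : 0 < y) (hz : 0 < z) (hz1 : z ≤ 1 / 10 ^ 12) (hq : y * z ^ 2 ≤ 1)
    (hh : ∀ i : II M, 0 < h i) : Tendsto (fun j : ℕ => LK y z h (fun π => j < ln π)) atTop (𝓝 0) := by
  sorry

/-- Y2b. -/
theorem few_s (hC : CritS Unknotted y z h) (q : ℕ) : ∃ C : ℝ, ∀ᶠ k : ℕ in atTop,
    (SAS M y z (fun p => (KComp.mkA (toA p)).length = q) (2 * k)).toReal *
      ((2 * k : ℕ) : ℝ) ^ (3 / 2 - q : ℝ) ≤ C := by
  sorry

/-- Y2c. -/
theorem y_tail (hC : CritS Unknotted y z h) {N : ℕ} {T : Finset (Sym2 P3) → Prop}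
    (hT : ∀ E, T E → KTen.Few N E)
    (hfin : ∀ n, SAS M y z (fun p => T (KComp.pol (toA p))) n ≠ ⊤) {ε : ℝ} (hε : 0 < ε) :
    ∃ j0 : ℕ, ∀ j ≥ j0, ∀ᶠ k : ℕ in atTop,
      (SAS M y z (fun p => T (KComp.pol (toA p))) (2 * k)).toReal *
        ((2 * k : ℕ) : ℝ) ^ (3 / 2 - N : ℝ) ≤
      (SAS M y z (fun p => T (KComp.pol (toA p)) ∧ GoodF j N (toA p)) (2 * k)).toReal *
        ((2 * k : ℕ) : ℝ) ^ (3 / 2 - N : ℝ) + ε := by
  sorry

end Pool.Agent.KSC
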