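import Pool.Agent.KSC.YTail
import Pool.Agent.KComp.Marks
import Pool.Agent.KComp.CapA

/-! Y3: the limits for the chains with `N` short marks far from the dead states.

PROOF of `y_word`. As `KComp/MainL.lean` (`main_l`). Let `W = {π : PP // (∃ v, Kn v π) ∧ ln π ≤ j}`, a finite type
(`KComp.short_fin`). The chains with `T (pol)` and `GoodF j N` are the disjoint union, over the functions `g : Fin N → W`, of the
chains with unknotted caps, marks with the words `g 0, …, g (N - 1)`, all far (`nh m.2 < nrm m.1`), and `T (pol)`. By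
`KComp.type_far` the condition `T (pol)` holds for all of these chains or for none: it is `TypeN T [g 0, …]`. So
`SAS (T (pol) ∧ GoodF j N) n` is the finite sum over the `g` with `TypeN T ..` of
`SAS (UH ∧ UH ∧ MatP p (L.map Prod.fst)) n` with `L` the list of the `(fun v ρ => nh ρ < nrm v ∧ ρ = g i, fun ρ => ρ = g i)`
(`FarEq` holds; `MatP p ..` says: as many marks, and the `i`-th mark `m` has `nh m.2 < nrm m.1` and `m.2 = g i`). Each
summand times `n ^ (3/2 - N)` converges by `chains hC (Tc := Unknotted)` (`hC.cls : Cls Unknotted`, `qc_unk`); all sums are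
finite by `hfin`.

PROOF of `y_low`. Let `L'` be the list of the `(fun v ρ => nh ρ < nrm v ∧ ρ = π, fun ρ => ρ = π)`, `π ∈ L`. By
`KComp.type_far` and `hT` every chain with unknotted caps and `MatP p (L'.map Prod.fst)` satisfies `T (pol)`. By `chains`
the weight of these chains times `n ^ (3/2 - L.length)` tends to `A / N! * ∏ ν * LK (ρ = π)`, which is positive by `lk_pos`.
(`SAS` is monotone in the condition, `hfin`.) -/

set_option autoImplicit false

open Pool.Agent.LK Filter Topology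
open scoped ENNReal

namespace Pool.Agent.KSC

open Pool.Agent.KTube Pool.Agent.KRing Pool.Agent.KLog
open Pool.Agent.KAsym (ln)
open Pool.Agent.KSlab (CAS SAS toA II XX LK CritS CB KnF)
open Pool.Agent.KComp (CA)
open Pool.Agent.KTop (TypeN)

variable {M : ℕ} {y z : ℝ} {h : II M → ℝ}

/-- A far mark with the word `π`. -/
private def ywF (π : PP) : (ℤ × ℤ → PP → Prop) × (PP → Prop) :=
  (fun v ρ => nh ρ < nrm v ∧ ρ = π, fun ρ => ρ = π)

private theorem ywF_far (π : PP) : KSlab.FarEq (ywF π).1 (ywF π).2 :=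
  fun _ _ h _ => ⟨fun h1 => h1.2, fun h1 => ⟨h, h1⟩⟩

private theorem yw_forall {ms : List ((ℤ × ℤ) × PP)} {L : List PP} :
    List.Forall₂ (fun (m : (ℤ × ℤ) × PP) (A : ℤ × ℤ → PP → Prop) => A m.1 m.2) ms
      ((L.map ywF).map Prod.fst) ↔ ms.map Prod.snd = L ∧ ∀ m ∈ ms, nh m.2 < nrm m.1 := by
  induction ms generalizing L with
  | nil =>
    cases L with
    | nil => simp
    | cons π L => simp
  | cons m ms ih =>
    cases L with
    | nil => simp
    | cons π L =>
      rw [List.map_cons, List.map_cons, List.forall₂_cons, ih, List.map_cons, List.cons.injEq,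
        List.forall_mem_cons]
      change (nh m.2 < nrm m.1 ∧ m.2 = π) ∧ _ ↔ _
      tauto

private theorem yw_mat {p : CAS M} {L : List PP} :
    KSlab.MatP p ((L.map ywF).map Prod.fst) ↔
      (KComp.mkA (toA p)).map Prod.snd = L ∧ ∀ m ∈ KComp.mkA (toA p), nh m.2 < nrm m.1 :=
  yw_forall

private theorem yw_mono {Q Q' : CAS M → Prop} (h : ∀ p, Q p → Q' p) (n : ℕ) :
    SAS M y z Q n ≤ SAS M y z Q' n := by
  unfold KSlab.SAS
  refine ENNReal.tsum_le_tsum fun x => ?_
  by_cases h1 : KComp.lenA (toA x) = n ∧ Q x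
  · rw [if_pos h1, if_pos ⟨h1.1, h x h1.2⟩]
  · rw [if_neg h1]
    exact zero_le

private theorem yw_congr {Q Q' : CAS M → Prop} (h : ∀ p, Q p ↔ Q' p) (n : ℕ) :
    SAS M y z Q n = SAS M y z Q' n :=
  le_antisymm (yw_mono (fun p => (h p).1) n) (yw_mono (fun p => (h p).2) n)

private theorem yw_zero {Q : CAS M → Prop} (h : ∀ p, ¬ Q p) (n : ℕ) :
    SAS M y z Q n = 0 := by
  unfold KSlab.SAS
  refine ENNReal.tsum_eq_zero.2 fun x => ?_
  rw [if_neg]
  exact fun h1 => h x h1.2

private theorem yw_type {T : Finset (Sym2 P3) → Prop} (hT : TypeClosed T) {p : CAS M} {L : List PP}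
    (h1 : KComp.UH (toA p).1.1) (h2 : KComp.UH (toA p).1.2.2)
    (h3 : KSlab.MatP p ((L.map ywF).map Prod.fst)) : T (KComp.pol (toA p)) ↔ TypeN T L := by
  obtain ⟨h4, h5⟩ := yw_mat.1 h3
  rw [KComp.type_far hT (toA p) h1 h2 h5, h4]

/-- The limit for one list of words. -/
private theorem yw_one (hC : CritS Unknotted y z h) : ∃ A ν : ℝ, 0 < A ∧ 0 < ν ∧ ∀ L : List PP,
    Tendsto (fun k : ℕ => (SAS M y z (fun p => KComp.UH (toA p).1.1 ∧ KComp.UH (toA p).1.2.2 ∧
      KSlab.MatP p ((L.map ywF).map Prod.fst)) (2 * k)).toReal *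
        ((2 * k : ℕ) : ℝ) ^ (3 / 2 - L.length : ℝ)) atTop
      (𝓝 (A / L.length.factorial * (L.map fun π => ν * LK y z h fun ρ => ρ = π).prod)) := by
  obtain ⟨A, ν, hA, hν, hlim⟩ := KSlab.chains hC hC.cls
  refine ⟨A, ν, hA, hν, fun L => ?_⟩
  have h1 := hlim (L.map ywF) (by
    intro q hq
    obtain ⟨π, -, rfl⟩ := List.mem_map.1 hq
    exact ywF_far π)
  rw [List.length_map] at h1
  have e2 : ((L.map ywF).map fun q => ν * LK y z h q.2) =
      L.map fun π => ν * LK y z h fun ρ => ρ = π := by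
    rw [List.map_map]
    rfl
  rw [e2] at h1
  refine h1.congr fun k => ?_
  congr 2
  refine yw_congr (fun p => ?_) _
  rw [KSlab.qc_unk, KSlab.qc_unk]

private theorem yw_lim (hC : CritS Unknotted y z h) {T : Finset (Sym2 P3) → Prop}
    (hT : TypeClosed T) (L : List PP) : ∃ b : ℝ,
    Tendsto (fun k : ℕ => (SAS M y z (fun p => T (KComp.pol (toA p)) ∧ KComp.UH (toA p).1.1 ∧
      KComp.UH (toA p).1.2.2 ∧ KSlab.MatP p ((L.map ywF).map Prod.fst)) (2 * k)).toReal *
        ((2 * k : ℕ) : ℝ) ^ (3 / 2 - L.length : ℝ)) atTop (𝓝 b) := by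
  by_cases hTL : TypeN T L
  · obtain ⟨A, ν, -, -, hlim⟩ := yw_one hC
    refine ⟨_, (hlim L).congr fun k => ?_⟩
    congr 2
    refine yw_congr (fun p => ?_) _
    constructor
    · rintro ⟨h1, h2, h3⟩
      exact ⟨(yw_type hT h1 h2 h3).2 hTL, h1, h2, h3⟩
    · exact fun h1 => h1.2
  · refine ⟨0, tendsto_const_nhds.congr fun k => ?_⟩
    rw [yw_zero]
    · simp
    · rintro p ⟨h0, h1, h2, h3⟩
      exact hTL ((yw_type hT h1 h2 h3).1 h0)

/-- The words in the list of a function. -/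
private def ywL {j N : ℕ} (g : Fin N → {π : KComp.KW // ln π.1 ≤ j}) : List PP :=
  List.ofFn fun i => (g i).1.1

private theorem ywL_inj {j N : ℕ} {g g' : Fin N → {π : KComp.KW // ln π.1 ≤ j}}
    (h : ywL g = ywL g') : g = g' := by
  have h2 := List.ofFn_injective h
  funext i
  exact Subtype.ext (Subtype.ext (congrFun h2 i))

private theorem ywL_length {j N : ℕ} (g : Fin N → {π : KComp.KW // ln π.1 ≤ j}) :
    (ywL g).length = N := List.length_ofFn

private theorem ywL_exists {j N : ℕ} {x : CA} (hx : GoodF j N x) :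
    ∃ g : Fin N → {π : KComp.KW // ln π.1 ≤ j}, (KComp.mkA x).map Prod.snd = ywL g := by
  obtain ⟨-, -, hl, hj⟩ := hx
  have hm : ∀ i : Fin N, (KComp.mkA x)[(i : ℕ)]'(by rw [hl]; exact i.2) ∈ KComp.mkA x := fun i =>
    List.getElem_mem _
  refine ⟨fun i => ⟨⟨((KComp.mkA x)[(i : ℕ)]'(by rw [hl]; exact i.2)).2, _,
    KComp.kn_of_mem x (hm i)⟩, (hj _ (hm i)).1⟩, ?_⟩
  refine List.ext_getElem ?_ fun i h1 h2 => ?_
  · rw [List.length_map, ywL_length, hl]
  · simp [ywL]

private theorem ywL_good {j N : ℕ} {x : CA} (h1 : KComp.UH x.1.1) (h2 : KComp.UH x.1.2.2)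
    {g : Fin N → {π : KComp.KW // ln π.1 ≤ j}}
    (h : (KComp.mkA x).map Prod.snd = ywL g) (h3 : ∀ m ∈ KComp.mkA x, nh m.2 < nrm m.1) :
    GoodF j N x := by
  refine ⟨h1, h2, ?_, fun m hm => ⟨?_, h3 m hm⟩⟩
  · have := congrArg List.length h
    rwa [List.length_map, ywL_length] at this
  · have h4 : m.2 ∈ (KComp.mkA x).map Prod.snd := List.mem_map_of_mem hm
    rw [h] at h4
    unfold ywL at h4
    rw [List.mem_ofFn] at h4
    obtain ⟨i, he⟩ := h4
    rw [← he]
    exact (g i).2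

/-- Y3a. -/
theorem y_word (hC : CritS Unknotted y z h) {T : Finset (Sym2 P3) → Prop} (hT : TypeClosed T)
    (hfin : ∀ n, SAS M y z (fun p => T (KComp.pol (toA p))) n ≠ ⊤) (j N : ℕ) :
    ∃ b : ℝ, Tendsto (fun k : ℕ =>
      (SAS M y z (fun p => T (KComp.pol (toA p)) ∧ GoodF j N (toA p)) (2 * k)).toReal *
        ((2 * k : ℕ) : ℝ) ^ (3 / 2 - N : ℝ)) atTop (𝓝 b) := by
  classical
  have hfinW : Finite {π : KComp.KW // ln π.1 ≤ j} := (KComp.short_fin j).to_subtype
  have := Fintype.ofFinite {π : KComp.KW // ln π.1 ≤ j}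
  have hsplit : ∀ n, SAS M y z (fun p => T (KComp.pol (toA p)) ∧ GoodF j N (toA p)) n =
      ∑ g : Fin N → {π : KComp.KW // ln π.1 ≤ j}, SAS M y z (fun p => T (KComp.pol (toA p)) ∧
        KComp.UH (toA p).1.1 ∧ KComp.UH (toA p).1.2.2 ∧
        KSlab.MatP p (((ywL g).map ywF).map Prod.fst)) n := by
    intro n
    unfold KSlab.SAS
    rw [← Summable.tsum_finsetSum fun _ _ => ENNReal.summable]
    refine tsum_congr fun x => ?_
    by_cases hx : KComp.lenA (toA x) = n ∧ T (KComp.pol (toA x)) ∧ GoodF j N (toA x)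
    · rw [if_pos hx]
      obtain ⟨g, hg⟩ := ywL_exists hx.2.2
      rw [Finset.sum_eq_single g]
      · rw [if_pos ⟨hx.1, hx.2.1, hx.2.2.1, hx.2.2.2.1,
          yw_mat.2 ⟨hg, fun m hm => (hx.2.2.2.2.2 m hm).2⟩⟩]
      · intro g' _ hne
        rw [if_neg]
        rintro ⟨-, -, -, -, hg'⟩
        exact hne (ywL_inj ((yw_mat.1 hg').1.symm.trans hg))
      · intro hn
        exact absurd (Finset.mem_univ g) hn
    · rw [if_neg hx]
      symm
      refine Finset.sum_eq_zero fun g _ => ?_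
      rw [if_neg]
      rintro ⟨h1, h2, h3, h4, h5⟩
      obtain ⟨h6, h7⟩ := yw_mat.1 h5
      exact hx ⟨h1, h2, ywL_good h3 h4 h6 h7⟩
  choose b hb using fun g : Fin N → {π : KComp.KW // ln π.1 ≤ j} => yw_lim hC hT (ywL g)
  refine ⟨∑ g, b g, ?_⟩
  have h1 := tendsto_finsetSum
    (Finset.univ : Finset (Fin N → {π : KComp.KW // ln π.1 ≤ j})) fun g _ => hb g
  refine h1.congr fun k => ?_
  rw [hsplit, ENNReal.toReal_sum, Finset.sum_mul]
  · refine Finset.sum_congr rfl fun g _ => ?_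
    rw [ywL_length]
  · intro g _
    exact ne_top_of_le_ne_top (hfin (2 * k)) (yw_mono (fun p hp => hp.1) _)

/-- The word is knotted far from the dead states, and it fits into the slab. -/
def InK (M : ℕ) (π : PP) : Prop := KnF π ∧ ∃ i j : II M, CB i j π

/-- Y3b. -/
theorem y_low (hC : CritS Unknotted y z h) {T : Finset (Sym2 P3) → Prop} (hT : TypeClosed T)
    (hfin : ∀ n, SAS M y z (fun p => T (KComp.pol (toA p))) n ≠ ⊤) {L : List PP}
    (hL : ∀ π ∈ L, InK M π) (hTL : TypeN T L) : ∃ δ : ℝ, 0 < δ ∧ ∀ᶠ k : ℕ in atTop,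
      δ ≤ (SAS M y z (fun p => T (KComp.pol (toA p))) (2 * k)).toReal *
        ((2 * k : ℕ) : ℝ) ^ (3 / 2 - L.length : ℝ) := by
  obtain ⟨A, ν, hA, hν, hlim⟩ := yw_one hC
  have hprod : 0 < (L.map fun π => ν * LK y z h fun ρ => ρ = π).prod := by
    refine List.prod_pos fun a ha => ?_
    obtain ⟨π, hπ, rfl⟩ := List.mem_map.1 ha
    obtain ⟨h1, i, j, h2⟩ := hL π hπ
    exact mul_pos hν (KSlab.lk_pos hC.y_pos hC.z_pos hC.z_le hC.q_le hC.h_pos h1 h2)
  have hpos : 0 < A / L.length.factorial * (L.map fun π => ν * LK y z h fun ρ => ρ = π).prod :=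
    mul_pos (div_pos hA (by exact_mod_cast Nat.factorial_pos _)) hprod
  refine ⟨_, half_pos hpos, ?_⟩
  filter_upwards [(hlim L).eventually (lt_mem_nhds (half_lt_self hpos))] with k hk
  refine hk.le.trans (mul_le_mul_of_nonneg_right ?_ (Real.rpow_nonneg (Nat.cast_nonneg _) _))
  refine ENNReal.toReal_mono (hfin (2 * k)) (yw_mono (fun p hp => ?_) _)
  exact (yw_type hT hp.1 hp.2.1 hp.2.2).2 hTL

end Pool.Agent.KSC
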