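import Pool.Agent.KSC.Basic

/-! Polygons in a slab: partition functions (the same definitions as in `KSlab/SDefs.lean`). -/

set_option autoImplicit false

open Pool.Agent.LK
open scoped ENNReal

namespace Pool.Agent.KSC

open Pool.Agent.KTube Pool.Agent.KRing Pool.Agent.KLog

/-- `E` lies in the slab, its lowest levels in the two unbounded directions are `0`. -/
def SNormed (M : ℕ) (E : Finset (Sym2 P3)) : Prop :=
  (∀ u ∈ verts E, 0 ≤ u.1 ∧ 0 ≤ u.2.1 ∧ u.2.1 ≤ M ∧ 0 ≤ u.2.2) ∧ (∃ u ∈ verts E, u.1 = 0) ∧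
    ∃ u ∈ verts E, u.2.2 = 0

/-- The polygons of class `T` in the slab, up to the translations of the slab. -/
def PSl (T : Finset (Sym2 P3) → Prop) (M : ℕ) : Set (Finset (Sym2 P3)) :=
  {E | IsPolygon E ∧ T E ∧ SNormed M E}

/-- The partition function: the weight of a polygon is `y ^ span`. -/
noncomputable def ZS (T : Finset (Sym2 P3) → Prop) (M : ℕ) (y : ℝ) (n : ℕ) : ℝ :=
  ∑ᶠ E ∈ {E | E ∈ PSl T M ∧ E.card = n}, y ^ span E

/-- The part of the polygons without sections with two edges. -/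
noncomputable def ZS0 (T : Finset (Sym2 P3) → Prop) (M : ℕ) (y : ℝ) (n : ℕ) : ℝ :=
  ∑ᶠ E ∈ {E | E ∈ PSl T M ∧ (∀ k, ¬ IsTwo E k) ∧ E.card = n}, y ^ span E

end Pool.Agent.KSC
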